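import Pool.Agent.MP_af2a1c_lc.Defs

/-! Basic facts on the trace and the 2-norm. -/

namespace Pool.Agent.McDuffR

open Filter Topology ComplexConjugate

section

variable {M : Type*} [CStarAlgebra M] [TracialVNA M]

lemma tau_def (x : M) : tau x = TracialVNA.tr x := rfl

@[simp] lemma tau_add (x y : M) : tau (x + y) = tau x + tau y := map_add _ x y
@[simp] lemma tau_sub (x y : M) : tau (x - y) = tau x - tau y := map_sub _ x y
@[simp] lemma tau_neg (x : M) : tau (-x) = -tau x := map_neg _ x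
@[simp] lemma tau_zero : tau (0 : M) = 0 := map_zero _
@[simp] lemma tau_one : tau (1 : M) = 1 := TracialVNA.tr_one
@[simp] lemma tau_smul (c : ℂ) (x : M) : tau (c • x) = c * tau x := map_smul _ c x
lemma tau_rsmul (c : ℝ) (x : M) : tau (c • x) = c * tau x := by
  have : (c • x : M) = (c : ℂ) • x := (Complex.coe_smul c x).symm
  rw [this, tau_smul]
lemma tau_sum {ι : Type*} (s : Finset ι) (f : ι → M) :
    tau (∑ i ∈ s, f i) = ∑ i ∈ s, tau (f i) := map_sum _ f s
lemma tau_comm (x y : M) : tau (x * y) = tau (y * x) := TracialVNA.tr_mul_comm x y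

lemma tau_star_mul_self_im (x : M) : (tau (star x * x)).im = 0 := by
  obtain ⟨r, _, h⟩ := TracialVNA.tr_nonneg x
  rw [tau_def, h]; simp

lemma tau_star_mul_self_re (x : M) : 0 ≤ (tau (star x * x)).re := by
  obtain ⟨r, h0, h⟩ := TracialVNA.tr_nonneg x
  rw [tau_def, h]; simpa using h0

lemma tau_star (x : M) : tau (star x) = conj (tau x) := by
  have h1 := tau_star_mul_self_im (1 + x)
  have h2 := tau_star_mul_self_im (1 + Complex.I • x)
  have h3 := tau_star_mul_self_im x
  have e1 : star (1 + x) * (1 + x) = 1 + x + star x + star x * x := by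
    simp only [star_add, star_one]; noncomm_ring
  have e2 : star (1 + Complex.I • x) * (1 + Complex.I • x)
      = 1 + Complex.I • x - Complex.I • star x + star x * x := by
    rw [star_add, star_one, star_smul, show (star Complex.I : ℂ) = -Complex.I from Complex.conj_I]
    simp only [mul_add, add_mul, one_mul, mul_one, smul_mul_assoc, mul_smul_comm, smul_add,
      smul_smul]
    rw [show Complex.I * -Complex.I = 1 by simp, one_smul, neg_smul]
    abel
  rw [e1] at h1
  rw [e2] at h2
  simp only [tau_add, tau_sub, tau_one, tau_smul, Complex.add_im, Complex.sub_im, Complex.mul_im,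
    Complex.I_re, Complex.I_im, Complex.one_im, h3] at h1 h2
  apply Complex.ext
  · simp only [Complex.conj_re]; linarith
  · simp only [Complex.conj_im]; linarith

end

/-- Type synonym of `M` carrying the 2-norm. -/
def L2 (M : Type*) := M

section

variable {M : Type*} [CStarAlgebra M] [TracialVNA M]

instance : AddCommGroup (L2 M) := inferInstanceAs (AddCommGroup M)
instance : Module ℂ (L2 M) := inferInstanceAs (Module ℂ M)

/-- The identity map from `M` to `L2 M`. -/
noncomputable def toL2 : M ≃ₗ[ℂ] L2 M := LinearEquiv.refl ℂ M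

/-- The inner product on `L2 M`. -/
@[instance_reducible] noncomputable def l2core : InnerProductSpace.Core ℂ (L2 M) where
  inner a b := tau (star (toL2.symm a) * toL2.symm b)
  conj_inner_symm a b := by
    rw [← tau_star, star_mul, star_star]
  re_inner_nonneg a := by
    simpa using tau_star_mul_self_re (toL2.symm a)
  add_left a b c := by
    rw [map_add, star_add, add_mul, tau_add]
  smul_left a b c := by
    rw [map_smul, star_smul, smul_mul_assoc, tau_smul]; rfl
  definite a h := by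
    have : toL2.symm a = 0 := TracialVNA.tr_faithful _ h
    simpa using this

noncomputable instance : NormedAddCommGroup (L2 M) :=
  InnerProductSpace.Core.toNormedAddCommGroup (cd := l2core)
noncomputable instance : InnerProductSpace ℂ (L2 M) :=
  InnerProductSpace.ofCore (l2core (M := M)).toCore

lemma inner_toL2 (x y : M) : inner ℂ (toL2 x) (toL2 y) = tau (star x * y) := rfl

lemma norm_toL2 (x : M) : ‖toL2 x‖ = nrm x := by
  rw [@norm_eq_sqrt_re_inner ℂ, inner_toL2]; rfl

lemma nrm_sq (x : M) : nrm x ^ 2 = (tau (star x * x)).re := by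
  change √(tau (star x * x)).re ^ 2 = _
  rw [Real.sq_sqrt (tau_star_mul_self_re x)]

lemma nrm_sq' (x : M) : ((nrm x ^ 2 : ℝ) : ℂ) = tau (star x * x) := by
  rw [nrm_sq]
  apply Complex.ext
  · simp
  · simp [tau_star_mul_self_im]

lemma nrm_nonneg (x : M) : 0 ≤ nrm x := Real.sqrt_nonneg _
@[simp] lemma nrm_zero : nrm (0 : M) = 0 := by
  rw [← norm_toL2]; simp
lemma nrm_eq_zero {x : M} : nrm x = 0 ↔ x = 0 := by
  rw [← norm_toL2, norm_eq_zero]; simp
lemma nrm_add_le (x y : M) : nrm (x + y) ≤ nrm x + nrm y := by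
  simp only [← norm_toL2, map_add]; exact norm_add_le _ _
lemma nrm_sub_le (x y : M) : nrm (x - y) ≤ nrm x + nrm y := by
  simp only [← norm_toL2, map_sub]; exact norm_sub_le _ _
lemma nrm_neg (x : M) : nrm (-x) = nrm x := by
  simp only [← norm_toL2, map_neg]; exact norm_neg _
lemma nrm_sub_comm (x y : M) : nrm (x - y) = nrm (y - x) := by
  rw [← nrm_neg, neg_sub]
lemma nrm_smul (c : ℂ) (x : M) : nrm (c • x) = ‖c‖ * nrm x := by
  simp only [← norm_toL2, map_smul]; exact norm_smul _ _
lemma nrm_sum_le {ι : Type*} (s : Finset ι) (f : ι → M) :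
    nrm (∑ i ∈ s, f i) ≤ ∑ i ∈ s, nrm (f i) := by
  simp only [← norm_toL2, map_sum]; exact norm_sum_le _ _
lemma nrm_sub_le_add (x y z : M) : nrm (x - z) ≤ nrm (x - y) + nrm (y - z) := by
  have : x - z = (x - y) + (y - z) := by abel
  rw [this]; exact nrm_add_le _ _

lemma nrm_star (x : M) : nrm (star x) = nrm x := by
  have h : nrm (star x) ^ 2 = nrm x ^ 2 := by
    rw [nrm_sq, nrm_sq, star_star, tau_comm]
  have := abs_eq_abs.2 (sq_eq_sq_iff_eq_or_eq_neg.1 h)
  rwa [abs_of_nonneg (nrm_nonneg _), abs_of_nonneg (nrm_nonneg _)] at this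

lemma norm_tau_star_mul_le (x y : M) : ‖tau (star x * y)‖ ≤ nrm x * nrm y := by
  rw [← inner_toL2, ← norm_toL2, ← norm_toL2]
  exact norm_inner_le_norm _ _

lemma norm_tau_mul_le (x y : M) : ‖tau (x * y)‖ ≤ nrm x * nrm y := by
  have := norm_tau_star_mul_le (star x) y
  rwa [star_star, nrm_star] at this

@[simp] lemma nrm_one : nrm (1 : M) = 1 := by
  have : nrm (1 : M) ^ 2 = 1 := by rw [nrm_sq]; simp
  nlinarith [nrm_nonneg (1 : M)]

lemma norm_tau_le (x : M) : ‖tau x‖ ≤ nrm x := by
  simpa using norm_tau_mul_le 1 x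

lemma tau_isSelfAdjoint_im {x : M} (hx : IsSelfAdjoint x) : (tau x).im = 0 := by
  have := tau_star x
  rw [hx.star_eq] at this
  exact Complex.conj_eq_iff_im.1 this.symm

section order

variable [PartialOrder M] [StarOrderedRing M]

lemma tau_re_nonneg {x : M} (hx : 0 ≤ x) : 0 ≤ (tau x).re := by
  obtain ⟨y, rfl⟩ := CStarAlgebra.nonneg_iff_eq_star_mul_self.1 hx
  exact tau_star_mul_self_re y

lemma tau_re_mono {x y : M} (h : x ≤ y) : (tau x).re ≤ (tau y).re := by
  have := tau_re_nonneg (sub_nonneg.2 h)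
  simp at this; linarith

end order

lemma nrm_mul_le_left (a x : M) : nrm (a * x) ≤ ‖a‖ * nrm x := by
  let _ := CStarAlgebra.spectralOrder M
  have := CStarAlgebra.spectralOrderedRing M
  have key : nrm (a * x) ^ 2 ≤ (‖a‖ * nrm x) ^ 2 := by
    rw [nrm_sq, mul_pow, nrm_sq]
    have h : star x * (star a * a) * x ≤ ‖star a * a‖ • (star x * x) :=
      CStarAlgebra.star_left_conjugate_le_norm_smul
    have h2 := tau_re_mono h
    rw [tau_rsmul, CStarRing.norm_star_mul_self] at h2
    have e : star (a * x) * (a * x) = star x * (star a * a) * x := by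
      rw [star_mul]; noncomm_ring
    rw [e]
    refine h2.trans (le_of_eq ?_)
    simp [sq]
  exact le_of_sq_le_sq key (mul_nonneg (norm_nonneg _) (nrm_nonneg _))

lemma nrm_mul_le_right (x a : M) : nrm (x * a) ≤ nrm x * ‖a‖ := by
  have := nrm_mul_le_left (star a) (star x)
  rwa [← star_mul, nrm_star, nrm_star, norm_star, mul_comm] at this

lemma nrm_le_norm (x : M) : nrm x ≤ ‖x‖ := by
  simpa using nrm_mul_le_left x 1

lemma nrm_mul_unitary {u : M} (hu : u ∈ unitary M) (x : M) : nrm (x * u) = nrm x := by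
  have h : nrm (x * u) ^ 2 = nrm x ^ 2 := by
    rw [nrm_sq, nrm_sq, star_mul, mul_assoc, tau_comm]
    have : star x * (x * u) * star u = star x * x * (u * star u) := by noncomm_ring
    rw [this, Unitary.mul_star_self_of_mem hu, mul_one]
  have := abs_eq_abs.2 (sq_eq_sq_iff_eq_or_eq_neg.1 h)
  rwa [abs_of_nonneg (nrm_nonneg _), abs_of_nonneg (nrm_nonneg _)] at this

lemma nrm_unitary_mul {u : M} (hu : u ∈ unitary M) (x : M) : nrm (u * x) = nrm x := by
  have := nrm_mul_unitary (Unitary.star_mem hu) (star x)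
  rwa [← star_mul, nrm_star, nrm_star] at this

/-- Convergence in 2-norm. -/
def Lim2 (u : ℕ → M) (x : M) : Prop := Tendsto (fun n => nrm (u n - x)) atTop (𝓝 0)

lemma Lim2.unique {u : ℕ → M} {x y : M} (hx : Lim2 u x) (hy : Lim2 u y) : x = y := by
  have h : Tendsto (fun n => nrm (u n - x) + nrm (u n - y)) atTop (𝓝 0) := by
    simpa using hx.add hy
  have h0 : nrm (x - y) ≤ 0 := by
    refine ge_of_tendsto' h (fun n => ?_)
    have := nrm_sub_le_add x (u n) y
    rwa [nrm_sub_comm x (u n)] at this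
  have h1 := le_antisymm h0 (nrm_nonneg _)
  exact sub_eq_zero.1 (nrm_eq_zero.1 h1)

lemma Lim2.const (x : M) : Lim2 (fun _ => x) x := by
  simp [Lim2]

lemma Lim2.of_le {u : ℕ → M} {x : M} {b : ℕ → ℝ} (hb : Tendsto b atTop (𝓝 0))
    (h : ∀ n, nrm (u n - x) ≤ b n) : Lim2 u x :=
  squeeze_zero (fun _ => nrm_nonneg _) h hb

lemma Lim2.congr {u v : ℕ → M} {x : M} (h : ∀ n, u n = v n) (hu : Lim2 u x) : Lim2 v x := by
  have : u = v := funext h
  rwa [← this]

lemma Lim2.add {u v : ℕ → M} {x y : M} (hu : Lim2 u x) (hv : Lim2 v y) :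
    Lim2 (fun n => u n + v n) (x + y) := by
  refine Lim2.of_le (b := fun n => nrm (u n - x) + nrm (v n - y)) (by simpa using Tendsto.add hu hv)
    (fun n => ?_)
  have : u n + v n - (x + y) = (u n - x) + (v n - y) := by abel
  rw [this]; exact nrm_add_le _ _

lemma Lim2.neg {u : ℕ → M} {x : M} (hu : Lim2 u x) : Lim2 (fun n => -u n) (-x) := by
  refine Lim2.of_le (b := fun n => nrm (u n - x)) hu (fun n => ?_)
  have : -u n - -x = -(u n - x) := by abel
  rw [this, nrm_neg]

lemma Lim2.sub {u v : ℕ → M} {x y : M} (hu : Lim2 u x) (hv : Lim2 v y) :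
    Lim2 (fun n => u n - v n) (x - y) := by
  simpa [sub_eq_add_neg] using hu.add hv.neg

lemma Lim2.star {u : ℕ → M} {x : M} (hu : Lim2 u x) :
    Lim2 (fun n => Star.star (u n)) (Star.star x) := by
  refine Lim2.of_le (b := fun n => nrm (u n - x)) hu (fun n => ?_)
  rw [← star_sub, nrm_star]

lemma Lim2.const_mul (a : M) {u : ℕ → M} {x : M} (hu : Lim2 u x) :
    Lim2 (fun n => a * u n) (a * x) := by
  refine Lim2.of_le (b := fun n => ‖a‖ * nrm (u n - x)) (by simpa using Tendsto.const_mul ‖a‖ hu)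
    (fun n => ?_)
  rw [← mul_sub]; exact nrm_mul_le_left _ _

lemma Lim2.mul_const (a : M) {u : ℕ → M} {x : M} (hu : Lim2 u x) :
    Lim2 (fun n => u n * a) (x * a) := by
  refine Lim2.of_le (b := fun n => nrm (u n - x) * ‖a‖) (by simpa using Tendsto.mul_const ‖a‖ hu)
    (fun n => ?_)
  rw [← sub_mul]; exact nrm_mul_le_right _ _

lemma Lim2.mul {u v : ℕ → M} {x y : M} {C : ℝ} (hC : ∀ n, ‖u n‖ ≤ C) (hu : Lim2 u x)
    (hv : Lim2 v y) : Lim2 (fun n => u n * v n) (x * y) := by
  refine Lim2.of_le (b := fun n => C * nrm (v n - y) + nrm (u n - x) * ‖y‖) ?_ (fun n => ?_)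
  · simpa using (Tendsto.const_mul C hv).add (Tendsto.mul_const ‖y‖ hu)
  · have : u n * v n - x * y = u n * (v n - y) + (u n - x) * y := by noncomm_ring
    rw [this]
    refine (nrm_add_le _ _).trans (add_le_add ?_ (nrm_mul_le_right _ _))
    exact (nrm_mul_le_left _ _).trans (mul_le_mul_of_nonneg_right (hC n) (nrm_nonneg _))

lemma Lim2.tau {u : ℕ → M} {x : M} (hu : Lim2 u x) :
    Tendsto (fun n => tau (u n)) atTop (𝓝 (tau x)) := by
  rw [tendsto_iff_norm_sub_tendsto_zero]
  refine squeeze_zero (fun _ => norm_nonneg _) (fun n => ?_) hu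
  rw [← tau_sub]; exact norm_tau_le _

lemma Lim2.nrm {u : ℕ → M} {x : M} (hu : Lim2 u x) :
    Tendsto (fun n => nrm (u n)) atTop (𝓝 (nrm x)) := by
  rw [tendsto_iff_norm_sub_tendsto_zero]
  refine squeeze_zero (fun _ => norm_nonneg _) (fun n => ?_) hu
  simp only [← norm_toL2, map_sub, Real.norm_eq_abs]
  exact abs_norm_sub_norm_le _ _

lemma Lim2.of_norm {u : ℕ → M} {x : M} (h : Tendsto (fun n => ‖u n - x‖) atTop (𝓝 0)) :
    Lim2 u x := Lim2.of_le h (fun _ => nrm_le_norm _)

/-- Bounded 2-norm Cauchy sequences converge. -/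
lemma exists_lim2 {u : ℕ → M} {C : ℝ} (hC : ∀ n, ‖u n‖ ≤ C)
    (hu : ∀ ε : ℝ, 0 < ε → ∃ K : ℕ, ∀ m ≥ K, ∀ n ≥ K, nrm (u m - u n) < ε) :
    ∃ x : M, ‖x‖ ≤ C ∧ Lim2 u x := by
  rcases le_or_gt C 0 with h | h
  · have h0 : ∀ n, u n = 0 := fun n => norm_le_zero_iff.1 ((hC n).trans h)
    have hC0 : 0 ≤ C := (norm_nonneg _).trans (hC 0)
    refine ⟨0, by simpa using hC0, ?_⟩
    have : u = fun _ => 0 := funext h0
    rw [this]; exact Lim2.const 0
  · obtain ⟨x, hx, hl⟩ := TracialVNA.complete (fun n => ((C⁻¹ : ℝ) : ℂ) • u n) (fun n => by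
        rw [norm_smul]
        simp only [Complex.norm_real, norm_inv, Real.norm_eq_abs, abs_of_pos h]
        rw [inv_mul_le_iff₀ h, mul_one]; exact hC n)
      (fun ε hε => by
        obtain ⟨K, hK⟩ := hu (C * ε) (mul_pos h hε)
        refine ⟨K, fun m hm n hn => ?_⟩
        have h1 := hK m hm n hn
        change McDuffR.nrm _ < ε
        rw [← smul_sub, nrm_smul]
        simp only [Complex.norm_real, norm_inv, Real.norm_eq_abs, abs_of_pos h]
        rw [inv_mul_lt_iff₀ h]; exact h1)
    refine ⟨(C : ℂ) • x, ?_, ?_⟩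
    · rw [norm_smul]
      simp only [Complex.norm_real, Real.norm_eq_abs, abs_of_pos h]
      exact mul_le_of_le_one_right h.le hx
    · rw [Lim2, Metric.tendsto_atTop]
      intro ε hε
      obtain ⟨K, hK⟩ := hl (ε / C) (div_pos hε h)
      refine ⟨K, fun n hn => ?_⟩
      have h1 := hK n hn
      change McDuffR.nrm _ < ε / C at h1
      have e : u n - (C : ℂ) • x = (C : ℂ) • (((C⁻¹ : ℝ) : ℂ) • u n - x) := by
        rw [smul_sub, smul_smul]
        simp [h.ne']
      rw [Real.dist_eq, sub_zero, abs_of_nonneg (nrm_nonneg _), e, nrm_smul]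
      simp only [Complex.norm_real, Real.norm_eq_abs, abs_of_pos h]
      rw [lt_div_iff₀ h] at h1
      linarith

lemma Lim2.norm_le {u : ℕ → M} {x : M} {C : ℝ} (hC : ∀ n, ‖u n‖ ≤ C) (hu : Lim2 u x) :
    ‖x‖ ≤ C := by
  obtain ⟨y, hy, hl⟩ := exists_lim2 hC (fun ε hε => by
    have h := (Metric.tendsto_atTop.1 hu) (ε / 2) (by positivity)
    obtain ⟨K, hK⟩ := h
    refine ⟨K, fun m hm n hn => ?_⟩
    have h1 := hK m hm
    have h2 := hK n hn
    rw [Real.dist_eq, sub_zero, abs_of_nonneg (nrm_nonneg _)] at h1 h2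
    have h3 := nrm_sub_le_add (u m) x (u n)
    rw [nrm_sub_comm x (u n)] at h3
    linarith)
  rwa [hu.unique hl]

end

end Pool.Agent.McDuffR
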