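import Pool.Agent.MP_af2a1c_lc.Ops

/-! Task T2a: factoriality. -/

namespace Pool.Agent.McDuffR

open Filter Topology ComplexConjugate

variable {M : Type*} [CStarAlgebra M] [TracialVNA M]

/-- Parallelogram law for the 2-norm. -/
private lemma fact_parallelogram (x y : M) :
    nrm (x + y) ^ 2 + nrm (x - y) ^ 2 = 2 * nrm x ^ 2 + 2 * nrm y ^ 2 := by
  have h := parallelogram_law_with_norm ℂ (toL2 x) (toL2 y)
  rw [← map_add, ← map_sub, norm_toL2, norm_toL2, norm_toL2, norm_toL2] at h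
  nlinarith [h]

/-- The midpoint. -/
private lemma fact_midpoint (x y : M) :
    nrm (x - y) ^ 2 = 2 * nrm x ^ 2 + 2 * nrm y ^ 2 - 4 * nrm ((1 / 2 : ℂ) • (x + y)) ^ 2 := by
  rw [nrm_smul]
  have h := fact_parallelogram x y
  have h2 : ‖(1 / 2 : ℂ)‖ = 1 / 2 := by norm_num
  rw [h2]
  linarith

/-- The unique element of minimal 2-norm of a bounded, closed and midpoint convex set. -/
private lemma fact_exists_min (K : Set M) (p : M) (hp : p ∈ K) (hb : ∀ x ∈ K, ‖x‖ ≤ 1)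
    (hconv : ∀ x ∈ K, ∀ y ∈ K, (1 / 2 : ℂ) • (x + y) ∈ K)
    (hclosed : ∀ (u : ℕ → M) (x : M), (∀ n, u n ∈ K) → Lim2 u x → x ∈ K) :
    ∃ x ∈ K, ∀ y ∈ K, nrm y ≤ nrm x → y = x := by
  have hbdd : BddBelow (nrm '' K) := ⟨0, by rintro _ ⟨x, _, rfl⟩; exact nrm_nonneg x⟩
  have hne : (nrm '' K).Nonempty := ⟨_, p, hp, rfl⟩
  set d : ℝ := sInf (nrm '' K) with hd
  have hdle : ∀ x ∈ K, d ≤ nrm x := fun x hx => csInf_le hbdd ⟨x, hx, rfl⟩
  have hd0 : 0 ≤ d := by
    refine le_csInf hne ?_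
    rintro _ ⟨x, _, rfl⟩
    exact nrm_nonneg x
  have hseq : ∀ n : ℕ, ∃ x ∈ K, nrm x < d + 1 / ((n : ℝ) + 1) := by
    intro n
    obtain ⟨_, ⟨x, hx, rfl⟩, hlt⟩ := exists_lt_of_csInf_lt hne
      (show sInf (nrm '' K) < d + 1 / ((n : ℝ) + 1) by
        rw [← hd]; exact lt_add_of_pos_right _ (by positivity))
    exact ⟨x, hx, hlt⟩
  choose u huK hulim using hseq
  have hpair : ∀ m n : ℕ, nrm (u m - u n) ^ 2 ≤
      2 * (d + 1 / ((m : ℝ) + 1)) ^ 2 + 2 * (d + 1 / ((n : ℝ) + 1)) ^ 2 - 4 * d ^ 2 := by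
    intro m n
    rw [fact_midpoint]
    have h1 : nrm (u m) ^ 2 ≤ (d + 1 / ((m : ℝ) + 1)) ^ 2 :=
      pow_le_pow_left₀ (nrm_nonneg _) (hulim m).le 2
    have h2 : nrm (u n) ^ 2 ≤ (d + 1 / ((n : ℝ) + 1)) ^ 2 :=
      pow_le_pow_left₀ (nrm_nonneg _) (hulim n).le 2
    have h3 : d ^ 2 ≤ nrm ((1 / 2 : ℂ) • (u m + u n)) ^ 2 :=
      pow_le_pow_left₀ hd0 (hdle _ (hconv _ (huK m) _ (huK n))) 2
    linarith
  have hcauchy : ∀ ε : ℝ, 0 < ε → ∃ N : ℕ, ∀ m ≥ N, ∀ n ≥ N, nrm (u m - u n) < ε := by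
    intro ε hε
    have hlim : Tendsto (fun n : ℕ => 1 / ((n : ℝ) + 1)) atTop (𝓝 0) :=
      tendsto_one_div_add_atTop_nhds_zero_nat
    have hlim2 : Tendsto (fun n : ℕ => 4 * (d + 1 / ((n : ℝ) + 1)) ^ 2 - 4 * d ^ 2) atTop
        (𝓝 0) := by
      have h1 : Tendsto (fun n : ℕ => 4 * (d + 1 / ((n : ℝ) + 1)) ^ 2 - 4 * d ^ 2) atTop
          (𝓝 (4 * (d + 0) ^ 2 - 4 * d ^ 2)) :=
        (((hlim.const_add d).pow 2).const_mul 4).sub_const _
      simpa using h1
    have hε2 : 0 < ε ^ 2 := by positivity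
    obtain ⟨N, hN⟩ := (hlim2.eventually (gt_mem_nhds hε2)).exists
    refine ⟨N, fun m hm n hn => ?_⟩
    have hm' : 1 / ((m : ℝ) + 1) ≤ 1 / ((N : ℝ) + 1) := by
      apply one_div_le_one_div_of_le (by positivity)
      have : (N : ℝ) ≤ m := by exact_mod_cast hm
      linarith
    have hn' : 1 / ((n : ℝ) + 1) ≤ 1 / ((N : ℝ) + 1) := by
      apply one_div_le_one_div_of_le (by positivity)
      have : (N : ℝ) ≤ n := by exact_mod_cast hn
      linarith
    have hm0 : 0 ≤ 1 / ((m : ℝ) + 1) := by positivity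
    have hn0 : 0 ≤ 1 / ((n : ℝ) + 1) := by positivity
    have h1 : (d + 1 / ((m : ℝ) + 1)) ^ 2 ≤ (d + 1 / ((N : ℝ) + 1)) ^ 2 :=
      pow_le_pow_left₀ (by linarith) (by linarith) 2
    have h2 : (d + 1 / ((n : ℝ) + 1)) ^ 2 ≤ (d + 1 / ((N : ℝ) + 1)) ^ 2 :=
      pow_le_pow_left₀ (by linarith) (by linarith) 2
    have h3 := hpair m n
    have h4 : nrm (u m - u n) ^ 2 < ε ^ 2 := by linarith
    exact lt_of_pow_lt_pow_left₀ 2 hε.le h4
  obtain ⟨x, hx1, hx⟩ := exists_lim2 (fun n => hb _ (huK n)) hcauchy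
  have hxK : x ∈ K := hclosed u x huK hx
  have hnx : nrm x ≤ d := by
    have hlim : Tendsto (fun n : ℕ => d + 1 / ((n : ℝ) + 1)) atTop (𝓝 (d + 0)) :=
      tendsto_one_div_add_atTop_nhds_zero_nat.const_add d
    rw [add_zero] at hlim
    exact le_of_tendsto_of_tendsto' hx.nrm hlim (fun n => (hulim n).le)
  refine ⟨x, hxK, fun y hy hyx => ?_⟩
  have h1 := fact_midpoint y x
  have h2 : d ^ 2 ≤ nrm ((1 / 2 : ℂ) • (y + x)) ^ 2 :=
    pow_le_pow_left₀ hd0 (hdle _ (hconv _ hy _ hxK)) 2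
  have h3 : nrm y ^ 2 ≤ d ^ 2 := pow_le_pow_left₀ (nrm_nonneg _) (hyx.trans hnx) 2
  have h4 : nrm x ^ 2 ≤ d ^ 2 := pow_le_pow_left₀ (nrm_nonneg _) hnx 2
  have h5 : nrm (y - x) ^ 2 ≤ 0 := by linarith
  have h6 : nrm (y - x) = 0 := by
    have := sq_nonneg (nrm (y - x))
    exact pow_eq_zero_iff (two_ne_zero) |>.mp (le_antisymm h5 this)
  exact sub_eq_zero.mp (nrm_eq_zero.mp h6)

/-- Sketch: otherwise `K = {x | ‖x‖ ≤ 1, tau x = tau p, ∀ y, q * y * x = 0}` is convex, contains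
`p`, is 2-norm complete (exists_lim2) and invariant under `x ↦ u x u*`; its unique element of
minimal 2-norm (`exists_norm_eq_iInf_of_complete_convex` in `L2 M`, parallelogram law) is fixed by
all `x ↦ u x u*`, hence commutes with all unitaries, hence is central (`CStarAlgebra.span_unitary`),
so it is the scalar `tau p`, and `q * (tau p) = 0`, a contradiction. -/
theorem exists_mul_mul_ne_zero (hM : IsII1Factor M) {p q : M} (hp : IsStarProjection p)
    (hq : IsStarProjection q) (hp0 : p ≠ 0) (hq0 : q ≠ 0) : ∃ x : M, q * x * p ≠ 0 := by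
  by_contra hcon
  push Not at hcon
  obtain ⟨x, ⟨hx1, hx2, hx3⟩, hxmin⟩ := fact_exists_min
    {x : M | ‖x‖ ≤ 1 ∧ tau x = tau p ∧ ∀ y : M, q * y * x = 0} p
    ⟨norm_proj_le hp, rfl, hcon⟩ (fun x hx => hx.1)
    (by
      rintro x ⟨hx1, hx2, hx3⟩ y ⟨hy1, hy2, hy3⟩
      refine ⟨?_, ?_, ?_⟩
      · rw [norm_smul]
        have h1 : ‖(1 / 2 : ℂ)‖ = 1 / 2 := by norm_num
        rw [h1]
        have := norm_add_le x y
        linarith
      · rw [tau_smul, tau_add, hx2, hy2]; ring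
      · intro z
        rw [mul_smul_comm, mul_add, hx3, hy3, add_zero, smul_zero])
    (by
      intro u x hu hux
      refine ⟨hux.norm_le (fun n => (hu n).1), ?_, ?_⟩
      · have h1 := hux.tau
        have h2 : (fun n => tau (u n)) = fun _ => tau p := funext fun n => (hu n).2.1
        rw [h2] at h1
        exact (tendsto_nhds_unique h1 tendsto_const_nhds)
      · intro y
        have h1 := hux.const_mul (q * y)
        have h2 : (fun n => q * y * u n) = fun _ => 0 := funext fun n => (hu n).2.2 y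
        rw [h2] at h1
        exact h1.unique (Lim2.const 0))
  have hcomu : ∀ u ∈ unitary M, u * x = x * u := by
    intro u hu
    have h1 : star u * u = 1 := Unitary.star_mul_self_of_mem hu
    have h2 : u * x * star u = x := by
      refine hxmin _ ⟨?_, ?_, ?_⟩ ?_
      · have h3 : ‖u * x * star u‖ ≤ ‖u‖ * ‖x‖ * ‖star u‖ :=
          (norm_mul_le _ _).trans (mul_le_mul_of_nonneg_right (norm_mul_le _ _) (norm_nonneg _))
        have h4 : ‖u‖ ≤ 1 := by
          have := CStarRing.norm_star_mul_self (x := u)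
          rw [h1] at this
          have h5 : ‖(1 : M)‖ ≤ 1 := norm_proj_le (IsStarProjection.one M)
          nlinarith [norm_nonneg u]
        have h5 : ‖star u‖ ≤ 1 := by rwa [norm_star]
        calc ‖u * x * star u‖ ≤ ‖u‖ * ‖x‖ * ‖star u‖ := h3
          _ ≤ 1 * 1 * 1 := by gcongr
          _ = 1 := by norm_num
      · rw [mul_assoc, tau_comm, mul_assoc, h1, mul_one, hx2]
      · intro y
        have := hx3 (y * u)
        calc q * y * (u * x * star u) = (q * (y * u) * x) * star u := by noncomm_ring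
          _ = 0 := by rw [this, zero_mul]
      · rw [nrm_mul_unitary (Unitary.star_mem hu), nrm_unitary_mul hu]
    calc u * x = u * x * (star u * u) := by rw [h1, mul_one]
      _ = (u * x * star u) * u := by noncomm_ring
      _ = x * u := by rw [h2]
  have hcom : ∀ y : M, x * y = y * x := by
    intro y
    have hy : y ∈ Submodule.span ℂ (unitary M : Set M) := by
      rw [CStarAlgebra.span_unitary]; exact Submodule.mem_top
    induction hy using Submodule.span_induction with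
    | mem u hu => exact (hcomu u hu).symm
    | zero => simp
    | add a b _ _ ha hb => rw [mul_add, add_mul, ha, hb]
    | smul c a _ ha => rw [mul_smul_comm, smul_mul_assoc, ha]
  obtain ⟨c, hc⟩ := hM.center x hcom
  have h1 : q * 1 * x = 0 := hx3 1
  rw [hc, mul_one, mul_smul_comm, mul_one] at h1
  rcases smul_eq_zero.mp h1 with h | h
  · have h2 : tau p = 0 := by
      rw [← hx2, hc, h]; simp
    rw [tau_proj hp] at h2
    have h3 : rt p = 0 := by exact_mod_cast h2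
    exact hp0 ((rt_proj_eq_zero hp).1 h3)
  · exact hq0 h

end Pool.Agent.McDuffR
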