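import Pool.Agent.MP_af2a1c_lc.Support
import Pool.Agent.MP_af2a1c_lc.Fact

/-! Task T2b: comparison of projections in a II_1 factor. -/

namespace Pool.Agent.McDuffR

open Filter Topology ComplexConjugate

/-- Greedy maximality principle (Brezis-Browder): if countable chains have upper bounds and `φ` is
monotone and bounded above, there are elements above which `φ` is constant. -/
theorem greedy_max {α : Type*} (r : α → α → Prop) (hrefl : ∀ a, r a a)
    (htrans : ∀ a b c, r a b → r b c → r a c) (φ : α → ℝ) (C : ℝ) (hC : ∀ a, φ a ≤ C)
    (hmono : ∀ a b, r a b → φ a ≤ φ b)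
    (hchain : ∀ u : ℕ → α, (∀ m n, m ≤ n → r (u m) (u n)) → ∃ b, ∀ n, r (u n) b) (a₀ : α) :
    ∃ a, r a₀ a ∧ ∀ b, r a b → φ b = φ a := by
  classical
  let s : α → ℝ := fun a => sSup {t | ∃ b, r a b ∧ φ b = t}
  have hs : ∀ a b, r a b → φ b ≤ s a := fun a b h =>
    le_csSup ⟨C, by rintro _ ⟨c, _, rfl⟩; exact hC c⟩ ⟨b, h, rfl⟩
  have hnext : ∀ a, ∃ b, r a b ∧ (φ a + s a) / 2 ≤ φ b := by
    intro a
    by_cases h : s a ≤ φ a
    · exact ⟨a, hrefl a, by linarith⟩
    · push Not at h
      obtain ⟨_, ⟨b, hb, rfl⟩, hlt⟩ := exists_lt_of_lt_csSup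
        (s := {t | ∃ b, r a b ∧ φ b = t}) ⟨φ a, a, hrefl a, rfl⟩
        (show (φ a + s a) / 2 < sSup {t | ∃ b, r a b ∧ φ b = t} by
          change (φ a + s a) / 2 < s a
          linarith)
      exact ⟨b, hb, hlt.le⟩
  choose nx hnx1 hnx2 using hnext
  let u : ℕ → α := fun n => nx^[n] a₀
  have hu : ∀ n, u (n + 1) = nx (u n) := fun n => Function.iterate_succ_apply' nx n a₀
  have hchu : ∀ m n, m ≤ n → r (u m) (u n) := by
    intro m n hmn
    induction hmn with
    | refl => exact hrefl _
    | step _ ih => exact htrans _ _ _ ih (by rw [hu]; exact hnx1 _)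
  obtain ⟨b, hb⟩ := hchain u hchu
  refine ⟨b, hb 0, fun c hc => le_antisymm ?_ (hmono _ _ hc)⟩
  -- the sequence `φ (u n)` converges
  have hmonou : Monotone (fun n => φ (u n)) := fun m n hmn => hmono _ _ (hchu m n hmn)
  have hbdd : BddAbove (Set.range fun n => φ (u n)) := ⟨C, by rintro _ ⟨n, rfl⟩; exact hC _⟩
  have hlim := tendsto_atTop_ciSup hmonou hbdd
  set L := ⨆ n, φ (u n) with hL
  have hLb : L ≤ φ b := ciSup_le fun n => hmono _ _ (hb n)
  refine le_trans ?_ hLb
  have h1 : Tendsto (fun n => 2 * φ (u (n + 1)) - φ (u n)) atTop (𝓝 (2 * L - L)) :=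
    ((hlim.comp (tendsto_add_atTop_nat 1)).const_mul 2).sub hlim
  have h2 : φ c ≤ 2 * L - L := by
    refine ge_of_tendsto' h1 (fun n => ?_)
    have h3 : φ c ≤ s (u n) := hs _ _ (htrans _ _ _ (hb n) hc)
    have h4 := hnx2 (u n)
    rw [hu]
    linarith
  linarith

variable {M : Type*} [CStarAlgebra M] [TracialVNA M]

omit [TracialVNA M] in
/-- `star x * x = 0` implies `x = 0`. -/
lemma cmp_eq_zero_of_star_mul_self {x : M} (h : star x * x = 0) : x = 0 := by
  have := CStarRing.norm_star_mul_self (x := x)
  rw [h, norm_zero] at this
  exact norm_eq_zero.1 (by nlinarith [norm_nonneg x])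

omit [TracialVNA M] in
/-- Elements with `star v * v` a projection are contractions. -/
lemma cmp_norm_le_one {v : M} (h : IsStarProjection (star v * v)) : ‖v‖ ≤ 1 := by
  have h1 := norm_proj_le h
  rw [CStarRing.norm_star_mul_self] at h1
  nlinarith [norm_nonneg v]

omit [TracialVNA M] in
/-- If `w` extends `v` then `star w * w` dominates `star v * v`. -/
lemma cmp_proj_mul_of_extends {v w : M} (hv : IsStarProjection (star v * v))
    (hw : IsStarProjection (star w * w)) (h : w * (star v * v) = v) :
    star w * w * (star v * v) = star v * v := by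
  have h1 : (1 - star w * w) * (star v * v) = 0 := by
    apply cmp_eq_zero_of_star_mul_self
    have e1 : star ((1 - star w * w) * (star v * v)) = (star v * v) * (1 - star w * w) := by
      rw [star_mul, proj_star hv, star_sub, star_one, proj_star hw]
    rw [e1]
    have hw1 : IsStarProjection (1 - star w * w) := hw.one_sub
    calc (star v * v) * (1 - star w * w) * ((1 - star w * w) * (star v * v))
        = (star v * v) * ((1 - star w * w) * (1 - star w * w)) * (star v * v) := by noncomm_ring
      _ = (star v * v) * (star v * v) - (star v * v) * star w * (w * (star v * v)) := by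
          rw [proj_sq hw1]; noncomm_ring
      _ = 0 := by
          have h2 : (star v * v) * star w = star v := by
            have := congrArg star h
            rwa [star_mul, proj_star hv] at this
          rw [h2, h, proj_sq hv, sub_self]
  have h2 : (1 - star w * w) * (star v * v) = star v * v - star w * w * (star v * v) := by
    noncomm_ring
  rw [h2] at h1
  exact (sub_eq_zero.1 h1).symm

/-- If `w` extends `v` then the squared 2-norm distance is the difference of traces. -/
lemma cmp_nrm_sub_sq_of_extends {v w : M} (hv : IsStarProjection (star v * v))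
    (hw : IsStarProjection (star w * w)) (h : w * (star v * v) = v) :
    nrm (w - v) ^ 2 = rt (star w * w) - rt (star v * v) := by
  have h1 := cmp_proj_mul_of_extends hv hw h
  have h2 : star w * v = star v * v := by
    rw [← h1]; conv_lhs => rw [← h]
    rw [mul_assoc]
  have h3 : star v * w = star v * v := by
    have := congrArg star h2
    rwa [star_mul, star_star, star_mul, star_star] at this
  rw [nrm_sq_rt]
  have e : star (w - v) * (w - v) = star w * w - star w * v - star v * w + star v * v := by
    rw [star_sub]; noncomm_ring
  rw [e, h2, h3]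
  simp

/-- Partial isometries from a subprojection of `p` to a subprojection of `q`. -/
def PIso (p q : M) : Type _ :=
  {v : M // IsStarProjection (star v * v) ∧ v * p = v ∧ q * v = v}

lemma cmp_isStarProjection_of_lim2 {u : ℕ → M} {x : M} (hu : Lim2 u x)
    (h : ∀ n, IsStarProjection (u n)) : IsStarProjection x := by
  refine ⟨?_, ?_⟩
  · have h1 : Lim2 (fun n => u n * u n) (x * x) :=
      Lim2.mul (C := 1) (fun n => norm_proj_le (h n)) hu hu
    have h2 : Lim2 u (x * x) := h1.congr fun n => proj_sq (h n)
    exact h2.unique hu
  · have h2 : Lim2 u (star x) := hu.star.congr fun n => proj_star (h n)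
    exact h2.unique hu

lemma cmp_exists_maximal_piso (p q : M) : ∃ v : M, (IsStarProjection (star v * v) ∧ v * p = v ∧
    q * v = v) ∧ ∀ w : M, (IsStarProjection (star w * w) ∧ w * p = w ∧ q * w = w) →
      w * (star v * v) = v → w = v := by
  let r : PIso p q → PIso p q → Prop := fun v w => w.1 * (star v.1 * v.1) = v.1
  have hφ : ∀ v w : PIso p q, r v w →
      nrm (w.1 - v.1) ^ 2 = rt (star w.1 * w.1) - rt (star v.1 * v.1) :=
    fun v w h => cmp_nrm_sub_sq_of_extends v.2.1 w.2.1 h
  obtain ⟨v, -, hv⟩ := greedy_max r (fun v => mul_star_mul_self_of_proj v.2.1)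
    (fun a b c hab hbc => by
      have h1 := cmp_proj_mul_of_extends a.2.1 b.2.1 hab
      change c.1 * (star a.1 * a.1) = a.1
      change c.1 * (star b.1 * b.1) = b.1 at hbc
      change b.1 * (star a.1 * a.1) = a.1 at hab
      rw [← h1, ← mul_assoc, hbc, hab])
    (fun v => rt (star v.1 * v.1)) 1 (fun v => rt_proj_le_one v.2.1)
    (fun a b hab => by
      have := hφ a b hab
      have h2 := sq_nonneg (nrm (b.1 - a.1))
      change rt (star a.1 * a.1) ≤ rt (star b.1 * b.1)
      linarith)
    (by
      intro u hu
      have hC : ∀ n, ‖(u n).1‖ ≤ 1 := fun n => cmp_norm_le_one (u n).2.1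
      have hmono : Monotone (fun n => rt (star (u n).1 * (u n).1)) := by
        intro m n hmn
        have := hφ _ _ (hu m n hmn)
        have h2 := sq_nonneg (nrm ((u n).1 - (u m).1))
        change rt (star (u m).1 * (u m).1) ≤ rt (star (u n).1 * (u n).1)
        linarith
      have hbdd : BddAbove (Set.range fun n => rt (star (u n).1 * (u n).1)) :=
        ⟨1, by rintro _ ⟨n, rfl⟩; exact rt_proj_le_one (u n).2.1⟩
      have hlim := tendsto_atTop_ciSup hmono hbdd
      have hcau := hlim.cauchySeq
      obtain ⟨x, hx1, hx⟩ := exists_lim2 hC (fun ε hε => by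
        obtain ⟨K, hK⟩ := (Metric.cauchySeq_iff.1 hcau) (ε ^ 2) (by positivity)
        refine ⟨K, fun m hm n hn => ?_⟩
        have h1 := hK m hm n hn
        rw [Real.dist_eq] at h1
        have h2 : nrm ((u m).1 - (u n).1) ^ 2
            = |rt (star (u m).1 * (u m).1) - rt (star (u n).1 * (u n).1)| := by
          rcases le_total m n with h | h
          · rw [nrm_sub_comm, hφ _ _ (hu m n h), abs_sub_comm, abs_of_nonneg]
            have := hmono h
            simp only at this
            linarith
          · rw [hφ _ _ (hu n m h), abs_of_nonneg]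
            have := hmono h
            simp only at this
            linarith
        rw [← h2] at h1
        exact lt_of_pow_lt_pow_left₀ 2 hε.le h1)
      have hss : Lim2 (fun n => star (u n).1 * (u n).1) (star x * x) :=
        Lim2.mul (C := 1) (fun n => by rw [norm_star]; exact hC n) hx.star hx
      refine ⟨⟨x, cmp_isStarProjection_of_lim2 hss fun n => (u n).2.1, ?_, ?_⟩, fun m => ?_⟩
      · exact ((hx.mul_const p).congr fun n => (u n).2.2.1).unique hx
      · exact ((hx.const_mul q).congr fun n => (u n).2.2.2).unique hx
      · change x * (star (u m).1 * (u m).1) = (u m).1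
        have h1 : Lim2 (fun n => (u (n + m)).1) x := by
          have := hx.comp (tendsto_add_atTop_nat m)
          exact this
        have h2 : Lim2 (fun n => (u (n + m)).1 * (star (u m).1 * (u m).1))
            (x * (star (u m).1 * (u m).1)) := h1.mul_const _
        have h3 : Lim2 (fun _ => (u m).1) (x * (star (u m).1 * (u m).1)) :=
          h2.congr fun n => hu m (n + m) (by omega)
        exact h3.unique (Lim2.const _))
    ⟨0, by constructor
           · simp [IsIdempotentElem]
           · simp, by simp, by simp⟩
  refine ⟨v.1, v.2, fun w hw h => ?_⟩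
  have h1 := hv ⟨w, hw⟩ h
  have h2 := hφ v ⟨w, hw⟩ h
  simp only at h1 h2
  rw [h1, sub_self] at h2
  have h3 : nrm (w - v.1) = 0 := by simpa using h2
  exact sub_eq_zero.1 (nrm_eq_zero.1 h3)

/-- Sketch: by `exists_mul_mul_ne_zero` and `exists_polar` (applied to `x = q y p`), nonzero
`p, q` have a nonzero `v` with `star v * v ≤ p`, `v * star v ≤ q`. Exhaust: at each step take such a
`w_n` under the remainders `p_n = p - ∑ star w_i * w_i`, `q_n = q - ∑ w_i * star w_i` with
`rt (star w_n * w_n) ≥ 1/2 sup`. The partial sums `v_n = ∑ w_i` are contractions (star v_n * v_n is a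
projection) and 2-norm Cauchy. In the limit one of the remainders is `0`. -/
theorem comparison (hM : IsII1Factor M) {p q : M} (hp : IsStarProjection p)
    (hq : IsStarProjection q) : Subeq p q ∨ Subeq q p := by
  obtain ⟨v, ⟨hv1, hv2, hv3⟩, hmax⟩ := cmp_exists_maximal_piso p q
  have hpv : (star v * v) * p = star v * v := by rw [mul_assoc, hv2]
  have hpv' : p * (star v * v) = star v * v := by
    have := congrArg star hpv
    rwa [star_mul, proj_star hv1, proj_star hp] at this
  have hqv : q * (v * star v) = v * star v := by rw [← mul_assoc, hv3]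
  have hv4 := proj_mul_star_of_proj hv1
  have hqv' : (v * star v) * q = v * star v := by
    have := congrArg star hqv
    rwa [star_mul, proj_star hv4, proj_star hq] at this
  have hp' : IsStarProjection (p - star v * v) := by
    refine ⟨?_, ?_⟩
    · change (p - star v * v) * (p - star v * v) = p - star v * v
      have : (p - star v * v) * (p - star v * v)
        = p * p - p * (star v * v) - (star v * v) * p + (star v * v) * (star v * v) := by
        noncomm_ring
      rw [this, proj_sq hp, hpv, hpv', proj_sq hv1]; abel
    · rw [IsSelfAdjoint, star_sub, proj_star hp, proj_star hv1]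
  have hq' : IsStarProjection (q - v * star v) := by
    refine ⟨?_, ?_⟩
    · change (q - v * star v) * (q - v * star v) = q - v * star v
      have : (q - v * star v) * (q - v * star v)
        = q * q - q * (v * star v) - (v * star v) * q + (v * star v) * (v * star v) := by
        noncomm_ring
      rw [this, proj_sq hq, hqv, hqv', proj_sq hv4]; abel
    · rw [IsSelfAdjoint, star_sub, proj_star hq, proj_star hv4]
  by_cases hp0 : p - star v * v = 0
  · left
    exact ⟨v, (sub_eq_zero.1 hp0).symm, hv3⟩
  by_cases hq0 : q - v * star v = 0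
  · right
    refine ⟨star v, ?_, ?_⟩
    · rw [star_star]; exact (sub_eq_zero.1 hq0).symm
    · have := congrArg star hv2
      rwa [star_mul, proj_star hp] at this
  exfalso
  obtain ⟨y, hy⟩ := exists_mul_mul_ne_zero hM hp' hq' hp0 hq0
  obtain ⟨w, hw1, hw2, hw3, hw4⟩ := exists_polar ((q - v * star v) * y * (p - star v * v))
  have hw0 : w ≠ 0 := by
    rintro rfl
    apply hy
    rw [← hw2]; simp
  have hwp : w * (1 - (p - star v * v)) = 0 := by
    apply hw3
    rw [mul_assoc, mul_sub, mul_one, proj_sq hp', sub_self, mul_zero]
  have hwq : (1 - (q - v * star v)) * w = 0 := by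
    apply hw4
    rw [← mul_assoc, ← mul_assoc, sub_mul, one_mul, proj_sq hq', sub_self, zero_mul, zero_mul]
  have hwp' : w * (p - star v * v) = w := by
    rw [mul_sub, mul_one, sub_eq_zero] at hwp
    exact hwp.symm
  have hwq' : (q - v * star v) * w = w := by
    rw [sub_mul, one_mul, sub_eq_zero] at hwq
    exact hwq.symm
  -- orthogonality relations
  have hve : v * (star v * v) = v := mul_star_mul_self_of_proj hv1
  have hpp : (p - star v * v) * (star v * v) = 0 := by
    rw [sub_mul, hpv', proj_sq hv1, sub_self]
  have hppv : (p - star v * v) * star v = 0 := by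
    have h1 : star v = star v * v * star v := by
      have := congrArg star hve
      rw [star_mul, proj_star hv1] at this
      exact this.symm
    calc (p - star v * v) * star v = (p - star v * v) * (star v * v * star v) := by rw [← h1]
      _ = (p - star v * v) * (star v * v) * star v := by noncomm_ring
      _ = 0 := by rw [hpp, zero_mul]
  have hqqv : (q - v * star v) * v = 0 := by
    rw [sub_mul, hv3, mul_assoc, hve, sub_self]
  have hwv : w * star v = 0 := by
    rw [← hwp', mul_assoc, hppv, mul_zero]
  have hvw : star v * w = 0 := by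
    have h1 : star v * (q - v * star v) = 0 := by
      have := congrArg star hqqv
      rwa [star_mul, proj_star hq', star_zero] at this
    rw [← hwq', ← mul_assoc, h1, zero_mul]
  have hwv' : star w * v = 0 := by
    have := congrArg star hvw
    rwa [star_mul, star_star, star_zero] at this
  have hvw' : v * star w = 0 := by
    have := congrArg star hwv
    rwa [star_mul, star_star, star_zero] at this
  have hsum : star (v + w) * (v + w) = star v * v + star w * w := by
    rw [star_add]
    have : (star v + star w) * (v + w) = star v * v + star v * w + star w * v + star w * w := by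
      noncomm_ring
    rw [this, hvw, hwv']; abel
  have key := hmax (v + w) ⟨by
      rw [hsum]
      refine ⟨?_, ?_⟩
      · change (star v * v + star w * w) * (star v * v + star w * w) = star v * v + star w * w
        have : (star v * v + star w * w) * (star v * v + star w * w)
          = (star v * v) * (star v * v) + star v * (v * star w) * w + star w * (w * star v) * v
            + (star w * w) * (star w * w) := by noncomm_ring
        rw [this, proj_sq hv1, proj_sq hw1, hvw', hwv]; noncomm_ring
      · rw [IsSelfAdjoint, star_add, proj_star hv1, proj_star hw1],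
    by
      have h1 : w * p = w := by
        conv_lhs => rw [← hwp']
        rw [mul_assoc, sub_mul, proj_sq hp, hpv, hwp']
      rw [add_mul, hv2, h1],
    by
      have h1 : q * w = w := by
        conv_lhs => rw [← hwq']
        rw [← mul_assoc, mul_sub, proj_sq hq, hqv, hwq']
      rw [mul_add, hv3, h1]⟩
    (by rw [add_mul, hve, ← mul_assoc, hwv, zero_mul, add_zero])
  exact hw0 (by simpa using key)

end Pool.Agent.McDuffR
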