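import Pool.Agent.MP_af2a1c_lc.Support

/-! Task T1b: cut by a spectral projection, integer spectral approximation. -/

namespace Pool.Agent.McDuffR

open Filter Topology ComplexConjugate

section cstar

variable {M : Type*} [CStarAlgebra M]

/-- The positive part of `h - s`. -/
noncomputable def cutP (h : M) (s : ℝ) : M := cfc (fun t : ℝ => max (t - s) 0) h

/-- The negative part of `h - s`. -/
noncomputable def cutN (h : M) (s : ℝ) : M := cfc (fun t : ℝ => max (s - t) 0) h

lemma cutP_isSelfAdjoint (h : M) (s : ℝ) : IsSelfAdjoint (cutP h s) := cfc_predicate _ _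

lemma cutN_isSelfAdjoint (h : M) (s : ℝ) : IsSelfAdjoint (cutN h s) := cfc_predicate _ _

lemma cutP_sub_cutN {h : M} (hh : IsSelfAdjoint h) (s : ℝ) :
    cutP h s - cutN h s = h - (s : ℂ) • (1 : M) := by
  unfold cutP cutN
  rw [← cfc_sub (fun t : ℝ => max (t - s) 0) (fun t : ℝ => max (s - t) 0) h]
  have e : (fun t : ℝ => max (t - s) 0 - max (s - t) 0) = fun t => t - s := by
    funext t
    rcases le_total t s with h1 | h1
    · rw [max_eq_right (by linarith), max_eq_left (by linarith)]; ring
    · rw [max_eq_left (by linarith), max_eq_right (by linarith)]; ring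
  rw [e, cfc_sub (fun t : ℝ => t) (fun _ => s) h, cfc_id' ℝ h, cfc_const s h,
    Algebra.algebraMap_eq_smul_one, Complex.coe_smul]

lemma cutP_mul_cutN (h : M) (s : ℝ) : cutP h s * cutN h s = 0 := by
  unfold cutP cutN
  rw [← cfc_mul (fun t : ℝ => max (t - s) 0) (fun t : ℝ => max (s - t) 0) h]
  have e : (fun t : ℝ => max (t - s) 0 * max (s - t) 0) = fun _ => 0 := by
    funext t
    rcases le_total t s with h1 | h1
    · rw [max_eq_right (by linarith : t - s ≤ 0)]; ring
    · rw [max_eq_right (by linarith : s - t ≤ 0)]; ring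
  rw [e, cfc_const_zero]

lemma cutP_factor (h : M) {s t : ℝ} (hst : s < t) : ∃ m : M, cutP h t = m * cutP h s := by
  refine ⟨cfc (fun r : ℝ => max (r - t) 0 / max (r - s) (t - s)) h, ?_⟩
  unfold cutP
  have hc : Continuous (fun r : ℝ => max (r - t) 0 / max (r - s) (t - s)) := by
    refine Continuous.div (by fun_prop) (by fun_prop) (fun r => ?_)
    have : 0 < max (r - s) (t - s) := lt_of_lt_of_le (by linarith) (le_max_right _ _)
    exact this.ne'
  rw [← cfc_mul _ (fun r : ℝ => max (r - s) 0) h hc.continuousOn (by fun_prop)]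
  congr 1
  funext r
  rcases le_total r t with h1 | h1
  · rw [max_eq_right (by linarith : r - t ≤ 0)]; ring
  · rw [max_eq_left (by linarith : 0 ≤ r - t), max_eq_left (by linarith : t - s ≤ r - s),
      max_eq_left (by linarith : 0 ≤ r - s)]
    have : r - s ≠ 0 := by
      have : 0 < r - s := by linarith
      exact this.ne'
    field_simp

lemma cutP_commute {h : M} (s : ℝ) : Commute h (cutP h s) := by
  unfold cutP
  by_cases hh : IsSelfAdjoint h
  · exact (cfc_commute_cfc (fun t : ℝ => t) (fun t : ℝ => max (t - s) 0) h) |> fun H => by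
      rwa [cfc_id' ℝ h] at H
  · rw [cfc_apply_of_not_predicate h hh]; exact Commute.zero_right h

end cstar

variable {M : Type*} [CStarAlgebra M] [TracialVNA M]

lemma nontrivial_of_tr : Nontrivial M := by
  refine ⟨⟨0, 1, fun h => ?_⟩⟩
  have h1 : rt (0 : M) = rt (1 : M) := by rw [h]
  simp at h1

lemma rt_cfc_nonneg (h : M) (f : ℝ → ℝ) (hf : ∀ x ∈ spectrum ℝ h, 0 ≤ f x) : 0 ≤ rt (cfc f h) := by
  let _ := CStarAlgebra.spectralOrder M
  have := CStarAlgebra.spectralOrderedRing M
  exact tau_re_nonneg (cfc_nonneg hf)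

/-- Cut of a positive contraction `b = star c * c` at `1/2`: `e` is the support of
`(b - 1/2)⁺`. Pointwise `(1_{t>1/2} - t)^2 ≤ t - t^2` on `[0,1]`. -/
theorem exists_cut {b : M} (hb : ∃ c : M, b = star c * c) (h1 : ‖b‖ ≤ 1) :
    ∃ e : M, IsStarProjection e ∧ nrm (e - b) ^ 2 ≤ rt (b - b * b) ∧
      (∀ z, b * z = 0 → e * z = 0) ∧ (∀ z, b * (e * z) = 0 → e * z = 0) := by
  let _ := CStarAlgebra.spectralOrder M
  have := CStarAlgebra.spectralOrderedRing M
  have := nontrivial_of_tr (M := M)
  have hb0 : 0 ≤ b := by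
    obtain ⟨c, rfl⟩ := hb
    exact star_mul_self_nonneg c
  have hsa : IsSelfAdjoint b := .of_nonneg hb0
  have hspec : ∀ t ∈ spectrum ℝ b, 0 ≤ t ∧ t ≤ 1 := by
    intro t ht
    refine ⟨spectrum_nonneg_of_nonneg hb0 ht, ?_⟩
    have h2 : ‖t‖ ≤ ‖b‖ := by
      have := spectrum.norm_le_norm_of_mem ht
      simpa using this
    exact (le_abs_self t).trans (h2.trans h1)
  set x := cutP b (1 / 2) with hx
  set y := cutN b (1 / 2) with hy
  obtain ⟨e, he, hxe, hz, -⟩ := exists_support x
  have hxs : star x = x := cutP_isSelfAdjoint b _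
  have hys : star y = y := cutN_isSelfAdjoint b _
  have hes : star e = e := proj_star he
  have hxy : x * y = 0 := cutP_mul_cutN b _
  have hey : e * y = 0 := hz y hxy
  have hye : y * e = 0 := by
    have := congrArg star hey
    rwa [star_mul, hes, hys, star_zero] at this
  have hd : x - y = b - ((1 / 2 : ℝ) : ℂ) • (1 : M) := cutP_sub_cutN hsa _
  have hk : ∀ z, b * z = 0 → e * z = 0 := by
    intro z hbz
    obtain ⟨m, hm⟩ := cutP_factor b (s := 0) (t := 1 / 2) (by norm_num)
    have hb' : cutP b 0 = b := by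
      unfold cutP
      have : cfc (fun t : ℝ => max (t - 0) 0) b = cfc (fun t : ℝ => t) b := by
        refine cfc_congr (fun t ht => ?_)
        simp only [sub_zero]
        exact max_eq_left (hspec t ht).1
      rw [this, cfc_id' ℝ b]
    rw [hb'] at hm
    refine hz z ?_
    rw [hx, hm, mul_assoc, hbz, mul_zero]
  refine ⟨e, he, ?_, hk, ?_⟩
  · rw [nrm_sq_rt, star_sub, hes, hsa.star_eq]
    have e1 : (e - b) * (e - b) = e - e * b - b * e + b * b := by
      calc (e - b) * (e - b) = e * e - e * b - b * e + b * b := by noncomm_ring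
        _ = _ := by rw [proj_sq he]
    rw [e1]
    have key : 0 ≤ rt ((x - y) * (e - b)) := by
      have e2 : (x - y) * (e - b) = cfc (fun t : ℝ => max (t - 1 / 2) 0 * (1 - t)
          + max (1 / 2 - t) 0 * t) b := by
        rw [cfc_add b (fun t : ℝ => max (t - 1 / 2) 0 * (1 - t)) (fun t : ℝ => max (1 / 2 - t) 0 * t),
          cfc_mul (fun t : ℝ => max (t - 1 / 2) 0) (fun t : ℝ => 1 - t) b,
          cfc_mul (fun t : ℝ => max (1 / 2 - t) 0) (fun t : ℝ => t) b,
          cfc_sub (fun _ : ℝ => 1) (fun t : ℝ => t) b, cfc_id' ℝ b, cfc_const_one ℝ b]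
        change (x - y) * (e - b) = x * (1 - b) + y * b
        calc (x - y) * (e - b) = x * e - y * e - x * b + y * b := by noncomm_ring
          _ = _ := by rw [hxe, hye]; noncomm_ring
      rw [e2]
      refine rt_cfc_nonneg _ _ (fun t ht => ?_)
      obtain ⟨h3, h4⟩ := hspec t ht
      exact add_nonneg (mul_nonneg (le_max_right _ _) (by linarith))
        (mul_nonneg (le_max_right _ _) h3)
    rw [hd] at key
    have e3 : (b - ((1 / 2 : ℝ) : ℂ) • (1 : M)) * (e - b)
        = b * e - b * b - ((1 / 2 : ℝ) : ℂ) • (e - b) := by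
      rw [sub_mul, smul_mul_assoc, one_mul, mul_sub]
    rw [e3] at key
    simp only [rt_sub, rt_csmul] at key
    simp only [rt_sub, rt_add]
    rw [rt_comm e b]
    linarith
  · intro z hbz
    have := hk (e * z) hbz
    rwa [← mul_assoc, proj_sq he] at this

/-- Integer spectral approximation of a self-adjoint element: `e_k` = support of `(h - k)⁺` for
integers `k`, `p_k = e_k - e_(k+1)`. -/
theorem exists_int_spectral {h : M} (hh : IsSelfAdjoint h) :
    ∃ (n : ℕ) (p : Fin n → M) (k : Fin n → ℤ), (∀ i, IsStarProjection (p i)) ∧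
      (∀ i j, i ≠ j → p i * p j = 0) ∧ ∑ i, p i = 1 ∧
      ‖h - ∑ i, ((k i : ℂ)) • p i‖ ≤ 1 := by
  let _ := CStarAlgebra.spectralOrder M
  have := CStarAlgebra.spectralOrderedRing M
  have := nontrivial_of_tr (M := M)
  obtain ⟨N, hN⟩ := exists_nat_ge ‖h‖
  have hspec : ∀ t ∈ spectrum ℝ h, |t| ≤ N := by
    intro t ht
    have h2 : ‖t‖ ≤ ‖h‖ := by
      have := spectrum.norm_le_norm_of_mem ht
      simpa using this
    exact h2.trans hN
  choose E hE hxE hz hc using fun s : ℝ => exists_support (cutP h s)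
  have hEs : ∀ s, star (E s) = E s := fun s => proj_star (hE s)
  have hEE : ∀ s, E s * E s = E s := fun s => proj_sq (hE s)
  have hcomm : ∀ s, h * E s = E s * h := fun s =>
    hc s h (cutP_commute s) (by rw [(cutP_isSelfAdjoint h s).star_eq]; exact cutP_commute s)
  -- monotonicity
  have hmono : ∀ s t, s < t → E t * E s = E t := by
    intro s t hst
    obtain ⟨m, hm⟩ := cutP_factor h hst
    have h1 : cutP h t * (1 - E s) = 0 := by
      rw [hm, mul_assoc, mul_sub, mul_one, hxE, sub_self, mul_zero]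
    have h2 := hz t _ h1
    rw [mul_sub, mul_one, sub_eq_zero] at h2
    exact h2.symm
  have hmono' : ∀ s t, s < t → E s * E t = E t := by
    intro s t hst
    have := congrArg star (hmono s t hst)
    rwa [star_mul, hEs, hEs] at this
  -- ends
  have hlow : ∀ s : ℝ, s < -N → E s = 1 := by
    intro s hs
    have hu : ∃ m : M, m * cutP h s = 1 := by
      refine ⟨cfc (fun t : ℝ => (max (t - s) (-N - s))⁻¹) h, ?_⟩
      unfold cutP
      have hc : Continuous (fun t : ℝ => (max (t - s) (-N - s))⁻¹) := by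
        refine Continuous.inv₀ (by fun_prop) (fun r => ?_)
        have : 0 < max (r - s) (-N - s) := lt_of_lt_of_le (by linarith) (le_max_right _ _)
        exact this.ne'
      rw [← cfc_mul _ (fun r : ℝ => max (r - s) 0) h hc.continuousOn (by fun_prop)]
      rw [← cfc_const_one ℝ h]
      refine cfc_congr (fun t ht => ?_)
      have h3 := abs_le.1 (hspec t ht)
      rw [max_eq_left (by linarith : (-N : ℝ) - s ≤ t - s), max_eq_left (by linarith : 0 ≤ t - s)]
      exact inv_mul_cancel₀ (by
        have : 0 < t - s := by linarith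
        exact this.ne')
    obtain ⟨m, hm⟩ := hu
    have h1 : m * cutP h s * E s = E s := by rw [hm, one_mul]
    rw [mul_assoc, hxE, hm] at h1
    exact h1.symm
  have hhigh : ∀ s : ℝ, (N : ℝ) ≤ s → E s = 0 := by
    intro s hs
    have h0 : cutP h s = 0 := by
      unfold cutP
      rw [← cfc_const_zero ℝ h]
      refine cfc_congr (fun t ht => ?_)
      have h3 := abs_le.1 (hspec t ht)
      exact max_eq_right (by linarith)
    have := hz s 1 (by rw [h0, zero_mul])
    rwa [mul_one] at this
  -- the partition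
  set n := 2 * N + 1 with hn
  set K : ℕ → ℝ := fun i => (i : ℝ) - N - 1 with hK
  have hKlt : ∀ i j, i < j → K i < K j := by
    intro i j hij
    simp only [hK]
    have : (i : ℝ) < j := by exact_mod_cast hij
    linarith
  obtain ⟨P, hP⟩ : ∃ P : ℕ → M, ∀ i, P i = E (K i) - E (K (i + 1)) := ⟨_, fun _ => rfl⟩
  have hEP : ∀ i, E (K i) * P i = P i := by
    intro i
    rw [hP, mul_sub, hEE, hmono' _ _ (hKlt i (i + 1) (Nat.lt_succ_self i))]
  have hEP0 : ∀ i, E (K (i + 1)) * P i = 0 := by
    intro i
    rw [hP, mul_sub, hEE, hmono _ _ (hKlt i (i + 1) (Nat.lt_succ_self i)), sub_self]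
  have hPP : ∀ i, IsStarProjection (P i) := by
    intro i
    refine ⟨?_, ?_⟩
    · change P i * P i = P i
      have : P i * P i = E (K i) * P i - E (K (i + 1)) * P i := by
        rw [← sub_mul, ← hP]
      rw [this, hEP, hEP0, sub_zero]
    · rw [IsSelfAdjoint, hP, star_sub, hEs, hEs]
  have horth : ∀ i j, i < j → P i * P j = 0 := by
    intro i j hij
    have h1 : E (K i) * P j = P j := by
      rw [hP, mul_sub, hmono' _ _ (hKlt i j hij), hmono' _ _ (hKlt i (j + 1) (by omega))]
    have h2 : E (K (i + 1)) * P j = P j := by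
      rcases Nat.lt_or_ge (i + 1) j with h | h
      · rw [hP, mul_sub, hmono' _ _ (hKlt (i + 1) j h),
          hmono' _ _ (hKlt (i + 1) (j + 1) (by omega))]
      · have : j = i + 1 := by omega
        rw [← this]; exact hEP j
    have : P i * P j = E (K i) * P j - E (K (i + 1)) * P j := by
      rw [← sub_mul, ← hP]
    rw [this, h1, h2, sub_self]
  have horth' : ∀ i j, i ≠ j → P i * P j = 0 := by
    intro i j hij
    rcases lt_or_gt_of_ne hij with h | h
    · exact horth i j h
    · have := congrArg star (horth j i h)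
      rwa [star_mul, proj_star (hPP i), proj_star (hPP j), star_zero] at this
  have hsum : ∑ i ∈ Finset.range n, P i = 1 := by
    have : ∑ i ∈ Finset.range n, P i = E (K 0) - E (K n) := by
      rw [Finset.sum_congr rfl (fun i _ => hP i)]
      exact Finset.sum_range_sub' (fun i => E (K i)) n
    rw [this, hlow (K 0) (by simp [hK]), hhigh (K n) (by
      simp only [hK, hn]; push_cast; linarith), sub_zero]
  have hcP : ∀ i, h * P i = P i * h := by
    intro i
    rw [hP, mul_sub, sub_mul, hcomm, hcomm]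
  -- blocks
  have hblock1 : ∀ i, 0 ≤ P i * (h - ((K i : ℝ) : ℂ) • 1) * P i := by
    intro i
    have h1 : P i * (h - ((K i : ℝ) : ℂ) • 1) * P i = P i * cutP h (K i) * P i := by
      have h2 : cutN h (K i) * P i = 0 := by
        have h3 : E (K i) * cutN h (K i) = 0 := hz _ _ (cutP_mul_cutN h _)
        have h4 : cutN h (K i) * E (K i) = 0 := by
          have := congrArg star h3
          rwa [star_mul, hEs, (cutN_isSelfAdjoint h _).star_eq, star_zero] at this
        rw [← hEP i, ← mul_assoc, h4, zero_mul]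
      rw [← cutP_sub_cutN hh, mul_sub, sub_mul, mul_assoc (P i) (cutN h (K i)), h2, mul_zero,
        sub_zero]
    rw [h1]
    have h5 : 0 ≤ cutP h (K i) := cfc_nonneg (fun t _ => le_max_right _ _)
    have := star_left_conjugate_nonneg h5 (P i)
    rwa [proj_star (hPP i)] at this
  have hblock2 : ∀ i, P i * (h - ((K i : ℝ) : ℂ) • 1) * P i ≤ P i := by
    intro i
    have h1 : P i * (h - ((K (i + 1) : ℝ) : ℂ) • 1) * P i = -(P i * cutN h (K (i + 1)) * P i) := by
      have h2 : cutP h (K (i + 1)) * P i = 0 := by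
        rw [← hxE, mul_assoc, hEP0, mul_zero]
      rw [← cutP_sub_cutN hh, mul_sub, sub_mul, mul_assoc (P i) (cutP h (K (i + 1))), h2, mul_zero,
        zero_sub]
    have h3 : P i * (h - ((K i : ℝ) : ℂ) • 1) * P i
        = P i * (h - ((K (i + 1) : ℝ) : ℂ) • 1) * P i + P i := by
      have hKK : ((K (i + 1) : ℝ) : ℂ) = ((K i : ℝ) : ℂ) + 1 := by
        simp only [hK]; push_cast; ring
      rw [hKK, add_smul, one_smul]
      calc P i * (h - ((K i : ℝ) : ℂ) • 1) * P i
          = P i * (h - (((K i : ℝ) : ℂ) • 1 + 1)) * P i + P i * P i := by noncomm_ring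
        _ = _ := by rw [proj_sq (hPP i)]
    have h5 : 0 ≤ cutN h (K (i + 1)) := cfc_nonneg (fun t _ => le_max_right _ _)
    have h6 := star_left_conjugate_nonneg h5 (P i)
    rw [proj_star (hPP i)] at h6
    rw [h3, h1]
    have : P i - (-(P i * cutN h (K (i + 1)) * P i) + P i) = P i * cutN h (K (i + 1)) * P i := by
      abel
    rw [← sub_nonneg, this]
    exact h6
  have hT : h - ∑ i ∈ Finset.range n, ((K i : ℝ) : ℂ) • P i
      = ∑ i ∈ Finset.range n, P i * (h - ((K i : ℝ) : ℂ) • 1) * P i := by
    have h1 : h = ∑ i ∈ Finset.range n, P i * h * P i := by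
      calc h = h * ∑ i ∈ Finset.range n, P i := by rw [hsum, mul_one]
        _ = ∑ i ∈ Finset.range n, P i * h * P i := by
          rw [Finset.mul_sum]
          refine Finset.sum_congr rfl (fun i _ => ?_)
          rw [← hcP i, mul_assoc, proj_sq (hPP i)]
    conv_lhs => rw [h1]
    rw [← Finset.sum_sub_distrib]
    refine Finset.sum_congr rfl (fun i _ => ?_)
    rw [mul_sub, sub_mul, mul_smul_comm, mul_one, smul_mul_assoc, proj_sq (hPP i)]
  refine ⟨n, fun i => P i, fun i => (i : ℤ) - N - 1, fun i => hPP i, ?_, ?_, ?_⟩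
  · intro i j hij
    exact horth' i j (fun h => hij (Fin.ext h))
  · rw [← hsum, Finset.sum_range]
  · have e1 : ∑ i : Fin n, ((((i : ℕ) : ℤ) - N - 1 : ℤ) : ℂ) • P i
        = ∑ i ∈ Finset.range n, ((K i : ℝ) : ℂ) • P i := by
      rw [Finset.sum_range]
      refine Finset.sum_congr rfl (fun i _ => ?_)
      congr 1
      simp only [hK]; push_cast; ring
    rw [e1, hT]
    have h0 : 0 ≤ ∑ i ∈ Finset.range n, P i * (h - ((K i : ℝ) : ℂ) • 1) * P i :=
      Finset.sum_nonneg (fun i _ => hblock1 i)
    rw [CStarAlgebra.norm_le_one_iff_of_nonneg _ h0]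
    calc ∑ i ∈ Finset.range n, P i * (h - ((K i : ℝ) : ℂ) • 1) * P i
        ≤ ∑ i ∈ Finset.range n, P i := Finset.sum_le_sum (fun i _ => hblock2 i)
      _ = 1 := hsum

end Pool.Agent.McDuffR
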