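import Pool.Agent.MP_af2a1c_lc.NearTrace

/-! Task T5a: cutting down almost central projections. -/

namespace Pool.Agent.McDuffR

open Filter Topology ComplexConjugate

variable {M : Type*} [CStarAlgebra M] [TracialVNA M]

/-- The support of the cut of `q e' q` has trace at most the trace of `e'`. -/
lemma rt_cut_le {q e' e : M} (he' : IsStarProjection e')
    (he : IsStarProjection e) (hqe : q * e = e)
    (h : ∀ z, q * e' * q * (e * z) = 0 → e * z = 0) : rt e ≤ rt e' := by
  obtain ⟨v, hv, hx, hr, hl⟩ := exists_polar (e' * e)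
  set f := star v * v with hf
  have h1 : e' * v = v := by
    have := hl (1 - e') (by
      calc (1 - e') * (e' * e) = (e' - e' * e') * e := by noncomm_ring
        _ = 0 := by rw [proj_sq he', sub_self, zero_mul])
    rw [sub_mul, one_mul, sub_eq_zero] at this
    exact this.symm
  have h2 : v * e = v := by
    have := hr (1 - e) (by
      calc e' * e * (1 - e) = e' * (e - e * e) := by noncomm_ring
        _ = 0 := by rw [proj_sq he, sub_self, mul_zero])
    rw [mul_sub, mul_one, sub_eq_zero] at this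
    exact this.symm
  have h3 : f * e = f := by rw [hf, mul_assoc, h2]
  have h4 : e * f = f := by
    have := congrArg star h3
    rwa [star_mul, proj_star hv, proj_star he] at this
  have h5 : e * (1 - f) = 0 := by
    apply h
    have : e' * e * (1 - f) = 0 := by rw [mul_sub, mul_one, hx, sub_self]
    calc q * e' * q * (e * (1 - f)) = q * (e' * (q * e) * (1 - f)) := by noncomm_ring
      _ = q * (e' * e * (1 - f)) := by rw [hqe]
      _ = 0 := by rw [this, mul_zero]
  have h6 : f = e := by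
    rw [mul_sub, mul_one, h4] at h5
    exact (sub_eq_zero.1 h5).symm
  have : Subeq e e' := ⟨v, by rw [← hf, h6], h1⟩
  exact this.rt_le he he'

/-- A quantitative version of the cutting down step for one projection `e'`. -/
lemma cut_down_aux {p e' : M} (hp : IsStarProjection p) (he' : IsStarProjection e')
    {δ η : ℝ} (hδ : 0 ≤ δ)
    (hcom : nrm (com (1 - (2 : ℂ) • p) e') ≤ δ * nrm e')
    (htr : ‖tau ((1 - p) * e') - tau (1 - p) * tau e'‖ ≤ η * rt e') :
    ∃ e : M, IsStarProjection e ∧ p * e = 0 ∧ rt e ≤ rt e' ∧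
      nrm (e - e' * (1 - p)) ≤ δ * nrm e' ∧
      (1 - rt p - η) * nrm e' ^ 2 ≤ nrm (e' * (1 - p)) ^ 2 := by
  set q := 1 - p with hqdef
  have hq : IsStarProjection q := hp.one_sub
  have hqp : q * p = 0 := by rw [hqdef, sub_mul, one_mul, proj_sq hp, sub_self]
  have hpq : p * q = 0 := by rw [hqdef, mul_sub, mul_one, proj_sq hp, sub_self]
  -- the commutator of `q` and `e'`
  have hc : nrm (com q e') ≤ δ / 2 * nrm e' := by
    have : com (1 - (2 : ℂ) • p) e' = (2 : ℂ) • com q e' := by
      rw [hqdef, sub_com, sub_com, one_com, smul_com, zero_sub, zero_sub, smul_neg]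
    rw [this, nrm_smul] at hcom
    have h2 : ‖(2 : ℂ)‖ = 2 := by simp
    rw [h2] at hcom
    linarith
  obtain ⟨e, he, hcut, hsup, hinj⟩ := exists_cut (b := q * e' * q)
    ⟨e' * q, by rw [star_mul, proj_star he', proj_star hq]
                calc q * e' * q = q * (e' * e') * q := by rw [proj_sq he']
                  _ = _ := by noncomm_ring⟩
    (by
      have h1 := norm_proj_le hq
      have h2 := norm_proj_le he'
      calc ‖q * e' * q‖ ≤ ‖q‖ * ‖e'‖ * ‖q‖ :=
            (norm_mul_le _ _).trans (mul_le_mul_of_nonneg_right (norm_mul_le _ _) (norm_nonneg _))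
        _ ≤ 1 * 1 * 1 := by gcongr
        _ = 1 := by norm_num)
  have hep : e * p = 0 := hsup p (by rw [mul_assoc, hqp, mul_zero])
  have hpe : p * e = 0 := by
    have := congrArg star hep
    rwa [star_mul, proj_star hp, proj_star he, star_zero] at this
  have hqe : q * e = e := by rw [hqdef, sub_mul, one_mul, hpe, sub_zero]
  -- the off diagonal corner
  have hcorner : nrm (p * e' * q) ≤ δ / 2 * nrm e' := by
    have : p * e' * q = -(p * com q e') := by
      unfold com
      calc p * e' * q = -(p * q * e' - p * e' * q) := by rw [hpq]; noncomm_ring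
        _ = _ := by noncomm_ring
    rw [this, nrm_neg]
    calc nrm (p * com q e') ≤ ‖p‖ * nrm (com q e') := nrm_mul_le_left _ _
      _ ≤ 1 * nrm (com q e') := mul_le_mul_of_nonneg_right (norm_proj_le hp) (nrm_nonneg _)
      _ ≤ _ := by rw [one_mul]; exact hc
  have hb : rt (q * e' * q - q * e' * q * (q * e' * q)) = nrm (p * e' * q) ^ 2 := by
    rw [nrm_sq_rt, star_mul, star_mul, proj_star hp, proj_star he', proj_star hq]
    congr 1
    have e1 : q * (e' * p) * (p * e' * q) = q * e' * (p * p) * e' * q := by noncomm_ring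
    have e2 : q * e' * q * (q * e' * q) = q * e' * (q * q) * e' * q := by noncomm_ring
    rw [e1, e2, proj_sq hp, proj_sq hq]
    calc q * e' * q - q * e' * q * e' * q = q * (e' * e') * q - q * e' * q * e' * q := by
          rw [proj_sq he']
      _ = q * e' * (1 - q) * e' * q := by noncomm_ring
      _ = _ := by rw [hqdef]; simp
  have hδs : 0 ≤ δ / 2 * nrm e' := mul_nonneg (by linarith) (nrm_nonneg _)
  have heb : nrm (e - q * e' * q) ≤ δ / 2 * nrm e' := by
    rw [hb] at hcut
    have h1 : nrm (e - q * e' * q) ≤ nrm (p * e' * q) :=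
      le_of_sq_le_sq hcut (nrm_nonneg _)
    exact h1.trans hcorner
  refine ⟨e, he, hpe, rt_cut_le he' he hqe hinj, ?_, ?_⟩
  · have : e - e' * q = (e - q * e' * q) + -(p * e' * q) := by
      have : q * e' * q = e' * q - p * e' * q := by rw [hqdef]; noncomm_ring
      rw [this]; noncomm_ring
    rw [this]
    refine (nrm_add_le _ _).trans ?_
    rw [nrm_neg]
    linarith
  · have h1 : nrm (e' * q) ^ 2 = rt (q * e') := by
      rw [nrm_sq_rt, star_mul, proj_star he', proj_star hq]
      calc rt (q * e' * (e' * q)) = rt (q * (e' * e') * q) := by congr 1; noncomm_ring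
        _ = rt (q * e' * q) := by rw [proj_sq he']
        _ = rt (q * (q * e')) := by rw [rt_comm]
        _ = rt (q * e') := by rw [← mul_assoc, proj_sq hq]
    have h2 : (tau (q * e') - tau q * tau e').re = rt (q * e') - rt q * rt e' := by
      rw [tau_proj hq, tau_proj he']
      simp [rt]
    have h3 := (abs_le.1 ((Complex.abs_re_le_norm _).trans htr)).1
    rw [h2] at h3
    have h4 : rt q = 1 - rt p := by rw [hqdef]; simp
    rw [h1, nrm_proj_sq he']
    rw [h4] at h3
    linarith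

/-- The commutators of the cut. -/
lemma cut_down_com {u p e' e : M} (hu : u ∈ unitary M) (hp : IsStarProjection p)
    (he' : IsStarProjection e') {δ η : ℝ} (hη : 0 ≤ η)
    (he : nrm (e - e' * (1 - p)) ≤ δ * nrm e')
    (hcom : nrm (com u e') ≤ δ * nrm e')
    (htr : ‖tau (com u (1 - p) * star (com u (1 - p)) * e') -
      tau (com u (1 - p) * star (com u (1 - p))) * tau e'‖ ≤ η * rt e') :
    nrm (com u e) ≤ (3 * δ + √(nrm (com u p) ^ 2 + η)) * nrm e' := by
  set q := 1 - p with hqdef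
  have hq : IsStarProjection q := hp.one_sub
  have hun : ‖u‖ ≤ 1 := by
    have h : ‖u‖ * ‖u‖ = ‖(1 : M)‖ := by
      rw [← CStarRing.norm_star_mul_self, Unitary.star_mul_self_of_mem hu]
    have h1 : ‖(1 : M)‖ ≤ 1 := norm_proj_le (IsStarProjection.one M)
    nlinarith [norm_nonneg u]
  have hcq : nrm (com u q) = nrm (com u p) := by
    rw [hqdef, com_sub, com_one, zero_sub, nrm_neg]
  have hx : nrm (e' * com u q) ≤ √(nrm (com u p) ^ 2 + η) * nrm e' := by
    have h1 : nrm (e' * com u q) ^ 2 = rt (com u q * star (com u q) * e') := by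
      rw [nrm_sq_rt, star_mul, proj_star he']
      calc rt (star (com u q) * e' * (e' * com u q))
          = rt (star (com u q) * (e' * e' * com u q)) := by congr 1; noncomm_ring
        _ = rt (star (com u q) * (e' * com u q)) := by rw [proj_sq he']
        _ = rt (e' * (com u q * star (com u q))) := by rw [rt_comm, mul_assoc]
        _ = _ := by rw [rt_comm]
    have h2 : rt (com u q * star (com u q)) = nrm (com u p) ^ 2 := by
      rw [rt_comm, ← nrm_sq_rt, hcq]
    have h3 : (tau (com u q * star (com u q) * e') -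
        tau (com u q * star (com u q)) * tau e').re =
        rt (com u q * star (com u q) * e') - rt (com u q * star (com u q)) * rt e' := by
      rw [tau_proj he']
      simp [rt]
    have h4 := (abs_le.1 ((Complex.abs_re_le_norm _).trans htr)).2
    rw [h3, h2, ← h1] at h4
    have h5 : nrm (e' * com u q) ^ 2 ≤ (√(nrm (com u p) ^ 2 + η) * nrm e') ^ 2 := by
      rw [mul_pow, Real.sq_sqrt (by positivity), nrm_proj_sq he']
      linarith
    exact le_of_sq_le_sq h5 (mul_nonneg (Real.sqrt_nonneg _) (nrm_nonneg _))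
  have hdec : com u e = com u (e - e' * q) + (com u e' * q + e' * com u q) := by
    rw [← com_mul, ← com_add, sub_add_cancel]
  rw [hdec]
  have a1 : nrm (com u (e - e' * q)) ≤ 2 * (δ * nrm e') := by
    refine (nrm_com_le _ _).trans ?_
    have : ‖u‖ * nrm (e - e' * q) ≤ 1 * (δ * nrm e') :=
      mul_le_mul hun he (nrm_nonneg _) zero_le_one
    linarith
  have a2 : nrm (com u e' * q) ≤ δ * nrm e' := by
    refine (nrm_mul_le_right _ _).trans ?_
    calc nrm (com u e') * ‖q‖ ≤ nrm (com u e') * 1 :=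
          mul_le_mul_of_nonneg_left (norm_proj_le hq) (nrm_nonneg _)
      _ ≤ _ := by rw [mul_one]; exact hcom
  have a3 := nrm_add_le (com u (e - e' * q)) (com u e' * q + e' * com u q)
  have a4 := nrm_add_le (com u e' * q) (e' * com u q)
  nlinarith

/-- Cutting down. Sketch: `q = 1 - p`, `rt p < 1/2 < rt q`. Take `e'` from `H` for a large finite set
`F' ⊇ F ∪ {unitaries spanning p}` and all unitaries needed for `nearTr` of `q` and of
`[u,q][u,q]*` (`u ∈ F`), with tiny `δ`. Let `b = q e' q`, `e = cut` of `b` (`exists_cut`). Then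
`e ≤ q`, `nrm (e - e' q) ≤ 2 sqrt(δ rt e')`, `nrm (com u e) ≤ 5 sqrt(δ rt e') + nrm (e' [u,q])`,
`nrm (e' [u,q])^2 = rt (e' [u,q][u,q]*) ≤ (nrm(com u q)^2 + η) rt e'`,
`nrm (com u q) = nrm (com u p)`, `rt e ≥ (rt q - small) rt e'`. Since
`∑ nrm(com u p)^2 ≤ ε rt p < ε rt q`, for small `δ, η` we get `∑ nrm(com u e)^2 ≤ ε rt e`, `e ≠ 0`.
Finally `rt e ≤ rt e' ≤ 1/2` by `exists_polar` applied to `e' * e`. -/
theorem exists_cut_down (hM : IsII1Factor M)
    (H : ∀ F : Finset M, (∀ u ∈ F, u ∈ unitary M) → ∀ δ : ℝ, 0 < δ →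
      ∃ e : M, IsStarProjection e ∧ e ≠ 0 ∧ rt e ≤ 1 / 2 ∧
        ∑ u ∈ F, nrm (com u e) ^ 2 ≤ δ * rt e)
    (F : Finset M) (hF : ∀ u ∈ F, u ∈ unitary M) {ε : ℝ} (hε : 0 < ε) {p : M}
    (hp : IsStarProjection p) (hpF : ∑ u ∈ F, nrm (com u p) ^ 2 ≤ ε * rt p)
    (hp2 : rt p < 1 / 2) :
    ∃ e : M, IsStarProjection e ∧ e ≠ 0 ∧ p * e = 0 ∧ rt e ≤ 1 / 2 ∧
      ∑ u ∈ F, nrm (com u e) ^ 2 ≤ ε * rt e := by
  classical
  set g : ℝ := 1 - 2 * rt p with hg
  have hg0 : 0 < g := by linarith
  have hp0 := rt_proj_nonneg hp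
  have hg1 : g ≤ 1 := by linarith
  -- the parameters
  set K : ℝ := (F.card : ℝ) + ε with hK
  have hK0 : 0 < K := by positivity
  obtain ⟨η, hη0, hη1, hη2⟩ : ∃ η : ℝ, 0 < η ∧ K * (η + 27 * η) ≤ ε * g ∧ η + 2 * η < 1 / 2 := by
    refine ⟨min (ε * g / (28 * K)) (1 / 7), by positivity, ?_, ?_⟩
    · have : min (ε * g / (28 * K)) (1 / 7) ≤ ε * g / (28 * K) := min_le_left _ _
      calc K * (min (ε * g / (28 * K)) (1 / 7) + 27 * min (ε * g / (28 * K)) (1 / 7))
          = 28 * K * min (ε * g / (28 * K)) (1 / 7) := by ring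
        _ ≤ 28 * K * (ε * g / (28 * K)) := by gcongr
        _ = ε * g := by field_simp
    · have : min (ε * g / (28 * K)) (1 / 7) ≤ 1 / 7 := min_le_right _ _
      linarith
  have hη3 : η ≤ 1 := by linarith
  have hexp : ∀ x : M, ∃ (W : Finset M) (δ : ℝ), 0 < δ ∧ (∀ w ∈ W, w ∈ unitary M) ∧
    ∀ e : M, IsStarProjection e → ∑ w ∈ W, nrm (com w e) ^ 2 ≤ δ * rt e →
      ‖tau (x * e) - tau x * tau e‖ ≤ η * rt e := fun x => nearTr hM x η hη0
  choose W D hD0 hWu hW using hexp
  set X : M → M := fun u => com u (1 - p) * star (com u (1 - p)) with hX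
  -- the common `δ`
  obtain ⟨δ, hδ0, hδη, hδq, hδu⟩ : ∃ δ : ℝ, 0 < δ ∧ δ ≤ η ^ 2 ∧ δ ≤ D (1 - p) ∧
      ∀ u ∈ F, δ ≤ D (X u) := by
    have : ∀ G : Finset M, ∃ δ : ℝ, 0 < δ ∧ ∀ u ∈ G, δ ≤ D (X u) := by
      intro G
      induction G using Finset.induction_on with
      | empty => exact ⟨1, one_pos, by simp⟩
      | insert a G ha ih =>
        obtain ⟨δ, h0, h⟩ := ih
        refine ⟨min δ (D (X a)), lt_min h0 (hD0 _), ?_⟩
        intro u hu
        rcases Finset.mem_insert.1 hu with rfl | hu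
        · exact min_le_right _ _
        · exact (min_le_left _ _).trans (h u hu)
    obtain ⟨δ, h0, h⟩ := this F
    refine ⟨min δ (min (η ^ 2) (D (1 - p))), by
        have := hD0 (1 - p); positivity, ?_, ?_, ?_⟩
    · exact (min_le_right _ _).trans (min_le_left _ _)
    · exact (min_le_right _ _).trans (min_le_right _ _)
    · intro u hu; exact (min_le_left _ _).trans (h u hu)
  set F' : Finset M := F ∪ {1 - (2 : ℂ) • p} ∪ W (1 - p) ∪ F.biUnion (fun u => W (X u)) with hF'
  have hwu : (1 - (2 : ℂ) • p) ∈ unitary M := by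
    have hs : star (1 - (2 : ℂ) • p) = 1 - (2 : ℂ) • p := by
      rw [star_sub, star_one, star_smul, proj_star hp]; simp
    have hm : (1 - (2 : ℂ) • p) * (1 - (2 : ℂ) • p) = 1 := by
      have h2 : (2 : ℂ) • p = p + p := two_smul ℂ p
      rw [h2]
      calc (1 - (p + p)) * (1 - (p + p)) = 1 - 4 • p + 4 • (p * p) := by noncomm_ring
        _ = 1 := by rw [proj_sq hp, sub_add_cancel]
    rw [Unitary.mem_iff, hs]
    exact ⟨hm, hm⟩
  have hF'u : ∀ u ∈ F', u ∈ unitary M := by
    intro u hu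
    simp only [hF', Finset.mem_union, Finset.mem_singleton, Finset.mem_biUnion] at hu
    rcases hu with ((hu | rfl) | hu) | ⟨v, _, hu⟩
    · exact hF u hu
    · exact hwu
    · exact hWu _ u hu
    · exact hWu _ u hu
  obtain ⟨e', he', he'0, he'2, hsum⟩ := H F' hF'u δ hδ0
  have hrt' : 0 < rt e' := rt_proj_pos he' he'0
  have hterm : ∀ w ∈ F', nrm (com w e') ≤ η * nrm e' := by
    intro w hw
    have h1 : nrm (com w e') ^ 2 ≤ ∑ u ∈ F', nrm (com u e') ^ 2 :=
      Finset.single_le_sum (f := fun u => nrm (com u e') ^ 2) (fun _ _ => by positivity) hw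
    have h2 : nrm (com w e') ^ 2 ≤ (η * nrm e') ^ 2 := by
      rw [mul_pow, nrm_proj_sq he']
      calc nrm (com w e') ^ 2 ≤ δ * rt e' := h1.trans hsum
        _ ≤ _ := by gcongr
    exact le_of_sq_le_sq h2 (mul_nonneg hη0.le (nrm_nonneg _))
  have hsub : ∀ G : Finset M, G ⊆ F' → ∀ d : ℝ, δ ≤ d →
      ∑ w ∈ G, nrm (com w e') ^ 2 ≤ d * rt e' := by
    intro G hG d hd
    calc ∑ w ∈ G, nrm (com w e') ^ 2 ≤ ∑ w ∈ F', nrm (com w e') ^ 2 :=
          Finset.sum_le_sum_of_subset_of_nonneg hG (fun _ _ _ => by positivity)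
      _ ≤ δ * rt e' := hsum
      _ ≤ d * rt e' := by gcongr
  have hq1 : W (1 - p) ⊆ F' := by
    intro w hw; simp only [hF', Finset.mem_union]; tauto
  have hw1 : (1 - (2 : ℂ) • p) ∈ F' := by simp [hF']
  obtain ⟨e, he, hpe, hle, hnear, hlow⟩ := cut_down_aux hp he' hη0.le (hterm _ hw1)
    (hW _ e' he' (hsub _ hq1 _ hδq))
  have hcomu : ∀ u ∈ F, nrm (com u e) ^ 2 ≤ (nrm (com u p) ^ 2 + (η + 27 * η)) * rt e' := by
    intro u hu
    have hu' : u ∈ F' := by simp only [hF', Finset.mem_union]; tauto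
    have hsubu : W (X u) ⊆ F' := by
      intro w hw; simp only [hF', Finset.mem_union, Finset.mem_biUnion]
      right; exact ⟨u, hu, hw⟩
    have h1 := cut_down_com (hF u hu) hp he' hη0.le hnear (hterm u hu')
      (hW _ e' he' (hsub _ hsubu _ (hδu u hu)))
    have hc2 : nrm (com u p) ^ 2 ≤ 4 := by
      have hun : ‖u‖ ≤ 1 := by
        have h : ‖u‖ * ‖u‖ = ‖(1 : M)‖ := by
          rw [← CStarRing.norm_star_mul_self, Unitary.star_mul_self_of_mem (hF u hu)]
        have h1 : ‖(1 : M)‖ ≤ 1 := norm_proj_le (IsStarProjection.one M)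
        nlinarith [norm_nonneg u]
      have hn : nrm p ≤ 1 := (nrm_le_norm p).trans (norm_proj_le hp)
      have := nrm_com_le u p
      have h3 : nrm (com u p) ≤ 2 := by
        have : ‖u‖ * nrm p ≤ 1 * 1 := mul_le_mul hun hn (nrm_nonneg _) zero_le_one
        linarith
      nlinarith [nrm_nonneg (com u p)]
    set c := nrm (com u p) ^ 2 + η with hc
    have hc0 : 0 ≤ c := by positivity
    have hsq : √c ≤ 3 := by
      rw [show (3 : ℝ) = √9 by rw [show (9 : ℝ) = 3 ^ 2 by norm_num]; simp]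
      exact Real.sqrt_le_sqrt (by linarith)
    have h2 : nrm (com u e) ^ 2 ≤ ((3 * η + √c) * nrm e') ^ 2 :=
      pow_le_pow_left₀ (nrm_nonneg _) h1 2
    refine h2.trans ?_
    rw [mul_pow, nrm_proj_sq he']
    refine mul_le_mul_of_nonneg_right ?_ hrt'.le
    have h3 : √c * √c = c := Real.mul_self_sqrt hc0
    nlinarith [Real.sqrt_nonneg c]
  have hrte : (1 - rt p - η - 2 * η) * rt e' ≤ rt e := by
    have h1 : nrm (e' * (1 - p)) ≤ nrm e + η * nrm e' := by
      have := nrm_sub_le e (e - e' * (1 - p))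
      have e1 : e - (e - e' * (1 - p)) = e' * (1 - p) := by abel
      rw [e1] at this
      linarith
    have h0 : 0 < nrm e' := by
      rcases (nrm_nonneg e').lt_or_eq with h | h
      · exact h
      · exact absurd (nrm_eq_zero.1 h.symm) he'0
    have h2 : nrm e ≤ nrm e' := by
      have : nrm e ^ 2 ≤ nrm e' ^ 2 := by rw [nrm_proj_sq he, nrm_proj_sq he']; exact hle
      exact le_of_sq_le_sq this h0.le
    have h3 : nrm (e' * (1 - p)) ^ 2 ≤ (nrm e + η * nrm e') ^ 2 :=
      pow_le_pow_left₀ (nrm_nonneg _) h1 2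
    have h4 : nrm (e' * (1 - p)) ≤ nrm e' := by
      refine (nrm_mul_le_right _ _).trans ?_
      calc nrm e' * ‖1 - p‖ ≤ nrm e' * 1 :=
            mul_le_mul_of_nonneg_left (norm_proj_le hp.one_sub) h0.le
        _ = _ := mul_one _
    -- nrm e ≥ nrm (e' q) - η s
    rw [← nrm_proj_sq he, ← nrm_proj_sq he']
    rcases le_or_gt (nrm (e' * (1 - p))) (η * nrm e') with h5 | h5
    · have : nrm (e' * (1 - p)) ^ 2 ≤ (η * nrm e') ^ 2 := pow_le_pow_left₀ (nrm_nonneg _) h5 2
      have h6 : (1 - rt p - η) * nrm e' ^ 2 ≤ η ^ 2 * nrm e' ^ 2 := by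
        rw [← mul_pow]; linarith
      have h7 : 0 < nrm e' ^ 2 := by positivity
      have h8 : 1 - rt p - η ≤ η ^ 2 := le_of_mul_le_mul_right h6 h7
      nlinarith [nrm_nonneg e]
    · have h6 : (nrm (e' * (1 - p)) - η * nrm e') ^ 2 ≤ nrm e ^ 2 :=
        pow_le_pow_left₀ (by linarith) (by linarith) 2
      nlinarith [mul_nonneg hη0.le h0.le, sq_nonneg (η * nrm e')]
  refine ⟨e, he, ?_, hpe, hle.trans he'2, ?_⟩
  · rintro rfl
    rw [rt_zero] at hrte
    have : 0 < 1 - rt p - η - 2 * η := by linarith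
    nlinarith
  · calc ∑ u ∈ F, nrm (com u e) ^ 2
        ≤ ∑ u ∈ F, (nrm (com u p) ^ 2 + (η + 27 * η)) * rt e' := Finset.sum_le_sum hcomu
      _ = (∑ u ∈ F, nrm (com u p) ^ 2 + F.card * (η + 27 * η)) * rt e' := by
          rw [← Finset.sum_mul, Finset.sum_add_distrib, Finset.sum_const, nsmul_eq_mul]
      _ ≤ (ε * rt p + F.card * (η + 27 * η)) * rt e' :=
          mul_le_mul_of_nonneg_right (by linarith) hrt'.le
      _ ≤ (ε * (1 - rt p - η - 2 * η)) * rt e' := by
          refine mul_le_mul_of_nonneg_right ?_ hrt'.le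
          have e1 : K * (η + 27 * η) = F.card * (η + 27 * η) + ε * (28 * η) := by rw [hK]; ring
          have e2 : 0 < ε * η := mul_pos hε hη0
          rw [e1, hg] at hη1
          linarith
      _ = ε * ((1 - rt p - η - 2 * η) * rt e') := by ring
      _ ≤ ε * rt e := mul_le_mul_of_nonneg_left hrte hε.le

end Pool.Agent.McDuffR
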