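import Pool.Agent.MP_af2a1c_lc.Ops

/-! The flip defect of a tuple. -/

namespace Pool.Agent.McDuffR

open Filter Topology ComplexConjugate

variable {M : Type*} [CStarAlgebra M] [TracialVNA M]

/-- Sum of the squares of the 2-norms of `y* y - 1`, `y y* - 1` and `[y a_i y*, a_j]`. -/
noncomputable def flipDefect {k : ℕ} (a : Fin k → M) (y : M) : ℝ :=
  nrm (star y * y - 1) ^ 2 + nrm (y * star y - 1) ^ 2 +
    ∑ i, ∑ j, nrm (com (y * a i * star y) (a j)) ^ 2

lemma flipDefect_nonneg {k : ℕ} (a : Fin k → M) (y : M) : 0 ≤ flipDefect a y := by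
  unfold flipDefect
  have : 0 ≤ ∑ i, ∑ j, nrm (com (y * a i * star y) (a j)) ^ 2 :=
    Finset.sum_nonneg fun i _ => Finset.sum_nonneg fun j _ => sq_nonneg _
  have h1 := sq_nonneg (nrm (star y * y - 1))
  have h2 := sq_nonneg (nrm (y * star y - 1))
  linarith

lemma flipDefect_zero {k : ℕ} (a : Fin k → M) : flipDefect a 0 = 2 := by
  unfold flipDefect
  have h : nrm (-1 : M) = 1 := by rw [nrm_neg, nrm_one]
  simp [h]
  norm_num

end Pool.Agent.McDuffR
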