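import Mathlib

/-! Definitions: tracial von Neumann algebras, II_1 factors, property Gamma, tensor products,
the hyperfinite II_1 factor and continuous logic for tracial von Neumann algebras. -/

namespace Pool.Agent.McDuffR

universe u v w

/-- The 2-norm attached to a linear functional `t`. -/
noncomputable def twoNorm {M : Type*} [CStarAlgebra M] (t : M →ₗ[ℂ] ℂ) (x : M) : ℝ :=
  Real.sqrt (t (star x * x)).re

/-- Tracial von Neumann algebras in intrinsic form: a unital C*-algebra with a faithful tracial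
state whose operator norm unit ball is complete for the 2-norm. -/
class TracialVNA (M : Type*) [CStarAlgebra M] where
  tr : M →ₗ[ℂ] ℂ
  tr_one : tr 1 = 1
  tr_mul_comm : ∀ x y : M, tr (x * y) = tr (y * x)
  tr_nonneg : ∀ x : M, ∃ r : ℝ, 0 ≤ r ∧ tr (star x * x) = (r : ℂ)
  tr_faithful : ∀ x : M, tr (star x * x) = 0 → x = 0
  complete : ∀ u : ℕ → M, (∀ n, ‖u n‖ ≤ 1) →
    (∀ ε : ℝ, 0 < ε → ∃ K : ℕ, ∀ m ≥ K, ∀ n ≥ K, twoNorm tr (u m - u n) < ε) →
    ∃ x : M, ‖x‖ ≤ 1 ∧ ∀ ε : ℝ, 0 < ε → ∃ K : ℕ, ∀ n ≥ K, twoNorm tr (u n - x) < ε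

/-- The trace. -/
noncomputable def tau {M : Type*} [CStarAlgebra M] [TracialVNA M] (x : M) : ℂ :=
  TracialVNA.tr x

/-- The 2-norm `tr (x* x)^(1/2)`. -/
noncomputable def nrm {M : Type*} [CStarAlgebra M] [TracialVNA M] (x : M) : ℝ :=
  twoNorm (TracialVNA.tr (M := M)) x

/-- A II_1 factor: an infinite-dimensional tracial von Neumann algebra with trivial centre. -/
structure IsII1Factor (M : Type*) [CStarAlgebra M] [TracialVNA M] : Prop where
  center : ∀ x : M, (∀ y : M, x * y = y * x) → ∃ c : ℂ, x = c • (1 : M)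
  infinite : ¬ FiniteDimensional ℂ M

/-- Separability of the predual, i.e. of the 2-norm. -/
def IsSeparable2 (M : Type*) [CStarAlgebra M] [TracialVNA M] : Prop :=
  ∃ s : ℕ → M, ∀ x : M, ∀ ε : ℝ, 0 < ε → ∃ n, nrm (x - s n) < ε

/-- Property Gamma. -/
def HasGamma (M : Type*) [CStarAlgebra M] [TracialVNA M] : Prop :=
  ∀ (F : Finset M) (ε : ℝ), 0 < ε →
    ∃ u ∈ unitary M, tau u = 0 ∧ ∀ x ∈ F, nrm (x * u - u * x) < ε

/-- `M` is the von Neumann algebra tensor product of `N` and `S`: commuting copies of `N` and `S`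
on which the trace is the product trace and whose products span a 2-norm dense subspace. -/
def IsTensorProduct (N : Type*) (S : Type*) (M : Type*) [CStarAlgebra N] [TracialVNA N]
    [CStarAlgebra S] [TracialVNA S] [CStarAlgebra M] [TracialVNA M] : Prop :=
  ∃ (i : N →⋆ₐ[ℂ] M) (j : S →⋆ₐ[ℂ] M),
    (∀ (a : N) (b : S), i a * j b = j b * i a) ∧
    (∀ (a : N) (b : S), tau (i a * j b) = tau a * tau b) ∧
    (∀ (x : M) (ε : ℝ), 0 < ε →
      ∃ y ∈ Submodule.span ℂ {z : M | ∃ (a : N) (b : S), z = i a * j b}, nrm (x - y) < ε)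

/-- The hyperfinite II_1 factor: a II_1 factor generated by a sequence of mutually commuting
unital copies of the algebra of 2 by 2 matrices (`e n p q` are the matrix units of the `n`-th
copy). -/
def IsHyperfiniteII1Factor (R : Type*) [CStarAlgebra R] [TracialVNA R] : Prop :=
  IsII1Factor R ∧ ∃ e : ℕ → Fin 2 → Fin 2 → R,
    (∀ n p q, star (e n p q) = e n q p) ∧
    (∀ n p q r s, e n p q * e n r s = if q = r then e n p s else 0) ∧
    (∀ n, e n 0 0 + e n 1 1 = 1) ∧
    (∀ m n, m ≠ n → ∀ p q r s, e m p q * e n r s = e n r s * e m p q) ∧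
    (∀ (x : R) (ε : ℝ), 0 < ε →
      ∃ y ∈ Algebra.adjoin ℂ {z : R | ∃ n p q, z = e n p q}, nrm (x - y) < ε)

/-- Strongly McDuff II_1 factors: tensor products of a separable II_1 factor without property
Gamma with the hyperfinite II_1 factor. -/
def IsStronglyMcDuff (M : Type u) [CStarAlgebra M] [TracialVNA M] : Prop :=
  ∃ (N : Type u) (_ : CStarAlgebra N) (_ : TracialVNA N) (R : Type u) (_ : CStarAlgebra R)
    (_ : TracialVNA R), IsII1Factor N ∧ IsSeparable2 N ∧ ¬ HasGamma N ∧
      IsHyperfiniteII1Factor R ∧ IsTensorProduct N R M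

/-- Terms with free variables indexed by `Fin n`: *-polynomials. -/
inductive Term : ℕ → Type
  | var {n : ℕ} (i : Fin n) : Term n
  | one {n : ℕ} : Term n
  | add {n : ℕ} (s t : Term n) : Term n
  | mul {n : ℕ} (s t : Term n) : Term n
  | smul {n : ℕ} (c : ℂ) (t : Term n) : Term n
  | star {n : ℕ} (t : Term n) : Term n

/-- Formulas of continuous logic with free variables indexed by `Fin n`: atomic formulas are the
real and imaginary parts of the trace of a term, connectives are continuous functions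
`ℝ^k → ℝ`, quantifiers are suprema and infima over operator norm balls of natural radius. -/
inductive Formula : ℕ → Type
  | trRe {n : ℕ} (t : Term n) : Formula n
  | trIm {n : ℕ} (t : Term n) : Formula n
  | conn {n k : ℕ} (f : C(Fin k → ℝ, ℝ)) (φ : Fin k → Formula n) : Formula n
  | sup {n : ℕ} (r : ℕ) (φ : Formula (n + 1)) : Formula n
  | inf {n : ℕ} (r : ℕ) (φ : Formula (n + 1)) : Formula n

/-- Sentences are formulas without free variables. -/
abbrev Sentence : Type := Formula 0

section Semantics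

variable (M : Type*) [CStarAlgebra M] [TracialVNA M]

/-- The value of a term. -/
def Term.eval : {n : ℕ} → Term n → (Fin n → M) → M
  | _, .var i, v => v i
  | _, .one, _ => 1
  | _, .add s t, v => s.eval v + t.eval v
  | _, .mul s t, v => s.eval v * t.eval v
  | _, .smul c t, v => c • t.eval v
  | _, .star t, v => Star.star (t.eval v)

/-- The value of a formula. -/
noncomputable def Formula.eval : {n : ℕ} → Formula n → (Fin n → M) → ℝ
  | _, .trRe t, v => (tau (t.eval M v)).re
  | _, .trIm t, v => (tau (t.eval M v)).im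
  | _, .conn f φ, v => f (fun i => (φ i).eval v)
  | _, .sup r φ, v => ⨆ x : {x : M // ‖x‖ ≤ r}, φ.eval (Fin.snoc v (x : M))
  | _, .inf r φ, v => ⨅ x : {x : M // ‖x‖ ≤ r}, φ.eval (Fin.snoc v (x : M))

/-- The value of a sentence in `M`. -/
noncomputable def Sentence.value (φ : Sentence) : ℝ := Formula.eval M φ Fin.elim0

end Semantics

/-- Elementary equivalence. -/
def ElemEquiv (M : Type u) (N : Type v) [CStarAlgebra M] [TracialVNA M] [CStarAlgebra N]
    [TracialVNA N] : Prop :=
  ∀ φ : Sentence, Sentence.value M φ = Sentence.value N φ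

end Pool.Agent.McDuffR
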