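import Pool.Agent.MP_af2a1c_lc.Halving

/-! Task T2d: dyadic partitions and weakly small unitaries. -/

namespace Pool.Agent.McDuffR

open Filter Topology ComplexConjugate

variable {M : Type*} [CStarAlgebra M] [TracialVNA M]

omit [TracialVNA M] in
/-- Two projections whose sum is a projection are orthogonal. -/
private lemma dy_orth {f g : M} (hf : IsStarProjection f)
    (hfg : IsStarProjection (f + g)) (hg : IsStarProjection g) : f * g = 0 := by
  have h1 := proj_sq hfg
  have h2 := proj_sq hf
  have h3 := proj_sq hg
  have h4 : f * g + g * f = 0 := by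
    have : (f + g) * (f + g) = f * f + g * g + (f * g + g * f) := by noncomm_ring
    rw [this, h2, h3] at h1
    simpa using h1
  have h5 : f * g + f * g * f = 0 := by
    have := congrArg (fun z => f * z) h4
    simp only [mul_add, mul_zero] at this
    rw [← mul_assoc, h2, ← mul_assoc] at this
    exact this
  have h6 : f * g * f + g * f = 0 := by
    have := congrArg (fun z => z * f) h4
    simp only [add_mul, zero_mul] at this
    rw [mul_assoc g f f, h2] at this
    exact this
  have h7 : f * g = g * f := by
    have e1 : f * g = -(f * g * f) := eq_neg_of_add_eq_zero_left h5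
    have e2 : g * f = -(f * g * f) := eq_neg_of_add_eq_zero_right h6
    rw [e1, e2]
  rw [← h7] at h4
  have h8 : (2 : ℂ) • (f * g) = 0 := by rw [two_smul]; exact h4
  exact (smul_eq_zero.1 h8).resolve_left two_ne_zero

private lemma dy_aux (hM : IsII1Factor M) (m : ℕ) :
    ∃ (ι : Type) (_ : Fintype ι) (e : M) (w : ι → M), Fintype.card ι = 2 ^ m ∧
      IsStarProjection e ∧ rt e = (2 ^ m : ℝ)⁻¹ ∧
      (∀ i, star (w i) * w i = e) ∧ (∀ i j, i ≠ j → star (w i) * w j = 0) ∧
      ∑ i, w i * star (w i) = 1 := by
  induction m with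
  | zero =>
    refine ⟨Unit, inferInstance, 1, fun _ => 1, by simp, IsStarProjection.one M, by simp, by simp,
      ?_, by simp⟩
    intro i j h
    exact absurd rfl h
  | succ m ih =>
    obtain ⟨ι, hι, e, w, hcard, he, hrt, hw, hww, hsum⟩ := ih
    obtain ⟨v, hf, hv⟩ := exists_halving hM he
    have hg : IsStarProjection (v * star v) := proj_mul_star_of_proj hf
    have hvf : v * (star v * v) = v := mul_star_mul_self_of_proj hf
    have hfg : (star v * v) * (v * star v) = 0 := dy_orth hf (by rw [hv]; exact he) hg
    have hgv : v * star v * v = v := by rw [mul_assoc]; exact hvf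
    have hfv : (star v * v) * v = 0 := by
      have : (star v * v) * v = (star v * v) * (v * star v) * v := by
        rw [mul_assoc _ (v * star v) v, hgv]
      rw [this, hfg, zero_mul]
    have hef : e * (star v * v) = star v * v := by
      rw [← hv, add_mul, proj_sq hf]
      have : v * star v * (star v * v) = 0 := by
        have := congrArg star hfg
        rw [star_mul, proj_star hf, proj_star hg, star_zero] at this
        exact this
      rw [this, add_zero]
    have hev : e * v = v := by
      rw [← hv, add_mul, hfv, hgv, zero_add]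
    have hsvf : star v * (star v * v) = 0 := by
      have := congrArg star hfv
      rw [star_mul, proj_star hf, star_zero] at this
      exact this
    have hwe : ∀ i, w i * e = w i := by
      intro i
      have h := mul_star_mul_self_of_proj (v := w i) (by rw [hw i]; exact he)
      rwa [hw i] at h
    classical
    refine ⟨ι × Bool, inferInstance, star v * v,
      fun x => if x.2 then w x.1 * v else w x.1 * (star v * v), ?_, hf, ?_, ?_, ?_, ?_⟩
    · rw [Fintype.card_prod, hcard, Fintype.card_bool, pow_succ]
    · have h1 : rt e = rt (star v * v) + rt (v * star v) := by rw [← rt_add, hv]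
      have h2 : rt (v * star v) = rt (star v * v) := rt_comm _ _
      rw [h2, hrt] at h1
      rw [pow_succ, mul_inv, h1]
      ring
    · rintro ⟨i, b⟩
      cases b
      · simp only [Bool.false_eq_true, if_false]
        rw [star_mul, proj_star hf]
        calc star v * v * star (w i) * (w i * (star v * v))
            = star v * v * ((star (w i) * w i) * (star v * v)) := by noncomm_ring
          _ = star v * v * (star v * v) := by rw [hw i, hef]
          _ = star v * v := proj_sq hf
      · simp only [if_true]
        rw [star_mul]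
        calc star v * star (w i) * (w i * v) = star v * ((star (w i) * w i) * v) := by noncomm_ring
          _ = star v * v := by rw [hw i, hev]
    · rintro ⟨i, b⟩ ⟨j, c⟩ hne
      by_cases hij : i = j
      · subst hij
        have hbc : b ≠ c := by
          intro h; exact hne (by rw [h])
        cases b <;> cases c
        · exact absurd rfl hbc
        · simp only [Bool.false_eq_true, if_false, if_true]
          rw [star_mul, proj_star hf]
          calc star v * v * star (w i) * (w i * v)
              = star v * v * ((star (w i) * w i) * v) := by noncomm_ring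
            _ = 0 := by rw [hw i, hev, hfv]
        · simp only [Bool.false_eq_true, if_false, if_true]
          rw [star_mul]
          calc star v * star (w i) * (w i * (star v * v))
              = star v * ((star (w i) * w i) * (star v * v)) := by noncomm_ring
            _ = 0 := by rw [hw i, hef, hsvf]
        · exact absurd rfl hbc
      · have hz := hww i j hij
        have key : ∀ a b : M, star (w i * a) * (w j * b) = 0 := by
          intro a b
          rw [star_mul]
          calc star a * star (w i) * (w j * b) = star a * (star (w i) * w j) * b := by noncomm_ring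
            _ = 0 := by rw [hz, mul_zero, zero_mul]
        cases b <;> cases c
        · simpa using key (star v * v) (star v * v)
        · simpa using key (star v * v) v
        · simpa using key v (star v * v)
        · simpa using key v v
    · rw [Fintype.sum_prod_type]
      simp only [Fintype.sum_bool, Bool.false_eq_true, if_false, if_true]
      rw [← hsum]
      apply Finset.sum_congr rfl
      intro i _
      rw [star_mul, star_mul, proj_star hf]
      calc w i * v * (star v * star (w i)) + w i * (star v * v) * (star v * v * star (w i))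
          = w i * ((star v * v) * (star v * v) + v * star v) * star (w i) := by noncomm_ring
        _ = w i * star (w i) := by rw [proj_sq hf, hv, hwe i]

/-- Iterated halving: for every `m`, `1` is an orthogonal sum of `2^m` projections, all of the form
`w i * star (w i)` with `star (w i) * w i = e` the same projection `e` (of trace `2^(-m)`). -/
theorem exists_dyadic (hM : IsII1Factor M) (m : ℕ) :
    ∃ (e : M) (w : Fin (2 ^ m) → M), IsStarProjection e ∧ rt e = (2 ^ m : ℝ)⁻¹ ∧
      (∀ i, star (w i) * w i = e) ∧ (∀ i j, i ≠ j → star (w i) * w j = 0) ∧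
      ∑ i, w i * star (w i) = 1 := by
  obtain ⟨ι, hι, e, w, hcard, he, hrt, hw, hww, hsum⟩ := dy_aux hM m
  let E : Fin (2 ^ m) ≃ ι := (Fintype.equivFinOfCardEq hcard).symm
  refine ⟨e, fun i => w (E i), he, hrt, fun i => hw _, fun i j hij => hww _ _ ?_, ?_⟩
  · intro h; exact hij (E.injective h)
  · rw [← hsum]
    exact Equiv.sum_comp E (fun i => w i * star (w i))

/-- Choice of signs by the parallelogram law. -/
private lemma dy_signs {F : Type*} [NormedAddCommGroup F] [InnerProductSpace ℂ F] {ι : Type*}
    (s : Finset ι) (a : ι → F) :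
    ∃ t : ι → ℂ, (∀ i, t i = 1 ∨ t i = -1) ∧
      ‖∑ i ∈ s, t i • a i‖ ^ 2 ≤ ∑ i ∈ s, ‖a i‖ ^ 2 := by
  classical
  induction s using Finset.induction_on with
  | empty => exact ⟨fun _ => 1, fun _ => Or.inl rfl, by simp⟩
  | insert i s hi ih =>
    obtain ⟨t, ht, hle⟩ := ih
    have hpar := parallelogram_law_with_norm ℂ (∑ j ∈ s, t j • a j) (a i)
    have hsum : ∀ z : ℂ, ∑ j ∈ insert i s, (Function.update t i z) j • a j =
        (∑ j ∈ s, t j • a j) + z • a i := by
      intro z
      rw [Finset.sum_insert hi, add_comm]
      congr 1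
      · apply Finset.sum_congr rfl
        intro j hj
        rw [Function.update_of_ne]
        intro h; rw [h] at hj; exact hi hj
      · rw [Function.update_self]
    have hsgn : ∀ z : ℂ, (z = 1 ∨ z = -1) → ∀ j, Function.update t i z j = 1 ∨
        Function.update t i z j = -1 := by
      intro z hz j
      by_cases h : j = i
      · subst h; rw [Function.update_self]; exact hz
      · rw [Function.update_of_ne h]; exact ht j
    rw [Finset.sum_insert hi]
    rcases le_total ‖(∑ j ∈ s, t j • a j) + a i‖ ‖(∑ j ∈ s, t j • a j) - a i‖ with h | h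
    · refine ⟨Function.update t i 1, hsgn 1 (Or.inl rfl), ?_⟩
      rw [hsum, one_smul]
      nlinarith [norm_nonneg ((∑ j ∈ s, t j • a j) + a i),
        norm_nonneg ((∑ j ∈ s, t j • a j) - a i)]
    · refine ⟨Function.update t i (-1), hsgn (-1) (Or.inr rfl), ?_⟩
      rw [hsum, neg_smul, one_smul, ← sub_eq_add_neg]
      nlinarith [norm_nonneg ((∑ j ∈ s, t j • a j) + a i),
        norm_nonneg ((∑ j ∈ s, t j • a j) - a i)]

/-- Weakly small unitaries. Sketch: take `p i = w i * star (w i)` from `exists_dyadic` with `2^m`
large and `u = ∑ ± p i`; choose the signs one after the other so that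
`∑_{c ∈ C} ‖partial sum of ± tau (p i * c)‖^2` increases by at most `∑_c ‖tau (p i * c)‖^2`
(parallelogram law); finally `∑_i ‖tau (p i * c)‖^2 ≤ ∑_i (rt (p i) ‖c‖)^2 ≤ ‖c‖^2 2^(-m)`. -/
theorem exists_weakly_small_unitary (hM : IsII1Factor M) (C : Finset M) {η : ℝ} (hη : 0 < η) :
    ∃ u ∈ unitary M, ∀ c ∈ C, ‖tau (u * c)‖ ≤ η := by
  classical
  set K : ℝ := ∑ c ∈ C, ‖c‖ ^ 2 with hK
  have hK0 : 0 ≤ K := Finset.sum_nonneg (fun _ _ => by positivity)
  obtain ⟨m, hm⟩ : ∃ m : ℕ, (2 ^ m : ℝ)⁻¹ * K ≤ η ^ 2 := by
    obtain ⟨m, hm⟩ := pow_unbounded_of_one_lt (K / η ^ 2) (one_lt_two : (1 : ℝ) < 2)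
    refine ⟨m, ?_⟩
    rw [inv_mul_le_iff₀ (by positivity)]
    rw [div_lt_iff₀ (by positivity)] at hm
    exact hm.le
  obtain ⟨e, w, he, hrt, hw, hww, hsum⟩ := exists_dyadic hM m
  set p : Fin (2 ^ m) → M := fun i => w i * star (w i) with hp
  have hpp : ∀ i, IsStarProjection (p i) := fun i =>
    proj_mul_star_of_proj (by rw [hw i]; exact he)
  have hpo : ∀ i j, i ≠ j → p i * p j = 0 := by
    intro i j hij
    simp only [hp]
    calc w i * star (w i) * (w j * star (w j)) = w i * (star (w i) * w j) * star (w j) := by
          noncomm_ring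
      _ = 0 := by rw [hww i j hij]; simp
  have hprt : ∀ i, rt (p i) = (2 ^ m : ℝ)⁻¹ := by
    intro i
    simp only [hp]
    rw [rt_comm, hw i, hrt]
  have hpsum : ∑ i, p i = 1 := hsum
  have hpc : ∀ i (c : M), ‖tau (p i * c)‖ ≤ (2 ^ m : ℝ)⁻¹ * ‖c‖ := by
    intro i c
    have h1 : tau (p i * c) = tau (p i * (c * p i)) := by
      rw [← mul_assoc, tau_comm (p i * c) (p i), ← mul_assoc, proj_sq (hpp i)]
    rw [h1]
    refine (norm_tau_mul_le _ _).trans ?_
    have h2 := nrm_mul_le_left c (p i)
    have h3 : nrm (p i) * nrm (p i) = (2 ^ m : ℝ)⁻¹ := by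
      rw [← sq, nrm_proj_sq (hpp i), hprt]
    calc nrm (p i) * nrm (c * p i) ≤ nrm (p i) * (‖c‖ * nrm (p i)) :=
          mul_le_mul_of_nonneg_left h2 (nrm_nonneg _)
      _ = nrm (p i) * nrm (p i) * ‖c‖ := by ring
      _ = _ := by rw [h3]
  -- signs
  let a : Fin (2 ^ m) → EuclideanSpace ℂ C := fun i => WithLp.toLp 2 (fun c => tau (p i * (c : M)))
  obtain ⟨t, ht, hle⟩ := dy_signs Finset.univ a
  have ht2 : ∀ i, t i * t i = 1 := by
    intro i; rcases ht i with h | h <;> rw [h] <;> norm_num
  have htc : ∀ i, conj (t i) = t i := by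
    intro i; rcases ht i with h | h <;> rw [h] <;> simp
  set u : M := ∑ i, t i • p i with hu
  have hus : star u = u := by
    rw [hu, star_sum]
    apply Finset.sum_congr rfl
    intro i _
    rw [star_smul, proj_star (hpp i)]
    change conj (t i) • p i = _
    rw [htc]
  have huu : u * u = 1 := by
    rw [hu, Finset.sum_mul_sum]
    rw [← hpsum]
    apply Finset.sum_congr rfl
    intro i _
    rw [Finset.sum_eq_single i]
    · rw [smul_mul_smul_comm, ht2, one_smul, proj_sq (hpp i)]
    · intro j _ hj
      rw [smul_mul_smul_comm, hpo i j hj.symm, smul_zero]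
    · simp
  refine ⟨u, ?_, ?_⟩
  · rw [Unitary.mem_iff, hus]
    exact ⟨huu, huu⟩
  · intro c hc
    have h1 : ‖∑ i, t i • a i‖ ^ 2 ≤ η ^ 2 := by
      refine hle.trans (le_trans ?_ hm)
      have h2 : ∀ i ∈ Finset.univ, ‖a i‖ ^ 2 ≤ ((2 ^ m : ℝ)⁻¹) ^ 2 * K := by
        intro i _
        rw [EuclideanSpace.norm_sq_eq, hK, Finset.mul_sum, ← Finset.sum_coe_sort C]
        apply Finset.sum_le_sum
        intro c _
        have := hpc i (c : M)
        calc ‖(a i) c‖ ^ 2 ≤ ((2 ^ m : ℝ)⁻¹ * ‖(c : M)‖) ^ 2 :=
              pow_le_pow_left₀ (norm_nonneg _) this 2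
          _ = _ := by ring
      refine (Finset.sum_le_sum h2).trans (le_of_eq ?_)
      rw [Finset.sum_const, Finset.card_univ, Fintype.card_fin, nsmul_eq_mul]
      push_cast
      field_simp
    have h3 : ‖(∑ i, t i • a i) ⟨c, hc⟩‖ ≤ ‖∑ i, t i • a i‖ := by
      have := EuclideanSpace.norm_sq_eq (∑ i, t i • a i)
      have h4 : ‖(∑ i, t i • a i) ⟨c, hc⟩‖ ^ 2 ≤ ‖∑ i, t i • a i‖ ^ 2 := by
        rw [this]
        exact Finset.single_le_sum (f := fun x => ‖(∑ i, t i • a i) x‖ ^ 2)
          (fun _ _ => by positivity) (Finset.mem_univ (⟨c, hc⟩ : C))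
      exact le_of_sq_le_sq h4 (norm_nonneg _)
    have h5 : (∑ i, t i • a i) ⟨c, hc⟩ = tau (u * c) := by
      rw [hu, Finset.sum_mul, tau_sum]
      rw [WithLp.ofLp_sum, Finset.sum_apply]
      apply Finset.sum_congr rfl
      intro i _
      rw [smul_mul_assoc, tau_smul]
      rfl
    rw [← h5]
    exact h3.trans (le_of_sq_le_sq h1 hη.le)

end Pool.Agent.McDuffR
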