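import Pool.Agent.MP_af2a1c_lc.CutDown

/-! Task T5b: relatively almost central projections give property Gamma. -/

namespace Pool.Agent.McDuffR

open Filter Topology ComplexConjugate

variable {M : Type*} [CStarAlgebra M] [TracialVNA M]

/-- Three numbers with triangle inequality are the lengths of a closed triangle. -/
theorem exists_triangle {a b c : ℝ} (ha : 0 ≤ a) (hb : 0 ≤ b) (hc : 0 ≤ c) (h : a + b + c = 1)
    (ha2 : a ≤ 1 / 2) (hb2 : b ≤ 1 / 2) (hc2 : c ≤ 1 / 2) :
    ∃ α β γ : ℂ, ‖α‖ = 1 ∧ ‖β‖ = 1 ∧ ‖γ‖ = 1 ∧ (a : ℂ) * α + b * β + c * γ = 0 := by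
  set f : ℝ → ℝ := fun θ => ‖(a : ℂ) + b * Complex.exp (θ * Complex.I)‖ with hf
  have hcont : Continuous f := by
    rw [hf]; fun_prop
  have h0 : f 0 = a + b := by
    simp only [hf, Complex.ofReal_zero, zero_mul, Complex.exp_zero, mul_one]
    rw [← Complex.ofReal_add, Complex.norm_real, Real.norm_eq_abs, abs_of_nonneg (add_nonneg ha hb)]
  have hpi : f Real.pi = |a - b| := by
    simp only [hf, Complex.exp_pi_mul_I, mul_neg, mul_one]
    rw [← sub_eq_add_neg, ← Complex.ofReal_sub, Complex.norm_real, Real.norm_eq_abs]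
  have hmem : c ∈ Set.Icc (f Real.pi) (f 0) := by
    rw [h0, hpi]
    constructor
    · rw [abs_le]; constructor <;> linarith
    · linarith
  obtain ⟨θ, -, hθ⟩ := intermediate_value_Icc' Real.pi_pos.le hcont.continuousOn hmem
  have hβ : ‖Complex.exp (θ * Complex.I)‖ = 1 := Complex.norm_exp_ofReal_mul_I θ
  rcases eq_or_lt_of_le hc with hc0 | hc0
  · refine ⟨1, Complex.exp (θ * Complex.I), 1, by simp, hβ, by simp, ?_⟩
    have : ‖(a : ℂ) + b * Complex.exp (θ * Complex.I)‖ = 0 := by
      change f θ = 0; rw [hθ, ← hc0]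
    have h1 := norm_eq_zero.1 this
    rw [← hc0]
    simpa using h1
  · refine ⟨1, Complex.exp (θ * Complex.I), -(((a : ℂ) + b * Complex.exp (θ * Complex.I)) / c),
      by simp, hβ, ?_, ?_⟩
    · rw [norm_neg, norm_div]
      change f θ / _ = 1
      rw [hθ, Complex.norm_real, Real.norm_eq_abs, abs_of_pos hc0, div_self hc0.ne']
    · have hcne : (c : ℂ) ≠ 0 := by exact_mod_cast hc0.ne'
      field_simp
      ring

namespace GammaOf

/-- Commutators with an element are controlled by commutators with finitely many unitaries. -/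
lemma com_le_of_unitary (x : M) : ∃ (W : Finset M) (C : ℝ), 0 ≤ C ∧ (∀ w ∈ W, w ∈ unitary M) ∧
    ∀ v : M, nrm (com x v) ≤ C * ∑ w ∈ W, nrm (com w v) := by
  classical
  have hx : x ∈ Submodule.span ℂ (unitary M : Set M) := by
    rw [CStarAlgebra.span_unitary]; trivial
  induction hx using Submodule.span_induction with
  | mem x hx =>
    refine ⟨{x}, 1, zero_le_one, ?_, ?_⟩
    · intro w hw; rw [Finset.mem_singleton] at hw; rw [hw]; exact hx
    · intro v; simp
  | zero => exact ⟨∅, 0, le_rfl, by simp, by simp⟩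
  | add x y _ _ hx hy =>
    obtain ⟨W1, C1, h1, hW1, hv1⟩ := hx
    obtain ⟨W2, C2, h2, hW2, hv2⟩ := hy
    refine ⟨W1 ∪ W2, C1 + C2, add_nonneg h1 h2, ?_, ?_⟩
    · intro w hw
      rcases Finset.mem_union.1 hw with h | h
      · exact hW1 w h
      · exact hW2 w h
    · intro v
      rw [add_com]
      refine (nrm_add_le _ _).trans ?_
      have e1 : ∑ w ∈ W1, nrm (com w v) ≤ ∑ w ∈ W1 ∪ W2, nrm (com w v) :=
        Finset.sum_le_sum_of_subset_of_nonneg Finset.subset_union_left
          (fun _ _ _ => nrm_nonneg _)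
      have e2 : ∑ w ∈ W2, nrm (com w v) ≤ ∑ w ∈ W1 ∪ W2, nrm (com w v) :=
        Finset.sum_le_sum_of_subset_of_nonneg Finset.subset_union_right
          (fun _ _ _ => nrm_nonneg _)
      rw [add_mul]
      exact add_le_add ((hv1 v).trans (mul_le_mul_of_nonneg_left e1 h1))
        ((hv2 v).trans (mul_le_mul_of_nonneg_left e2 h2))
  | smul c x _ hx =>
    obtain ⟨W, C, h, hW, hv⟩ := hx
    refine ⟨W, ‖c‖ * C, mul_nonneg (norm_nonneg _) h, hW, ?_⟩
    intro v
    rw [smul_com, nrm_smul, mul_assoc]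
    exact mul_le_mul_of_nonneg_left (hv v) (norm_nonneg _)

lemma finset_com_le (F : Finset M) : ∃ (W : Finset M) (C : ℝ), 0 ≤ C ∧
    (∀ w ∈ W, w ∈ unitary M) ∧
    ∀ x ∈ F, ∀ v : M, nrm (com x v) ≤ C * ∑ w ∈ W, nrm (com w v) := by
  classical
  induction F using Finset.induction_on with
  | empty => exact ⟨∅, 0, le_rfl, by simp, by simp⟩
  | insert a F _ ih =>
    obtain ⟨W1, C1, h1, hW1, hv1⟩ := com_le_of_unitary a
    obtain ⟨W2, C2, h2, hW2, hv2⟩ := ih
    refine ⟨W1 ∪ W2, C1 + C2, add_nonneg h1 h2, ?_, ?_⟩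
    · intro w hw
      rcases Finset.mem_union.1 hw with h | h
      · exact hW1 w h
      · exact hW2 w h
    · intro x hx v
      have e1 : ∑ w ∈ W1, nrm (com w v) ≤ ∑ w ∈ W1 ∪ W2, nrm (com w v) :=
        Finset.sum_le_sum_of_subset_of_nonneg Finset.subset_union_left
          (fun _ _ _ => nrm_nonneg _)
      have e2 : ∑ w ∈ W2, nrm (com w v) ≤ ∑ w ∈ W1 ∪ W2, nrm (com w v) :=
        Finset.sum_le_sum_of_subset_of_nonneg Finset.subset_union_right
          (fun _ _ _ => nrm_nonneg _)
      have e0 : 0 ≤ ∑ w ∈ W1 ∪ W2, nrm (com w v) := Finset.sum_nonneg (fun _ _ => nrm_nonneg _)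
      rcases Finset.mem_insert.1 hx with rfl | hx
      · refine (hv1 v).trans ((mul_le_mul_of_nonneg_left e1 h1).trans ?_)
        exact mul_le_mul_of_nonneg_right (by linarith) e0
      · refine (hv2 x hx v).trans ((mul_le_mul_of_nonneg_left e2 h2).trans ?_)
        exact mul_le_mul_of_nonneg_right (by linarith) e0

/-- The cross term lemma. -/
lemma nrm_com_add_sq_le {u p e : M} (hu : u ∈ unitary M) (hp : IsStarProjection p)
    (he : IsStarProjection e) (hpe : p * e = 0) :
    nrm (com u (p + e)) ^ 2 ≤ nrm (com u p) ^ 2 + nrm (com u e) ^ 2 := by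
  have h1 : star u * u = 1 := Unitary.star_mul_self_of_mem hu
  have hep : e * p = 0 := by
    have := congrArg star hpe
    rwa [star_mul, proj_star hp, proj_star he, star_zero] at this
  have hp' := conj_proj hu hp
  have he' := conj_proj hu he
  rw [nrm_com_unitary_eq hu, nrm_com_unitary_eq hu, nrm_com_unitary_eq hu]
  set P := u * p * star u with hP
  set E := u * e * star u with hE
  have hPE : u * (p + e) * star u = P + E := by rw [hP, hE]; noncomm_ring
  rw [hPE, nrm_sq_rt, nrm_sq_rt, nrm_sq_rt]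
  have s1 : star (P + E - (p + e)) = P + E - (p + e) := by
    rw [star_sub, star_add, star_add, proj_star hp, proj_star he, proj_star hp', proj_star he']
  have s2 : star (P - p) = P - p := by rw [star_sub, proj_star hp, proj_star hp']
  have s3 : star (E - e) = E - e := by rw [star_sub, proj_star he, proj_star he']
  rw [s1, s2, s3]
  have hPE0 : P * E = 0 := by
    rw [hP, hE]
    calc u * p * star u * (u * e * star u) = u * p * (star u * u) * e * star u := by noncomm_ring
      _ = u * (p * e) * star u := by rw [h1]; noncomm_ring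
      _ = 0 := by rw [hpe]; simp
  have hEP0 : E * P = 0 := by
    have := congrArg star hPE0
    rwa [star_mul, proj_star hp', proj_star he', star_zero] at this
  have ex : (P + E - (p + e)) * (P + E - (p + e))
      = (P - p) * (P - p) + (E - e) * (E - e) + (P * E + E * P) + (p * e + e * p)
        - (P * e + p * E) - (E * p + e * P) := by noncomm_ring
  rw [ex, hPE0, hEP0, hpe, hep]
  simp only [rt_add, rt_sub, add_zero]
  have g1 := rt_proj_mul_proj_nonneg hp' he
  have g2 := rt_proj_mul_proj_nonneg hp he'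
  have g3 := rt_proj_mul_proj_nonneg he' hp
  have g4 := rt_proj_mul_proj_nonneg he hp'
  linarith

omit [TracialVNA M] in
lemma add_proj {p e : M} (hp : IsStarProjection p) (he : IsStarProjection e) (hpe : p * e = 0) :
    IsStarProjection (p + e) := by
  have hep : e * p = 0 := by
    have := congrArg star hpe
    rwa [star_mul, proj_star hp, proj_star he, star_zero] at this
  refine ⟨?_, ?_⟩
  · change (p + e) * (p + e) = p + e
    have : (p + e) * (p + e) = p * p + p * e + e * p + e * e := by noncomm_ring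
    rw [this, hpe, hep, proj_sq hp, proj_sq he]; simp
  · rw [IsSelfAdjoint, star_add, proj_star hp, proj_star he]

/-- Three orthogonal projections of trace at most one half give a trace zero unitary. -/
lemma exists_unitary_three {p e : M} (hp : IsStarProjection p) (he : IsStarProjection e)
    (hpe : p * e = 0) (h1 : rt p ≤ 1 / 2) (h2 : rt e ≤ 1 / 2) (h3 : 1 / 2 ≤ rt p + rt e) :
    ∃ w ∈ unitary M, tau w = 0 ∧
      ∀ u : M, nrm (com u w) ≤ 2 * nrm (com u p) + 2 * nrm (com u e) := by
  have hep : e * p = 0 := by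
    have := congrArg star hpe
    rwa [star_mul, proj_star hp, proj_star he, star_zero] at this
  have hpe' := add_proj hp he hpe
  have hr : IsStarProjection (1 - (p + e)) := hpe'.one_sub
  obtain ⟨α, β, γ, hα, hβ, hγ, habc⟩ := exists_triangle (rt_proj_nonneg hp) (rt_proj_nonneg he)
    (rt_proj_nonneg hr) (by simp) h1 h2 (by simp; linarith)
  set r := 1 - (p + e) with hrdef
  have hpr : p * r = 0 := by rw [hrdef]; rw [mul_sub, mul_add, proj_sq hp, hpe]; simp
  have her : e * r = 0 := by rw [hrdef]; rw [mul_sub, mul_add, proj_sq he, hep]; simp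
  have hrp : r * p = 0 := by rw [hrdef]; rw [sub_mul, add_mul, proj_sq hp, hep]; simp
  have hre : r * e = 0 := by rw [hrdef]; rw [sub_mul, add_mul, proj_sq he, hpe]; simp
  have hnorm : ∀ z : ℂ, ‖z‖ = 1 → conj z * z = 1 ∧ z * conj z = 1 := by
    intro z hz
    have : z * conj z = 1 := by
      rw [Complex.mul_conj, Complex.normSq_eq_norm_sq, hz]; simp
    exact ⟨by rw [mul_comm]; exact this, this⟩
  have hsum : p + e + r = 1 := by rw [hrdef]; abel
  refine ⟨α • p + β • e + γ • r, ?_, ?_, ?_⟩
  · rw [Unitary.mem_iff]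
    have hs : star (α • p + β • e + γ • r) = conj α • p + conj β • e + conj γ • r := by
      rw [star_add, star_add, star_smul, star_smul, star_smul, proj_star hp, proj_star he,
        proj_star hr]; rfl
    rw [hs]
    constructor
    · simp only [add_mul, mul_add, smul_mul_smul_comm, proj_sq hp, proj_sq he, proj_sq hr, hpe, hep,
        hpr, her, hrp, hre, smul_zero, add_zero, zero_add, (hnorm α hα).1, (hnorm β hβ).1,
        (hnorm γ hγ).1, one_smul]
      exact hsum
    · simp only [add_mul, mul_add, smul_mul_smul_comm, proj_sq hp, proj_sq he, proj_sq hr, hpe, hep,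
        hpr, her, hrp, hre, smul_zero, add_zero, zero_add, (hnorm α hα).2, (hnorm β hβ).2,
        (hnorm γ hγ).2, one_smul]
      exact hsum
  · rw [tau_add, tau_add, tau_smul, tau_smul, tau_smul, tau_proj hp, tau_proj he, tau_proj hr]
    rw [← habc]; ring
  · intro u
    have hc : com u (α • p + β • e + γ • r) = (α - γ) • com u p + (β - γ) • com u e := by
      have : com u r = -com u p - com u e := by
        rw [hrdef, com_sub, com_add, com_one]; abel
      rw [com_add, com_add, com_smul, com_smul, com_smul, this, sub_smul, sub_smul, smul_sub,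
        smul_neg]
      abel
    rw [hc]
    refine (nrm_add_le _ _).trans ?_
    rw [nrm_smul, nrm_smul]
    have n1 : ‖α - γ‖ ≤ 2 := (norm_sub_le _ _).trans (by rw [hα, hγ]; norm_num)
    have n2 : ‖β - γ‖ ≤ 2 := (norm_sub_le _ _).trans (by rw [hβ, hγ]; norm_num)
    exact add_le_add (mul_le_mul_of_nonneg_right n1 (nrm_nonneg _))
      (mul_le_mul_of_nonneg_right n2 (nrm_nonneg _))

/-- A projection of trace one half gives a trace zero unitary. -/
lemma exists_unitary_half {p : M} (hp : IsStarProjection p) (h1 : rt p = 1 / 2) :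
    ∃ w ∈ unitary M, tau w = 0 ∧ ∀ u : M, nrm (com u w) ≤ 2 * nrm (com u p) := by
  obtain ⟨w, hw, h0, h⟩ := exists_unitary_three hp (IsStarProjection.zero (R := M)) (by simp)
    h1.le (by simp) (by simp [h1])
  exact ⟨w, hw, h0, fun u => by simpa using h u⟩

/-- Increasing sequences of projections converge. -/
lemma exists_lim_proj {p : ℕ → M} (hp : ∀ n, IsStarProjection (p n))
    (hmono : ∀ n, p (n + 1) * p n = p n) :
    ∃ q : M, IsStarProjection q ∧ (∀ n, q * p n = p n) ∧ Lim2 p q := by
  have hle : ∀ n k, p (n + k) * p n = p n := by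
    intro n k
    induction k with
    | zero => exact proj_sq (hp n)
    | succ k ih =>
      calc p (n + (k + 1)) * p n = p (n + k + 1) * (p (n + k) * p n) := by rw [ih]; rfl
        _ = (p (n + k + 1) * p (n + k)) * p n := by rw [mul_assoc]
        _ = p n := by rw [hmono, ih]
  have hle' : ∀ n m, n ≤ m → p m * p n = p n := by
    intro n m h
    obtain ⟨k, rfl⟩ := Nat.exists_eq_add_of_le h
    exact hle n k
  have hle2 : ∀ n m, n ≤ m → p n * p m = p n := by
    intro n m h
    have := congrArg star (hle' n m h)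
    rwa [star_mul, proj_star (hp n), proj_star (hp m)] at this
  have hrt : Monotone (fun n => rt (p n)) := by
    intro n m h
    exact rt_mono_proj (hp n) (hp m) (hle' n m h)
  have hdiff : ∀ n m, n ≤ m → nrm (p m - p n) ^ 2 = rt (p m) - rt (p n) := by
    intro n m h
    rw [nrm_sq_rt, star_sub, proj_star (hp m), proj_star (hp n)]
    have : (p m - p n) * (p m - p n) = p m - p n := by
      have e : (p m - p n) * (p m - p n) = p m * p m - p m * p n - p n * p m + p n * p n := by
        noncomm_ring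
      rw [e, proj_sq (hp m), proj_sq (hp n), hle' n m h, hle2 n m h]; abel
    rw [this, rt_sub]
  have hbdd : BddAbove (Set.range (fun n => rt (p n))) := by
    refine ⟨1, ?_⟩
    rintro _ ⟨n, rfl⟩
    exact rt_proj_le_one (hp n)
  have hconv := tendsto_atTop_ciSup hrt hbdd
  have hcau := hconv.cauchySeq
  rw [Metric.cauchySeq_iff'] at hcau
  obtain ⟨q, -, hq⟩ := exists_lim2 (u := p) (C := 1) (fun n => norm_proj_le (hp n)) (by
    intro ε hε
    obtain ⟨K, hK⟩ := hcau ((ε / 2) ^ 2) (by positivity)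
    refine ⟨K, ?_⟩
    have key : ∀ m ≥ K, nrm (p m - p K) < ε / 2 := by
      intro m hm
      have h1 := hK m hm
      rw [Real.dist_eq] at h1
      have h2 := (abs_lt.1 h1).2
      have h3 := hdiff K m hm
      exact lt_of_pow_lt_pow_left₀ 2 (by positivity) (by linarith)
    intro m hm n hn
    have h1 := key m hm
    have h2 := key n hn
    have h3 := nrm_sub_le_add (p m) (p K) (p n)
    rw [nrm_sub_comm (p K)] at h3
    linarith)
  refine ⟨q, ⟨?_, ?_⟩, ?_, hq⟩
  · change q * q = q
    have h1 : Lim2 (fun n => p n * p n) (q * q) :=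
      Lim2.mul (C := 1) (fun n => norm_proj_le (hp n)) hq hq
    have h2 : Lim2 (fun n => p n * p n) q := hq.congr (fun n => (proj_sq (hp n)).symm)
    exact h1.unique h2
  · rw [IsSelfAdjoint]
    have h2 : Lim2 (fun n => star (p n)) q := hq.congr (fun n => (proj_star (hp n)).symm)
    exact hq.star.unique h2
  · intro n
    have hshift : Lim2 (fun m => p (m + n)) q := by
      unfold Lim2 at hq ⊢
      exact (tendsto_add_atTop_iff_nat (f := fun m => nrm (p m - q)) n).2 hq
    have h1 := hshift.mul_const (p n)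
    have h2 : Lim2 (fun m => p (m + n) * p n) (p n) :=
      (Lim2.const (p n)).congr (fun m => (hle' n (m + n) (Nat.le_add_left n m)).symm)
    exact h1.unique h2

/-- The main step, for finite sets of unitaries. -/
lemma exists_unitary (hM : IsII1Factor M)
    (H : ∀ F : Finset M, (∀ u ∈ F, u ∈ unitary M) → ∀ δ : ℝ, 0 < δ →
      ∃ e : M, IsStarProjection e ∧ e ≠ 0 ∧ rt e ≤ 1 / 2 ∧
        ∑ u ∈ F, nrm (com u e) ^ 2 ≤ δ * rt e)
    (F : Finset M) (hF : ∀ u ∈ F, u ∈ unitary M) {ε : ℝ} (hε : 0 < ε) :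
    ∃ w ∈ unitary M, tau w = 0 ∧ ∑ u ∈ F, nrm (com u w) ^ 2 ≤ 8 * ε := by
  by_contra hno
  push Not at hno
  -- good projections
  let Good : M → Prop := fun p => IsStarProjection p ∧
    ∑ u ∈ F, nrm (com u p) ^ 2 ≤ ε * rt p ∧ rt p ≤ 1 / 2
  -- extension
  have hext : ∀ p, Good p → rt p < 1 / 2 → ∃ q, Good q ∧ q * p = p ∧ rt p < rt q := by
    rintro p ⟨hp, hpF, -⟩ hp2
    obtain ⟨e, he, he0, hpe, he2, heF⟩ := exists_cut_down hM H F hF hε hp hpF hp2
    have hep : e * p = 0 := by
      have := congrArg star hpe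
      rwa [star_mul, proj_star hp, proj_star he, star_zero] at this
    have hlt : rt p + rt e ≤ 1 / 2 := by
      by_contra hcon
      push Not at hcon
      obtain ⟨w, hw, hw0, hwu⟩ := exists_unitary_three hp he hpe hp2.le he2 hcon.le
      have h1 := hno w hw hw0
      have h2 : ∑ u ∈ F, nrm (com u w) ^ 2
          ≤ ∑ u ∈ F, (8 * nrm (com u p) ^ 2 + 8 * nrm (com u e) ^ 2) := by
        refine Finset.sum_le_sum (fun u _ => ?_)
        have h3 := hwu u
        have h4 := nrm_nonneg (com u w)
        have h5 := nrm_nonneg (com u p)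
        have h6 := nrm_nonneg (com u e)
        have h7 : nrm (com u w) ^ 2 ≤ (2 * nrm (com u p) + 2 * nrm (com u e)) ^ 2 :=
          pow_le_pow_left₀ h4 h3 2
        nlinarith [sq_nonneg (nrm (com u p) - nrm (com u e))]
      rw [Finset.sum_add_distrib, ← Finset.mul_sum, ← Finset.mul_sum] at h2
      have h3 : rt p + rt e ≤ 1 := by linarith
      nlinarith
    refine ⟨p + e, ⟨add_proj hp he hpe, ?_, ?_⟩, ?_, ?_⟩
    · have h1 : ∑ u ∈ F, nrm (com u (p + e)) ^ 2
          ≤ ∑ u ∈ F, (nrm (com u p) ^ 2 + nrm (com u e) ^ 2) :=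
        Finset.sum_le_sum (fun u hu => nrm_com_add_sq_le (hF u hu) hp he hpe)
      rw [Finset.sum_add_distrib] at h1
      rw [rt_add, mul_add]
      linarith
    · rw [rt_add]; exact hlt
    · rw [add_mul, proj_sq hp, hep, add_zero]
    · rw [rt_add]
      have := rt_proj_pos he he0
      linarith
  -- the supremum
  let A : M → Set ℝ := fun p => {t | ∃ q, Good q ∧ q * p = p ∧ rt q = t}
  have hAbdd : ∀ p, BddAbove (A p) := by
    intro p
    refine ⟨1 / 2, ?_⟩
    rintro t ⟨q, hq, -, rfl⟩
    exact hq.2.2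
  have hchoose : ∀ (p : M) (n : ℕ), Good p →
      ∃ q, Good q ∧ q * p = p ∧ sSup (A p) - 1 / ((n : ℝ) + 1) < rt q := by
    intro p n hp
    have hne : (A p).Nonempty := ⟨rt p, p, hp, proj_sq hp.1, rfl⟩
    have hlt : sSup (A p) - 1 / ((n : ℝ) + 1) < sSup (A p) := by
      have : (0 : ℝ) < 1 / ((n : ℝ) + 1) := by positivity
      linarith
    obtain ⟨t, ⟨q, hq, hqp, rfl⟩, ht⟩ := exists_lt_of_lt_csSup hne hlt
    exact ⟨q, hq, hqp, ht⟩
  have hgood0 : Good 0 := ⟨IsStarProjection.zero (R := M), by simp, by simp⟩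
  choose! nxt hnxt1 hnxt2 hnxt3 using hchoose
  let s : ℕ → M := fun n => Nat.rec 0 (fun k q => nxt q k) n
  have hs0 : s 0 = 0 := rfl
  have hss : ∀ n, s (n + 1) = nxt (s n) n := fun n => rfl
  have hsgood : ∀ n, Good (s n) := by
    intro n
    induction n with
    | zero => exact hgood0
    | succ k ih => rw [hss]; exact hnxt1 _ _ ih
  obtain ⟨q, hq, hqs, hlim⟩ := exists_lim_proj (p := s) (fun n => (hsgood n).1)
    (fun n => by rw [hss]; exact hnxt2 _ _ (hsgood n))
  have hrtlim : Tendsto (fun n => rt (s n)) atTop (𝓝 (rt q)) :=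
    (Complex.continuous_re.tendsto _).comp hlim.tau
  have hqgood : Good q := by
    refine ⟨hq, ?_, ?_⟩
    · have h1 : Tendsto (fun n => ∑ u ∈ F, nrm (com u (s n)) ^ 2) atTop
          (𝓝 (∑ u ∈ F, nrm (com u q) ^ 2)) := by
        refine tendsto_finsetSum _ (fun u _ => ?_)
        have h2 : Lim2 (fun n => com u (s n)) (com u q) :=
          (hlim.const_mul u).sub (hlim.mul_const u)
        exact h2.nrm.pow 2
      exact le_of_tendsto_of_tendsto' h1 (hrtlim.const_mul ε) (fun n => (hsgood n).2.1)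
    · exact le_of_tendsto' hrtlim (fun n => (hsgood n).2.2)
  rcases lt_or_eq_of_le hqgood.2.2 with hlt | heq
  · obtain ⟨q', hq', hqq', hrt⟩ := hext q hqgood hlt
    have hkey : ∀ n : ℕ, rt q' - 1 / ((n : ℝ) + 1) ≤ rt q := by
      intro n
      have h1 : rt q' ≤ sSup (A (s n)) := by
        refine le_csSup (hAbdd _) ⟨q', hq', ?_, rfl⟩
        calc q' * s n = q' * (q * s n) := by rw [hqs]
          _ = (q' * q) * s n := by rw [mul_assoc]
          _ = s n := by rw [hqq', hqs]
      have h2 := hnxt3 (s n) n (hsgood n)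
      rw [← hss] at h2
      have h3 : rt (s (n + 1)) ≤ rt q := rt_mono_proj (hsgood (n + 1)).1 hq (hqs (n + 1))
      linarith
    have h4 : Tendsto (fun n : ℕ => rt q' - 1 / ((n : ℝ) + 1)) atTop (𝓝 (rt q' - 0)) :=
      tendsto_const_nhds.sub tendsto_one_div_add_atTop_nhds_zero_nat
    have h5 : rt q' - 0 ≤ rt q := le_of_tendsto' h4 hkey
    linarith
  · obtain ⟨w, hw, hw0, hwu⟩ := exists_unitary_half hq heq
    have h1 := hno w hw hw0
    have h2 : ∑ u ∈ F, nrm (com u w) ^ 2 ≤ ∑ u ∈ F, 4 * nrm (com u q) ^ 2 := by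
      refine Finset.sum_le_sum (fun u _ => ?_)
      have h7 : nrm (com u w) ^ 2 ≤ (2 * nrm (com u q)) ^ 2 :=
        pow_le_pow_left₀ (nrm_nonneg _) (hwu u) 2
      linarith
    rw [← Finset.mul_sum] at h2
    have h3 := hqgood.2.1
    rw [heq] at h3
    linarith

end GammaOf

open GammaOf in
/-- Sketch: for orthogonal projections `p, e` and unitary `u`,
`nrm (com u (p+e))^2 ≤ nrm (com u p)^2 + nrm (com u e)^2` (the cross term is
`-rt(u p u* e) - rt(p u e u*) ≤ 0`). Suppose there is no good trace zero unitary. Then for every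
projection `p` with `∑ nrm(com u p)^2 ≤ ε rt p`, `rt p < 1/2` the `e` of `exists_cut_down` has
`rt p + rt e ≤ 1/2` (otherwise `p, e, 1-p-e` have traces at most `1/2` and
`α p + β e + γ (1-p-e)` with `exists_triangle` is a trace zero unitary), so `p + e` is again of
this kind. Exhaustion (choose `e` with trace at least half the supremum) and 2-norm limits give a
`p` with `rt p = 1/2`; use `2p - 1`. Arbitrary finite `F ⊆ M` reduces to unitaries by
`CStarAlgebra.span_unitary`. -/
theorem gamma_of_almost_central (hM : IsII1Factor M)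
    (H : ∀ F : Finset M, (∀ u ∈ F, u ∈ unitary M) → ∀ δ : ℝ, 0 < δ →
      ∃ e : M, IsStarProjection e ∧ e ≠ 0 ∧ rt e ≤ 1 / 2 ∧
        ∑ u ∈ F, nrm (com u e) ^ 2 ≤ δ * rt e) : HasGamma M := by
  intro F ε hε
  obtain ⟨W, C, hC, hW, hv⟩ := finset_com_le F
  set η : ℝ := ε / (2 * ((C + 1) * ((W.card : ℝ) + 1))) with hη
  have hηpos : 0 < η := by positivity
  obtain ⟨w, hw, hw0, hwW⟩ := exists_unitary hM H W hW (ε := η ^ 2 / 8) (by positivity)
  refine ⟨w, hw, hw0, fun x hx => ?_⟩
  have hwW' : ∑ u ∈ W, nrm (com u w) ^ 2 ≤ η ^ 2 := by linarith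
  have h1 : ∀ u ∈ W, nrm (com u w) ≤ η := by
    intro u hu
    have h2 : nrm (com u w) ^ 2 ≤ ∑ u ∈ W, nrm (com u w) ^ 2 :=
      Finset.single_le_sum (f := fun u => nrm (com u w) ^ 2) (fun _ _ => sq_nonneg _) hu
    exact le_of_sq_le_sq (h2.trans hwW') hηpos.le
  have h2 : ∑ u ∈ W, nrm (com u w) ≤ W.card * η := by
    calc ∑ u ∈ W, nrm (com u w) ≤ ∑ u ∈ W, η := Finset.sum_le_sum h1
      _ = W.card * η := by rw [Finset.sum_const, nsmul_eq_mul]
  have h3 : nrm (com x w) ≤ C * (W.card * η) :=
    (hv x hx w).trans (mul_le_mul_of_nonneg_left h2 hC)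
  have h4 : C * (W.card * η) < ε := by
    have h5 : C * (W.card * η) ≤ (C + 1) * (((W.card : ℝ) + 1) * η) := by
      have : (0 : ℝ) ≤ W.card := Nat.cast_nonneg _
      gcongr <;> linarith
    have h6 : (C + 1) * (((W.card : ℝ) + 1) * η) = ε / 2 := by
      rw [hη]; field_simp
    linarith
  exact lt_of_le_of_lt h3 h4

end Pool.Agent.McDuffR
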