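import Pool.Agent.MP_af2a1c_lc.PS
import Pool.Agent.MP_af2a1c_lc.GammaOf

/-! Task T6: II_1 factors without property Gamma have spectral gap. -/

namespace Pool.Agent.McDuffR

open Filter Topology ComplexConjugate

variable {M : Type*} [CStarAlgebra M] [TracialVNA M]

theorem spectral_gap (hM : IsII1Factor M) (hG : ¬ HasGamma M) :
    ∃ (F : Finset M) (C : ℝ), 0 ≤ C ∧ (∀ u ∈ F, u ∈ unitary M) ∧
      ∀ ξ : M, nrm (ξ - (tau ξ) • (1 : M)) ≤ C * ∑ u ∈ F, nrm (com u ξ) := by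
  have h1 : ∃ F : Finset M, (∀ u ∈ F, u ∈ unitary M) ∧ ∃ δ : ℝ, 0 < δ ∧
      ¬ ∃ e : M, IsStarProjection e ∧ e ≠ 0 ∧ rt e ≤ 1 / 2 ∧
        ∑ u ∈ F, nrm (com u e) ^ 2 ≤ δ * rt e := by
    by_contra hcon
    apply hG
    apply gamma_of_almost_central hM
    intro F hF δ hδ
    by_contra hne
    exact hcon ⟨F, hF, δ, hδ, hne⟩
  obtain ⟨F, hF, δ, hδ, hne⟩ := h1
  obtain ⟨κ, hκ, hκ'⟩ := exists_almost_central_proj F hF hδ
  refine ⟨F, κ⁻¹, by positivity, hF, fun ξ => ?_⟩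
  set ζ : M := ξ - (tau ξ) • (1 : M) with hζ
  have hζ0 : tau ζ = 0 := by simp [hζ]
  have hcom : ∀ u : M, com u ζ = com u ξ := by
    intro u
    rw [hζ, com_sub, com_smul, com_one, smul_zero, sub_zero]
  by_cases hz : ζ = 0
  · rw [hz, nrm_zero]
    have : 0 ≤ ∑ u ∈ F, nrm (com u ξ) := Finset.sum_nonneg fun u _ => nrm_nonneg _
    positivity
  · by_contra hlt
    apply hne
    apply hκ' ζ hz hζ0
    have : ∑ u ∈ F, nrm (com u ζ) = ∑ u ∈ F, nrm (com u ξ) :=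
      Finset.sum_congr rfl fun u _ => by rw [hcom u]
    rw [this]
    have h2 : κ⁻¹ * ∑ u ∈ F, nrm (com u ξ) < nrm ζ := not_le.mp hlt
    have h3 : κ * (κ⁻¹ * ∑ u ∈ F, nrm (com u ξ)) ≤ κ * nrm ζ :=
      mul_le_mul_of_nonneg_left h2.le hκ.le
    rwa [← mul_assoc, mul_inv_cancel₀ hκ.ne', one_mul] at h3

end Pool.Agent.McDuffR
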