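import Pool.Agent.MP_af2a1c_lc.Comparison
import Pool.Agent.MP_af2a1c_lc.Cut

/-! Task T2c: halving of projections in a II_1 factor. -/

namespace Pool.Agent.McDuffR

open Filter Topology ComplexConjugate

variable {M : Type*} [CStarAlgebra M] [TracialVNA M]

namespace Halving

/-- an element whose `star c * c` has zero real trace vanishes. -/
lemma eq_zero_of_rt {c : M} (h : rt (star c * c) = 0) : c = 0 := by
  rw [← nrm_sq_rt] at h
  exact nrm_eq_zero.1 (by simpa using h)

omit [TracialVNA M] in
lemma eq_zero_of_star_mul_self {c : M} (h : star c * c = 0) : c = 0 := by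
  have := CStarRing.norm_star_mul_self (x := c)
  rw [h, norm_zero] at this
  exact norm_eq_zero.1 (by nlinarith [norm_nonneg c])

/-- self-adjoint elements under a minimal projection are scalars. -/
lemma scalar_of_minimal {p : M} (hp : IsStarProjection p) (hp0 : p ≠ 0)
    (hmin : ∀ q : M, IsStarProjection q → p * q = q → q = 0 ∨ q = p)
    {x : M} (hx : IsSelfAdjoint x) (hpx : p * x = x) : ∃ c : ℂ, x = c • p := by
  have hxp : x * p = x := by
    have := congrArg star hpx
    rwa [star_mul, proj_star hp, hx.star_eq] at this
  have hrp : 0 < rt p := rt_proj_pos hp hp0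
  -- no zero divisors
  have hnzd : ∀ a b : M, a * p = a → a ≠ 0 → a * b = 0 → p * b = 0 := by
    intro a b hap ha hab
    obtain ⟨e, he, hae, hea, _⟩ := exists_support a
    have h1 : a * (1 - p) = 0 := by rw [mul_sub, mul_one, hap, sub_self]
    have h2 : e * (1 - p) = 0 := hea _ h1
    have h3 : e * p = e := by rw [mul_sub, mul_one, sub_eq_zero] at h2; exact h2.symm
    have h4 : p * e = e := by
      have := congrArg star h3
      rwa [star_mul, proj_star hp, proj_star he] at this
    rcases hmin e he h4 with h5 | h5
    · exfalso; apply ha; rw [← hae, h5, mul_zero]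
    · rw [← h5]; exact hea _ hab
  set s : ℝ := rt x / rt p with hs
  set y : M := x - s • p with hy
  have hysa : IsSelfAdjoint y := by
    rw [hy]
    apply hx.sub
    rw [IsSelfAdjoint, star_smul, proj_star hp]; simp
  have hyp : y * p = y := by
    rw [hy, sub_mul, hxp, smul_mul_assoc, proj_sq hp]
  have hrty : rt y = 0 := by
    rw [hy, rt_sub, rt_rsmul, hs]; field_simp; ring
  have hposneg : y⁺ - y⁻ = y := CFC.posPart_sub_negPart y hysa
  have hmul : y⁺ * y⁻ = 0 := CFC.posPart_mul_negPart y
  have hsap : star (y⁺) = y⁺ := by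
    let _ := CStarAlgebra.spectralOrder M
    have := CStarAlgebra.spectralOrderedRing M
    exact (IsSelfAdjoint.of_nonneg (CFC.posPart_nonneg y)).star_eq
  have hsan : star (y⁻) = y⁻ := by
    let _ := CStarAlgebra.spectralOrder M
    have := CStarAlgebra.spectralOrderedRing M
    exact (IsSelfAdjoint.of_nonneg (CFC.negPart_nonneg y)).star_eq
  have hmul' : y⁻ * y⁺ = 0 := by
    have := congrArg star hmul
    rwa [star_mul, hsap, hsan, star_zero] at this
  have hyp0 : y * (1 - p) = 0 := by rw [mul_sub, mul_one, hyp, sub_self]
  have hpp : y⁺ * (1 - p) = 0 := by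
    apply eq_zero_of_star_mul_self
    rw [star_mul, hsap]
    have h1 : y⁺ * y⁺ = y⁺ * y := by
      have h2 : y⁺ * y = y⁺ * (y⁺ - y⁻) := by rw [hposneg]
      rw [h2, mul_sub, hmul, sub_zero]
    calc star (1 - p) * y⁺ * (y⁺ * (1 - p)) = star (1 - p) * ((y⁺ * y⁺) * (1 - p)) := by
          noncomm_ring
      _ = star (1 - p) * (y⁺ * (y * (1 - p))) := by rw [h1]; noncomm_ring
      _ = 0 := by rw [hyp0]; noncomm_ring
  have hnn : y⁻ * (1 - p) = 0 := by
    have : y⁻ = y⁺ - y := by
      have h2 : y⁺ - (y⁺ - y⁻) = y⁻ := by abel
      rw [hposneg] at h2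
      exact h2.symm
    rw [this, sub_mul, hpp, hyp0, sub_zero]
  have hpp' : y⁺ * p = y⁺ := by rw [mul_sub, mul_one, sub_eq_zero] at hpp; exact hpp.symm
  have hnn' : y⁻ * p = y⁻ := by rw [mul_sub, mul_one, sub_eq_zero] at hnn; exact hnn.symm
  have hnn'' : p * y⁻ = y⁻ := by
    have := congrArg star hnn'
    rwa [star_mul, proj_star hp, hsan] at this
  have hzero_of_nonneg : ∀ a : M, (∃ c, a = star c * c) → rt a = 0 → a = 0 := by
    rintro a ⟨c, rfl⟩ h
    rw [eq_zero_of_rt h]; simp
  have hy0 : y = 0 := by
    by_cases hplus : y⁺ = 0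
    · have h1 : y⁻ = 0 := by
        apply hzero_of_nonneg
        · let _ := CStarAlgebra.spectralOrder M
          have := CStarAlgebra.spectralOrderedRing M
          exact CStarAlgebra.nonneg_iff_eq_star_mul_self.1 (CFC.negPart_nonneg y)
        · have h2 : y⁻ = -y := by
            have h3 := hposneg
            rw [hplus, zero_sub] at h3
            exact neg_eq_iff_eq_neg.1 h3
          rw [h2, rt_neg, hrty, neg_zero]
      rw [← hposneg, hplus, h1, sub_zero]
    · have h1 : p * y⁻ = 0 := hnzd _ _ hpp' hplus hmul
      rw [hnn''] at h1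
      have h2 : y⁺ = 0 := by
        apply hzero_of_nonneg
        · let _ := CStarAlgebra.spectralOrder M
          have := CStarAlgebra.spectralOrderedRing M
          exact CStarAlgebra.nonneg_iff_eq_star_mul_self.1 (CFC.posPart_nonneg y)
        · have h2 : y⁺ = y := by
            have h3 := hposneg
            rw [h1, sub_zero] at h3
            exact h3
          rw [h2, hrty]
      exact absurd h2 hplus
  refine ⟨(s : ℂ), ?_⟩
  rw [hy, sub_eq_zero] at hy0
  rw [hy0, Complex.coe_smul]

lemma compress_scalar {p : M} (hp : IsStarProjection p) (hp0 : p ≠ 0)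
    (hmin : ∀ q : M, IsStarProjection q → p * q = q → q = 0 ∨ q = p)
    (x : M) : ∃ c : ℂ, p * x * p = c • p := by
  have key : ∀ z : M, IsSelfAdjoint z → ∃ c : ℂ, p * z * p = c • p := by
    intro z hz
    apply scalar_of_minimal hp hp0 hmin
    · rw [IsSelfAdjoint, star_mul, star_mul, proj_star hp, hz.star_eq, mul_assoc]
    · rw [← mul_assoc, ← mul_assoc, proj_sq hp]
  obtain ⟨a, ha⟩ := key _ (realPart x).2
  obtain ⟨b, hb⟩ := key _ (imaginaryPart x).2
  refine ⟨a + Complex.I * b, ?_⟩
  have hx : x = (realPart x : M) + Complex.I • (imaginaryPart x : M) :=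
    (realPart_add_I_smul_imaginaryPart x).symm
  conv_lhs => rw [hx]
  rw [mul_add, add_mul, mul_smul_comm, smul_mul_assoc, ha, hb, smul_smul, add_smul]

omit [TracialVNA M] in
/-- `v * p = v` if `star v * v = p`. -/
lemma mul_of_star_mul {v p : M} (hp : IsStarProjection p) (h : star v * v = p) : v * p = v := by
  subst h
  exact mul_star_mul_self_of_proj hp

theorem exists_proper_subproj' (hM : IsII1Factor M) {p : M} (hp : IsStarProjection p)
    (hp0 : p ≠ 0) : ∃ q : M, IsStarProjection q ∧ p * q = q ∧ q ≠ 0 ∧ q ≠ p := by
  classical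
  by_contra hcon
  push Not at hcon
  have hmin : ∀ q : M, IsStarProjection q → p * q = q → q = 0 ∨ q = p := by
    intro q hq hpq
    by_cases h0 : q = 0
    · exact Or.inl h0
    · exact Or.inr (hcon q hq hpq h0)
  have hrp : 0 < rt p := rt_proj_pos hp hp0
  -- families of orthogonal copies
  let Fam : ℕ → Prop := fun n => ∃ v : Fin n → M, (∀ i, star (v i) * v i = p) ∧
    (∀ i j, i ≠ j → star (v i) * v j = 0)
  have hsumproj : ∀ (n : ℕ) (v : Fin n → M), (∀ i, star (v i) * v i = p) →
      (∀ i j, i ≠ j → star (v i) * v j = 0) → IsStarProjection (∑ i, v i * star (v i)) := by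
    intro n v h1 h2
    constructor
    · change (∑ i, v i * star (v i)) * (∑ i, v i * star (v i)) = ∑ i, v i * star (v i)
      rw [Finset.sum_mul]
      refine Finset.sum_congr rfl (fun i _ => ?_)
      rw [Finset.mul_sum, Finset.sum_eq_single i]
      · calc v i * star (v i) * (v i * star (v i)) = v i * (star (v i) * v i) * star (v i) := by
              noncomm_ring
          _ = v i * star (v i) := by rw [h1, mul_of_star_mul hp (h1 i)]
      · intro j _ hj
        calc v i * star (v i) * (v j * star (v j)) = v i * (star (v i) * v j) * star (v j) := by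
              noncomm_ring
          _ = 0 := by rw [h2 i j (Ne.symm hj)]; simp
      · simp
    · rw [IsSelfAdjoint, star_sum]
      refine Finset.sum_congr rfl (fun i _ => ?_)
      rw [star_mul, star_star]
  have hbd : ∀ n, Fam n → (n : ℝ) ≤ 1 / rt p := by
    rintro n ⟨v, h1, h2⟩
    have h3 := rt_proj_le_one (hsumproj n v h1 h2)
    rw [rt_sum] at h3
    have h4 : ∀ i ∈ (Finset.univ : Finset (Fin n)), rt (v i * star (v i)) = rt p := by
      intro i _; rw [rt_comm, h1]
    rw [Finset.sum_congr rfl h4, Finset.sum_const, Finset.card_univ, Fintype.card_fin,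
      nsmul_eq_mul] at h3
    rw [le_div_iff₀ hrp]; exact h3
  obtain ⟨n, hn, hmax⟩ : ∃ n, Fam n ∧ ¬ Fam (n + 1) := by
    by_contra hcon2
    push Not at hcon2
    have hall : ∀ n, Fam n := by
      intro n
      induction n with
      | zero => exact ⟨fun i => i.elim0, fun i => i.elim0, fun i => i.elim0⟩
      | succ n ih => exact hcon2 n ih
    obtain ⟨N, hN⟩ := exists_nat_gt (1 / rt p)
    exact absurd (hbd N (hall N)) (not_le.2 hN)
  obtain ⟨v, h1, h2⟩ := hn
  set P : M := ∑ i, v i * star (v i) with hPdef
  have hP : IsStarProjection P := hsumproj n v h1 h2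
  have hPv : ∀ i, P * v i = v i := by
    intro i
    rw [hPdef, Finset.sum_mul, Finset.sum_eq_single i]
    · rw [mul_assoc, h1, mul_of_star_mul hp (h1 i)]
    · intro j _ hj
      rw [mul_assoc, h2 j i hj, mul_zero]
    · simp
  have hQ : IsStarProjection (1 - P) := hP.one_sub
  -- no copy of p under 1 - P
  have hno : ¬ Subeq p (1 - P) := by
    rintro ⟨w, hw, hQw⟩
    apply hmax
    have hvw : ∀ i, star (v i) * w = 0 := by
      intro i
      have h3 : star (v i) * P = star (v i) := by
        have := congrArg star (hPv i)
        rwa [star_mul, proj_star hP] at this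
      have h4 : P * w = 0 := by
        rw [sub_mul, one_mul, sub_eq_self] at hQw; exact hQw
      rw [← h3, mul_assoc, h4, mul_zero]
    have hwv : ∀ i, star w * v i = 0 := by
      intro i
      have := congrArg star (hvw i)
      rwa [star_mul, star_star, star_zero] at this
    refine ⟨Fin.snoc v w, ?_, ?_⟩
    · intro i
      refine Fin.lastCases ?_ (fun i => ?_) i
      · simpa using hw
      · simpa using h1 i
    · intro i j
      refine Fin.lastCases ?_ (fun i => ?_) i
      · refine Fin.lastCases ?_ (fun j => ?_) j
        · intro h; exact absurd rfl h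
        · intro _; simpa using hwv j
      · refine Fin.lastCases ?_ (fun j => ?_) j
        · intro _; simpa using hvw i
        · intro h
          have : i ≠ j := fun h' => h (by rw [h'])
          simpa using h2 i j this
  have hPone : P = 1 := by
    rcases comparison hM hp hQ with h | ⟨w, hw, hpw⟩
    · exact absurd h hno
    · have hwp : IsStarProjection (w * star w) := proj_mul_star_of_proj (by rw [hw]; exact hQ)
      rcases hmin (w * star w) hwp (by rw [← mul_assoc, hpw]) with h | h
      · have h3 : star w = 0 := by
          apply eq_zero_of_star_mul_self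
          rw [star_star, h]
        have h4 : w = 0 := by simpa using congrArg star h3
        rw [h4] at hw
        simp only [star_zero, mul_zero] at hw
        exact (sub_eq_zero.1 hw.symm).symm
      · exfalso
        apply hno
        refine ⟨star w, by rw [star_star, h], ?_⟩
        have := mul_of_star_mul hQ hw
        have := congrArg star this
        rwa [star_mul, proj_star hQ] at this
  -- M is spanned by the v i * star (v j)
  apply hM.infinite
  have hspan : ∀ x : M, x ∈ Submodule.span ℂ
      (Set.range (fun ij : Fin n × Fin n => v ij.1 * star (v ij.2))) := by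
    intro x
    have hx : x = ∑ i, ∑ j, v i * (star (v i) * x * v j) * star (v j) := by
      calc x = P * x * P := by rw [hPone]; simp
        _ = _ := by
          rw [hPdef, Finset.sum_mul, Finset.sum_mul]
          refine Finset.sum_congr rfl (fun i _ => ?_)
          rw [Finset.mul_sum]
          refine Finset.sum_congr rfl (fun j _ => ?_)
          noncomm_ring
    rw [hx]
    refine Submodule.sum_mem _ (fun i _ => Submodule.sum_mem _ (fun j _ => ?_))
    obtain ⟨c, hc⟩ := compress_scalar hp hp0 hmin (star (v i) * x * v j)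
    have h3 : p * star (v i) = star (v i) := by
      have := congrArg star (mul_of_star_mul hp (h1 i))
      rwa [star_mul, proj_star hp] at this
    have h4 : p * (star (v i) * x * v j) * p = star (v i) * x * v j := by
      calc p * (star (v i) * x * v j) * p = (p * star (v i)) * x * (v j * p) := by noncomm_ring
        _ = _ := by rw [h3, mul_of_star_mul hp (h1 j)]
    rw [h4] at hc
    rw [hc, mul_smul_comm, smul_mul_assoc, mul_of_star_mul hp (h1 i)]
    exact Submodule.smul_mem _ _ (Submodule.subset_span ⟨(i, j), rfl⟩)
  have htop : Submodule.span ℂ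
      (Set.range (fun ij : Fin n × Fin n => v ij.1 * star (v ij.2))) = ⊤ :=
    eq_top_iff.2 (fun x _ => hspan x)
  exact Module.finite_def.2 (htop ▸ Submodule.fg_span (Set.finite_range _))

/-! ### exhaustion -/

/-- `w` is a partial isometry with orthogonal initial and final projections under `r`. -/
def Under (r w : M) : Prop :=
  IsStarProjection (star w * w) ∧ w * w = 0 ∧ r * w = w ∧ w * r = w

/-- the remainder. -/
def rem (r w : M) : M := r - star w * w - w * star w

omit [TracialVNA M] in
lemma Under.zero (r : M) : Under r 0 := by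
  refine ⟨by simp, ?_, ?_, ?_⟩ <;> simp

omit [TracialVNA M] in
lemma Under.norm_le {r w : M} (h : Under r w) : ‖w‖ ≤ 1 := by
  have h1 : ‖w‖ * ‖w‖ ≤ 1 := by
    rw [← CStarRing.norm_star_mul_self]; exact norm_proj_le h.1
  nlinarith [norm_nonneg w]

section

variable {r v w : M}

omit [TracialVNA M] in
lemma Under.vvv (h : Under r v) : v * (star v * v) = v := mul_star_mul_self_of_proj h.1

omit [TracialVNA M] in
lemma Under.rem_mul (h : Under r v) : rem r v * v = 0 := by
  have h1 := h.vvv
  calc (r - star v * v - v * star v) * v = r * v - star v * (v * v) - v * (star v * v) := by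
        noncomm_ring
    _ = 0 := by rw [h.2.1, h.2.2.1, h1]; simp

omit [TracialVNA M] in
lemma Under.mul_rem (h : Under r v) : v * rem r v = 0 := by
  have h1 := h.vvv
  calc v * (r - star v * v - v * star v) = v * r - v * (star v * v) - (v * v) * star v := by
        noncomm_ring
    _ = 0 := by rw [h.2.1, h.2.2.2, h1]; simp

omit [TracialVNA M] in
lemma rem_star (hr : IsStarProjection r) : star (rem r v) = rem r v := by
  unfold rem
  rw [star_sub, star_sub, star_mul, star_mul, star_star, proj_star hr]

omit [TracialVNA M] in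
lemma Under.rem_mul_star (hr : IsStarProjection r) (h : Under r v) : rem r v * star v = 0 := by
  have := congrArg star h.mul_rem
  rwa [star_mul, rem_star hr, star_zero] at this

omit [TracialVNA M] in
lemma Under.star_mul_rem (hr : IsStarProjection r) (h : Under r v) : star v * rem r v = 0 := by
  have := congrArg star h.rem_mul
  rwa [star_mul, rem_star hr, star_zero] at this

omit [TracialVNA M] in
lemma Under.star_mul (hr : IsStarProjection r) (h : Under r v) : star v * r = star v := by
  have := congrArg star h.2.2.1
  rwa [StarMul.star_mul, proj_star hr] at this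

omit [TracialVNA M] in
lemma Under.mul_star (hr : IsStarProjection r) (h : Under r v) : r * star v = star v := by
  have := congrArg star h.2.2.2
  rwa [StarMul.star_mul, proj_star hr] at this

omit [TracialVNA M] in
lemma Under.mul_rem_eq (hr : IsStarProjection r) (h : Under r v) : r * rem r v = rem r v := by
  unfold rem
  calc r * (r - star v * v - v * star v) = r * r - (r * star v) * v - (r * v) * star v := by
        noncomm_ring
    _ = _ := by rw [proj_sq hr, h.mul_star hr, h.2.2.1]

omit [TracialVNA M] in
lemma Under.rem_proj (hr : IsStarProjection r) (h : Under r v) : IsStarProjection (rem r v) := by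
  refine ⟨?_, rem_star hr⟩
  change rem r v * rem r v = rem r v
  have h1 : rem r v * rem r v = rem r v * r := by
    conv_lhs => rw [show rem r v * rem r v = rem r v * (r - star v * v - v * star v) from rfl]
    calc rem r v * (r - star v * v - v * star v)
        = rem r v * r - (rem r v * star v) * v - (rem r v * v) * star v := by noncomm_ring
      _ = _ := by rw [h.rem_mul_star hr, h.rem_mul]; simp
  have h2 := congrArg star (h.mul_rem_eq hr)
  rw [StarMul.star_mul, rem_star hr, proj_star hr] at h2
  rw [h1, h2]

omit [TracialVNA M] in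
/-- orthogonality relations of an extension. -/
lemma Under.orth (hr : IsStarProjection r) (h : Under r v) (hw : Under (rem r v) w) :
    star v * w = 0 ∧ star w * v = 0 ∧ v * w = 0 ∧ w * v = 0 ∧ v * star w = 0 ∧ w * star v = 0 := by
  have hrp := h.rem_proj hr
  have h1 : star v * w = 0 := by
    rw [← hw.2.2.1, ← mul_assoc, h.star_mul_rem hr, zero_mul]
  have h2 : star w * v = 0 := by
    have := congrArg star h1
    rwa [StarMul.star_mul, star_star, star_zero] at this
  have h3 : v * w = 0 := by
    rw [← hw.2.2.1, ← mul_assoc, h.mul_rem, zero_mul]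
  have h4 : w * v = 0 := by
    rw [← hw.2.2.2, mul_assoc, h.rem_mul, mul_zero]
  have h5 : v * star w = 0 := by
    rw [← hw.mul_star hrp, ← mul_assoc, h.mul_rem, zero_mul]
  have h6 : w * star v = 0 := by
    rw [← hw.2.2.2, mul_assoc, h.rem_mul_star hr, mul_zero]
  exact ⟨h1, h2, h3, h4, h5, h6⟩

omit [TracialVNA M] in
lemma Under.star_mul_add (hr : IsStarProjection r) (h : Under r v) (hw : Under (rem r v) w) :
    star (v + w) * (v + w) = star v * v + star w * w := by
  obtain ⟨h1, h2, h3, h4, h5, h6⟩ := h.orth hr hw
  rw [star_add]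
  calc (star v + star w) * (v + w) = star v * v + star v * w + star w * v + star w * w := by
        noncomm_ring
    _ = _ := by rw [h1, h2]; simp

omit [TracialVNA M] in
lemma Under.mul_star_add (hr : IsStarProjection r) (h : Under r v) (hw : Under (rem r v) w) :
    (v + w) * star (v + w) = v * star v + w * star w := by
  obtain ⟨h1, h2, h3, h4, h5, h6⟩ := h.orth hr hw
  rw [star_add]
  calc (v + w) * (star v + star w) = v * star v + v * star w + w * star v + w * star w := by
        noncomm_ring
    _ = _ := by rw [h5, h6]; simp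

omit [TracialVNA M] in
lemma Under.rem_add (hr : IsStarProjection r) (h : Under r v) (hw : Under (rem r v) w) :
    rem r (v + w) = rem (rem r v) w := by
  unfold rem
  rw [h.star_mul_add hr hw, h.mul_star_add hr hw]
  abel

omit [TracialVNA M] in
lemma Under.add (hr : IsStarProjection r) (h : Under r v) (hw : Under (rem r v) w) :
    Under r (v + w) := by
  obtain ⟨h1, h2, h3, h4, h5, h6⟩ := h.orth hr hw
  have hrp := h.rem_proj hr
  refine ⟨?_, ?_, ?_, ?_⟩
  · rw [h.star_mul_add hr hw]
    refine ⟨?_, ?_⟩
    · change (star v * v + star w * w) * (star v * v + star w * w) = star v * v + star w * w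
      calc (star v * v + star w * w) * (star v * v + star w * w)
          = (star v * v) * (star v * v) + star v * (v * star w) * w + star w * (w * star v) * v
            + (star w * w) * (star w * w) := by noncomm_ring
        _ = _ := by rw [proj_sq h.1, proj_sq hw.1, h5, h6]; simp
    · rw [IsSelfAdjoint, star_add, proj_star h.1, proj_star hw.1]
  · calc (v + w) * (v + w) = v * v + v * w + w * v + w * w := by noncomm_ring
      _ = 0 := by rw [h.2.1, h3, h4, hw.2.1]; simp
  · have : r * w = w := by
      rw [← hw.2.2.1, ← mul_assoc, h.mul_rem_eq hr]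
    rw [mul_add, h.2.2.1, this]
  · have h7 : rem r v * r = rem r v := by
      have := congrArg star (h.mul_rem_eq hr)
      rwa [StarMul.star_mul, rem_star hr, proj_star hr] at this
    have : w * r = w := by
      rw [← hw.2.2.2, mul_assoc, h7]
    rw [add_mul, h.2.2.2, this]

end

/-- limits of projections -/
lemma lim_proj {u : ℕ → M} {x : M} (hu : ∀ n, IsStarProjection (u n)) (hl : Lim2 u x) :
    IsStarProjection x := by
  have h1 : Lim2 (fun n => u n * u n) (x * x) := Lim2.mul (fun n => norm_proj_le (hu n)) hl hl
  have h2 : Lim2 (fun n => u n * u n) x := hl.congr (fun n => (proj_sq (hu n)).symm)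
  have h3 : Lim2 (fun n => star (u n)) (star x) := hl.star
  have h4 : Lim2 (fun n => star (u n)) x := hl.congr (fun n => (proj_star (hu n)).symm)
  exact ⟨h1.unique h2, h3.unique h4⟩

/-- `Under r` is closed. -/
lemma lim_under {r : M} {u : ℕ → M} {x : M} (hu : ∀ n, Under r (u n)) (hl : Lim2 u x) :
    Under r x := by
  have hb : ∀ n, ‖u n‖ ≤ 1 := fun n => (hu n).norm_le
  have hb' : ∀ n, ‖star (u n)‖ ≤ 1 := fun n => by rw [norm_star]; exact hb n
  refine ⟨?_, ?_, ?_, ?_⟩
  · exact lim_proj (fun n => (hu n).1) (Lim2.mul hb' hl.star hl)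
  · have h1 : Lim2 (fun n => u n * u n) (x * x) := Lim2.mul hb hl hl
    have h2 : Lim2 (fun n => u n * u n) 0 :=
      (Lim2.const 0).congr (fun n => (hu n).2.1.symm)
    exact h1.unique h2
  · exact (hl.const_mul r).unique (hl.congr (fun n => (hu n).2.2.1.symm))
  · exact (hl.mul_const r).unique (hl.congr (fun n => (hu n).2.2.2.symm))

/-- nearly maximal elements. -/
lemma exists_near_max (r : M) : ∃ w : M, Under r w ∧
    ∀ w', Under r w' → rt (star w' * w') ≤ 2 * rt (star w * w) := by
  set S : Set ℝ := {t | ∃ w : M, Under r w ∧ rt (star w * w) = t} with hS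
  have hne : S.Nonempty := ⟨_, 0, Under.zero r, rfl⟩
  have hbdd : BddAbove S := ⟨1, by
    rintro t ⟨w, hw, rfl⟩; exact rt_proj_le_one hw.1⟩
  rcases le_or_gt (sSup S) 0 with h | h
  · refine ⟨0, Under.zero r, fun w' hw' => ?_⟩
    have h1 := le_csSup hbdd (⟨w', hw', rfl⟩ : rt (star w' * w') ∈ S)
    simp; linarith
  · obtain ⟨t, ⟨w, hw, rfl⟩, ht⟩ := exists_lt_of_lt_csSup hne (show sSup S / 2 < sSup S by linarith)
    refine ⟨w, hw, fun w' hw' => ?_⟩
    have h1 := le_csSup hbdd (⟨w', hw', rfl⟩ : rt (star w' * w') ∈ S)
    linarith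

/-- a nonzero projection has a nonzero `w` under it. -/
lemma exists_under (hM : IsII1Factor M) {r : M} (hr : IsStarProjection r) (hr0 : r ≠ 0) :
    ∃ w, Under r w ∧ w ≠ 0 := by
  obtain ⟨s, hs, hrs, hs0, hsr⟩ := exists_proper_subproj' hM hr hr0
  have hsr' : s * r = s := by
    have := congrArg star hrs
    rwa [star_mul, proj_star hr, proj_star hs] at this
  have ht : IsStarProjection (r - s) := by
    refine ⟨?_, ?_⟩
    · change (r - s) * (r - s) = r - s
      calc (r - s) * (r - s) = r * r - r * s - s * r + s * s := by noncomm_ring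
        _ = r - s := by rw [proj_sq hr, proj_sq hs, hrs, hsr']; abel
    · rw [IsSelfAdjoint, star_sub, proj_star hr, proj_star hs]
  have hst : s * (r - s) = 0 := by rw [mul_sub, hsr', proj_sq hs, sub_self]
  have hts : (r - s) * s = 0 := by rw [sub_mul, hrs, proj_sq hs, sub_self]
  have hrt : r * (r - s) = r - s := by rw [mul_sub, proj_sq hr, hrs]
  have key : ∀ a b : M, IsStarProjection a → IsStarProjection b → a * b = 0 → r * a = a →
      r * b = b → a ≠ 0 → Subeq a b → ∃ w, Under r w ∧ w ≠ 0 := by
    rintro a b ha hb hab hra hrb ha0 ⟨w, hw, hbw⟩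
    have hwa : w * a = w := mul_of_star_mul ha hw
    refine ⟨w, ⟨by rw [hw]; exact ha, ?_, ?_, ?_⟩, ?_⟩
    · calc w * w = (w * a) * (b * w) := by rw [hwa, hbw]
        _ = w * (a * b) * w := by noncomm_ring
        _ = 0 := by rw [hab]; simp
    · rw [← hbw, ← mul_assoc, hrb]
    · have har : a * r = a := by
        have := congrArg star hra
        rwa [star_mul, proj_star hr, proj_star ha] at this
      rw [← hwa, mul_assoc, har]
    · rintro rfl
      apply ha0; rw [← hw]; simp
  rcases comparison hM hs ht with h | h
  · exact key s (r - s) hs ht hst hrs hrt hs0 h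
  · exact key (r - s) s ht hs hts hrt hrs (sub_ne_zero.2 (Ne.symm hsr)) h

end Halving

/-- Sketch: a nonzero projection `p` is not minimal: otherwise (all `x` have `p x p ∈ ℂ p`) a
maximal orthogonal family of copies of `p` (finite since the traces add up to at most 1) sums to `1`
by `comparison`, and `M` is spanned by the finitely many `v_i v_j*`. If `p x p ∉ ℂ p` for a
self-adjoint `x`, then an integer spectral approximation of a large multiple of `p x p` (or a support
of `(p x p - s p)⁺`) gives a projection `0 ≠ q < p`. -/
theorem exists_proper_subproj (hM : IsII1Factor M) {p : M} (hp : IsStarProjection p)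
    (hp0 : p ≠ 0) : ∃ q : M, IsStarProjection q ∧ p * q = q ∧ q ≠ 0 ∧ q ≠ p :=
  Halving.exists_proper_subproj' hM hp hp0

open Halving in
/-- Halving. Sketch: exhaustion as in `comparison`: under a nonzero remainder `r` take
`0 ≠ s < r` (`exists_proper_subproj`) and compare `s` and `r - s` (both nonzero) to get
`w ≠ 0` with `star w * w ≤ s`, `w * star w ≤ r - s` (or the other way round). -/
theorem exists_halving (hM : IsII1Factor M) {p : M} (hp : IsStarProjection p) :
    ∃ v : M, IsStarProjection (star v * v) ∧ star v * v + v * star v = p := by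
  choose b hb hbm using fun r : M => exists_near_max r
  let v : ℕ → M := fun n => Nat.rec 0 (fun _ x => x + b (rem p x)) n
  have hv0 : v 0 = 0 := rfl
  have hvs : ∀ n, v (n + 1) = v n + b (rem p (v n)) := fun n => rfl
  have hU : ∀ n, Under p (v n) := by
    intro n
    induction n with
    | zero => exact Under.zero p
    | succ n ih => rw [hvs]; exact ih.add hp (hb _)
  have hrp : ∀ n, IsStarProjection (rem p (v n)) := fun n => (hU n).rem_proj hp
  have hext : ∀ n k, Under (rem p (v n)) (v (n + k) - v n) := by
    intro n k
    induction k with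
    | zero => simpa using Under.zero _
    | succ k ih =>
      have h1 : v (n + k) = v n + (v (n + k) - v n) := by abel
      have h2 : rem p (v (n + k)) = rem (rem p (v n)) (v (n + k) - v n) := by
        conv_lhs => rw [h1]
        exact (hU n).rem_add hp ih
      have h3 : v (n + (k + 1)) - v n = (v (n + k) - v n) + b (rem p (v (n + k))) := by
        rw [← add_assoc, hvs]; abel
      rw [h3]
      refine ih.add (hrp n) ?_
      rw [← h2]; exact hb _
  set a : ℕ → ℝ := fun n => rt (star (v n) * v n) with ha
  have hadd : ∀ n w, Under (rem p (v n)) w →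
      rt (star (v n + w) * (v n + w)) = a n + rt (star w * w) := by
    intro n w hw
    rw [(hU n).star_mul_add hp hw, rt_add]
  have hdist : ∀ n k, nrm (v (n + k) - v n) ^ 2 = a (n + k) - a n := by
    intro n k
    have h1 := hadd n _ (hext n k)
    have h2 : v n + (v (n + k) - v n) = v (n + k) := by abel
    rw [h2] at h1
    rw [nrm_sq_rt]
    simp only [ha] at h1 ⊢
    linarith
  have hmono : Monotone a := by
    apply monotone_nat_of_le_succ
    intro n
    have := hdist n 1
    nlinarith [sq_nonneg (nrm (v (n + 1) - v n))]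
  have hle1 : ∀ n, a n ≤ 1 := fun n => rt_proj_le_one (hU n).1
  have hbdd : BddAbove (Set.range a) := ⟨1, by rintro _ ⟨n, rfl⟩; exact hle1 n⟩
  have hconv := tendsto_atTop_ciSup hmono hbdd
  set L : ℝ := ⨆ n, a n with hL
  have haL : ∀ n, a n ≤ L := fun n => le_ciSup hbdd n
  have hcauchy : ∀ ε : ℝ, 0 < ε → ∃ K : ℕ, ∀ m ≥ K, ∀ n ≥ K, nrm (v m - v n) < ε := by
    intro ε hε
    have h1 : ∀ᶠ n in atTop, L - ε ^ 2 < a n :=
      hconv.eventually_const_lt (by have := pow_pos hε 2; linarith)
    obtain ⟨K, hK⟩ := eventually_atTop.1 h1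
    refine ⟨K, fun m hm n hn => ?_⟩
    have key : ∀ m n, K ≤ n → n ≤ m → nrm (v m - v n) < ε := by
      intro m n hn hnm
      obtain ⟨k, rfl⟩ := Nat.exists_eq_add_of_le hnm
      have h2 := hdist n k
      have h3 := hK n hn
      have h4 := haL (n + k)
      have h5 : nrm (v (n + k) - v n) ^ 2 < ε ^ 2 := by linarith
      exact lt_of_pow_lt_pow_left₀ 2 hε.le h5
    rcases le_total n m with h | h
    · exact key m n hn h
    · rw [nrm_sub_comm]; exact key n m hm h
  obtain ⟨x, _, hx⟩ := exists_lim2 (fun n => (hU n).norm_le) hcauchy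
  have hxU : Under p x := lim_under hU hx
  have hxr : ∀ n, Under (rem p (v n)) (x - v n) := by
    intro n
    apply lim_under (hext n)
    apply Lim2.sub _ (Lim2.const _)
    have := hx
    unfold Lim2 at this ⊢
    exact this.comp (tendsto_add_atTop_nat n |>.congr (fun k => by omega))
  have hremx : ∀ n, rem p x = rem (rem p (v n)) (x - v n) := by
    intro n
    have h1 : x = v n + (x - v n) := by abel
    conv_lhs => rw [h1]
    exact (hU n).rem_add hp (hxr n)
  have hzero : rem p x = 0 := by
    by_contra hne
    obtain ⟨w, hw, hw0⟩ := exists_under hM (hxU.rem_proj hp) hne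
    have h1 : ∀ n, rt (star w * w) ≤ 2 * (a (n + 1) - a n) := by
      intro n
      have h2 : Under (rem p (v n)) ((x - v n) + w) := by
        apply (hxr n).add (hrp n)
        rw [← hremx n]; exact hw
      have h3 := hbm (rem p (v n)) _ h2
      rw [(hxr n).star_mul_add (hrp n) (by rw [← hremx n]; exact hw), rt_add] at h3
      have h4 := rt_star_mul_self_nonneg (x - v n)
      have h5 := hadd n _ (hb (rem p (v n)))
      rw [← hvs] at h5
      have h6 : a (n + 1) = a n + rt (star (b (rem p (v n))) * b (rem p (v n))) := h5
      linarith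
    have h2 : Tendsto (fun n => 2 * (a (n + 1) - a n)) atTop (𝓝 0) := by
      have h3 : Tendsto (fun n => a (n + 1)) atTop (𝓝 L) := hconv.comp (tendsto_add_atTop_nat 1)
      have := (h3.sub hconv).const_mul 2
      simpa using this
    have h3 : rt (star w * w) ≤ 0 := ge_of_tendsto' h2 h1
    exact hw0 (eq_zero_of_rt (le_antisymm h3 (rt_star_mul_self_nonneg w)))
  refine ⟨x, hxU.1, ?_⟩
  unfold rem at hzero
  rw [sub_sub, sub_eq_zero] at hzero
  exact hzero.symm

end Pool.Agent.McDuffR
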