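import Pool.Agent.MP_af2a1c_lc.Defect

/-! Task T8: in the hyperfinite II_1 factor every tuple is almost flipped. -/

namespace Pool.Agent.McDuffR

open Filter Topology ComplexConjugate

variable {R : Type*} [CStarAlgebra R] [TracialVNA R]

/-- The subalgebra generated by the first `K` copies of the 2 by 2 matrices. -/
def lvl (e : ℕ → Fin 2 → Fin 2 → R) (K : ℕ) : Subalgebra ℂ R :=
  Algebra.adjoin ℂ {z : R | ∃ n p q, n < K ∧ z = e n p q}

lemma lvl_mono (e : ℕ → Fin 2 → Fin 2 → R) {K L : ℕ} (h : K ≤ L) : lvl e K ≤ lvl e L := by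
  apply Algebra.adjoin_mono
  rintro z ⟨n, p, q, hn, rfl⟩
  exact ⟨n, p, q, hn.trans_le h, rfl⟩

lemma exists_lvl (e : ℕ → Fin 2 → Fin 2 → R) {y : R}
    (hy : y ∈ Algebra.adjoin ℂ {z : R | ∃ n p q, z = e n p q}) : ∃ K, y ∈ lvl e K := by
  induction hy using Algebra.adjoin_induction with
  | mem x hx =>
    obtain ⟨n, p, q, rfl⟩ := hx
    exact ⟨n + 1, Algebra.subset_adjoin ⟨n, p, q, Nat.lt_succ_self n, rfl⟩⟩
  | algebraMap r => exact ⟨0, Subalgebra.algebraMap_mem _ r⟩
  | add x y _ _ hx hy =>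
    obtain ⟨K, hK⟩ := hx
    obtain ⟨L, hL⟩ := hy
    exact ⟨max K L, Subalgebra.add_mem _ (lvl_mono e (le_max_left _ _) hK)
      (lvl_mono e (le_max_right _ _) hL)⟩
  | mul x y _ _ hx hy =>
    obtain ⟨K, hK⟩ := hx
    obtain ⟨L, hL⟩ := hy
    exact ⟨max K L, Subalgebra.mul_mem _ (lvl_mono e (le_max_left _ _) hK)
      (lvl_mono e (le_max_right _ _) hL)⟩

/-- The swap of the sites `m` and `n`. -/
def swp (e : ℕ → Fin 2 → Fin 2 → R) (m n : ℕ) : R := ∑ p, ∑ q, e m p q * e n q p

section

variable {e : ℕ → Fin 2 → Fin 2 → R}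
  (hstar : ∀ n p q, star (e n p q) = e n q p)
  (hmul : ∀ n p q r s, e n p q * e n r s = if q = r then e n p s else 0)
  (hone : ∀ n, e n 0 0 + e n 1 1 = 1)
  (hcomm : ∀ m n, m ≠ n → ∀ p q r s, e m p q * e n r s = e n r s * e m p q)

include hstar hcomm in
lemma swp_star {m n : ℕ} (hmn : m ≠ n) : star (swp e m n) = swp e m n := by
  unfold swp
  simp only [star_sum, star_mul, hstar]
  rw [Finset.sum_comm]
  refine Finset.sum_congr rfl fun p _ => Finset.sum_congr rfl fun q _ => ?_
  rw [hcomm m n hmn]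

include hmul hcomm in
lemma swp_mul {m n : ℕ} (hmn : m ≠ n) (r t : Fin 2) :
    swp e m n * e m r t = e n r t * swp e m n := by
  unfold swp
  have h1 : ∀ p q, e m p q * e n q p * e m r t = if q = r then e m p t * e n r p else 0 := by
    intro p q
    rw [mul_assoc, ← hcomm m n hmn, ← mul_assoc, hmul]
    split_ifs with h
    · rw [h]
    · rw [zero_mul]
  have h2 : ∀ p q, e n r t * (e m p q * e n q p) = if t = q then e m p t * e n r p else 0 := by
    intro p q
    rw [← mul_assoc, ← hcomm m n hmn, mul_assoc, hmul]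
    split_ifs with h
    · rw [h]
    · rw [mul_zero]
  simp only [Finset.sum_mul, Finset.mul_sum, h1, h2, Finset.sum_ite_eq, Finset.sum_ite_eq',
    Finset.mem_univ, if_true]

include hmul hone hcomm in
lemma swp_sq {m n : ℕ} (hmn : m ≠ n) : swp e m n * swp e m n = 1 := by
  have h : swp e m n * swp e m n = ∑ p, ∑ q, (swp e m n * e m p q) * e n q p := by
    conv_lhs => rw [show swp e m n * swp e m n = swp e m n * ∑ p, ∑ q, e m p q * e n q p from rfl]
    simp only [Finset.mul_sum, mul_assoc]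
  rw [h]
  simp only [swp_mul hmul hcomm hmn, mul_assoc]
  unfold swp
  have h3 : ∀ p q r s, e n p q * (e m r s * e n s r * e n q p)
      = if r = q then e m r s * (e n p q * e n s p) else 0 := by
    intro p q r s
    rw [mul_assoc (e m r s), hmul]
    split_ifs with h
    · rw [← mul_assoc, ← hcomm m n hmn, mul_assoc]
    · simp
  simp only [Finset.sum_mul, Finset.mul_sum, h3]
  simp only [Fin.sum_univ_two, hmul]
  simp
  have : ∀ i j : Fin 2, e m i i * e n j j = e n j j * e m i i := fun i j => hcomm m n hmn i i j j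
  calc _ = (e m 0 0 + e m 1 1) * (e n 0 0 + e n 1 1) := by noncomm_ring
    _ = 1 := by rw [hone, hone, one_mul]


include hcomm in
lemma swp_comm {m n l : ℕ} (hm : m ≠ l) (hn : n ≠ l) (r t : Fin 2) :
    swp e m n * e l r t = e l r t * swp e m n := by
  unfold swp
  simp only [Finset.sum_mul, Finset.mul_sum]
  refine Finset.sum_congr rfl fun p _ => Finset.sum_congr rfl fun q _ => ?_
  rw [mul_assoc, hcomm n l hn, ← mul_assoc, hcomm m l hm, mul_assoc]

/-- The product of the swaps of the sites `i` and `i + k` for `i < j`. -/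
def fl (e : ℕ → Fin 2 → Fin 2 → R) (k : ℕ) : ℕ → R
  | 0 => 1
  | (j + 1) => swp e j (j + k) * fl e k j

include hstar hmul hone hcomm in
lemma fl_star_mul {k : ℕ} (hk : 0 < k) (j : ℕ) : star (fl e k j) * fl e k j = 1 := by
  induction j with
  | zero => simp [fl]
  | succ j ih =>
    have hne : j ≠ j + k := by omega
    simp only [fl, star_mul, swp_star hstar hcomm hne]
    rw [mul_assoc, ← mul_assoc (swp e j (j + k)), swp_sq hmul hone hcomm hne, one_mul, ih]

include hstar hmul hone hcomm in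
lemma fl_mul_star {k : ℕ} (hk : 0 < k) (j : ℕ) : fl e k j * star (fl e k j) = 1 := by
  induction j with
  | zero => simp [fl]
  | succ j ih =>
    have hne : j ≠ j + k := by omega
    simp only [fl, star_mul, swp_star hstar hcomm hne]
    rw [mul_assoc, ← mul_assoc (fl e k j), ih, one_mul, swp_sq hmul hone hcomm hne]

include hmul hcomm in
lemma fl_mul {k : ℕ} {j : ℕ} (hj : j ≤ k) {n : ℕ} (hn : n < k) (r t : Fin 2) :
    fl e k j * e n r t = e (if n < j then n + k else n) r t * fl e k j := by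
  induction j with
  | zero => simp [fl]
  | succ j ih =>
    have ih' := ih (by omega)
    simp only [fl]
    rw [mul_assoc, ih', ← mul_assoc]
    rcases lt_trichotomy n j with h | h | h
    · rw [if_pos h, if_pos (by omega), swp_comm hcomm (by omega) (by omega), mul_assoc]
    · subst h
      rw [if_neg (lt_irrefl _), if_pos (by omega), swp_mul hmul hcomm (by omega), mul_assoc]
    · rw [if_neg (by omega), if_neg (by omega), swp_comm hcomm (by omega) (by omega), mul_assoc]

include hcomm in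
lemma lvl_comm {k n : ℕ} (hn : k ≤ n) (r t : Fin 2) {c : R} (hc : c ∈ lvl e k) :
    c * e n r t = e n r t * c := by
  induction hc using Algebra.adjoin_induction with
  | mem x hx =>
    obtain ⟨m, p, q, hm, rfl⟩ := hx
    exact hcomm m n (by omega) p q r t
  | algebraMap z => exact Algebra.commutes z _
  | add x y _ _ hx hy => rw [add_mul, mul_add, hx, hy]
  | mul x y _ _ hx hy => rw [mul_assoc, hy, ← mul_assoc, hx, mul_assoc]

include hmul hcomm in
lemma fl_intertwine {k : ℕ} {b : R} (hb : b ∈ lvl e k) :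
    ∃ b' : R, fl e k k * b = b' * fl e k k ∧ ∀ c ∈ lvl e k, c * b' = b' * c := by
  induction hb using Algebra.adjoin_induction with
  | mem x hx =>
    obtain ⟨m, p, q, hm, rfl⟩ := hx
    refine ⟨e (m + k) p q, ?_, fun c hc => lvl_comm hcomm (by omega) p q hc⟩
    have := fl_mul hmul hcomm (le_refl k) hm p q
    rwa [if_pos hm] at this
  | algebraMap z => exact ⟨algebraMap ℂ R z, (Algebra.commutes z _).symm,
      fun c _ => (Algebra.commutes z c).symm⟩
  | add x y _ _ hx hy =>
    obtain ⟨x', hx1, hx2⟩ := hx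
    obtain ⟨y', hy1, hy2⟩ := hy
    refine ⟨x' + y', by rw [mul_add, add_mul, hx1, hy1], fun c hc => ?_⟩
    rw [mul_add, add_mul, hx2 c hc, hy2 c hc]
  | mul x y _ _ hx hy =>
    obtain ⟨x', hx1, hx2⟩ := hx
    obtain ⟨y', hy1, hy2⟩ := hy
    refine ⟨x' * y', by rw [← mul_assoc, hx1, mul_assoc, hy1, mul_assoc], fun c hc => ?_⟩
    rw [← mul_assoc, hx2 c hc, mul_assoc, hy2 c hc, mul_assoc]

end

lemma norm_le_one_of_unitary {u : R} (hu : star u * u = 1) : ‖u‖ ≤ 1 := by
  have h : ‖u‖ ^ 2 ≤ 1 := by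
    rw [sq, ← CStarRing.norm_star_mul_self, hu]
    rcases subsingleton_or_nontrivial R with h | h
    · simp [Subsingleton.elim (1 : R) 0]
    · simp
  nlinarith [norm_nonneg u]

theorem hyper_flip (hR : IsHyperfiniteII1Factor R) {m : ℕ} (a : Fin m → R)
    (ha : ∀ i, ‖a i‖ ≤ 1) {ε : ℝ} (hε : 0 < ε) : ∃ y : R, ‖y‖ ≤ 1 ∧ flipDefect a y < ε := by
  obtain ⟨-, e, hstar, hmul, hone, hcomm, hdense⟩ := hR
  set δ : ℝ := Real.sqrt (ε / ((m : ℝ) ^ 2 + 1)) with hδ
  have hδ0 : 0 < δ := Real.sqrt_pos.mpr (by positivity)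
  have hδsq : δ ^ 2 = ε / ((m : ℝ) ^ 2 + 1) := Real.sq_sqrt (by positivity)
  have hb : ∀ j, ∃ b, (∃ K, b ∈ lvl e K) ∧ nrm (a j - b) < δ / 4 := by
    intro j
    obtain ⟨b, hb, hb'⟩ := hdense (a j) (δ / 4) (by positivity)
    exact ⟨b, exists_lvl e hb, hb'⟩
  choose b hbK hbn using hb
  choose K hK using hbK
  set B : ℝ := 1 + ∑ j, ‖b j‖ with hB
  have hB1 : 1 ≤ B := by
    have : 0 ≤ ∑ j, ‖b j‖ := Finset.sum_nonneg fun j _ => norm_nonneg _
    linarith
  have hbB : ∀ j, ‖b j‖ ≤ B := by
    intro j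
    have : ‖b j‖ ≤ ∑ j, ‖b j‖ :=
      Finset.single_le_sum (f := fun j => ‖b j‖) (fun j _ => norm_nonneg _) (Finset.mem_univ j)
    linarith
  have hc : ∀ j, ∃ c, (∃ K, c ∈ lvl e K) ∧ nrm (a j - c) < δ / (4 * B) := by
    intro j
    obtain ⟨c, hc, hc'⟩ := hdense (a j) (δ / (4 * B)) (by positivity)
    exact ⟨c, exists_lvl e hc, hc'⟩
  choose c hcK hcn using hc
  choose L hL using hcK
  set k : ℕ := (∑ j, K j) + (∑ j, L j) + 1 with hk
  have hbk : ∀ j, b j ∈ lvl e k := by
    intro j
    refine lvl_mono e ?_ (hK j)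
    have : K j ≤ ∑ j, K j :=
      Finset.single_le_sum (f := K) (fun j _ => Nat.zero_le _) (Finset.mem_univ j)
    omega
  have hck : ∀ j, c j ∈ lvl e k := by
    intro j
    refine lvl_mono e ?_ (hL j)
    have : L j ≤ ∑ j, L j :=
      Finset.single_le_sum (f := L) (fun j _ => Nat.zero_le _) (Finset.mem_univ j)
    omega
  have hk0 : 0 < k := by omega
  set y : R := fl e k k with hy
  have hy1 : star y * y = 1 := fl_star_mul hstar hmul hone hcomm hk0 k
  have hy2 : y * star y = 1 := fl_mul_star hstar hmul hone hcomm hk0 k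
  have hyn : ‖y‖ ≤ 1 := norm_le_one_of_unitary hy1
  have hyn' : ‖star y‖ ≤ 1 := by rw [norm_star]; exact hyn
  refine ⟨y, hyn, ?_⟩
  have main : ∀ i j, nrm (com (y * a i * star y) (a j)) ≤ δ := by
    intro i j
    have h3 : com (y * c i * star y) (b j) = 0 := by
      obtain ⟨c', hc1, hc2⟩ := fl_intertwine hmul hcomm (hck i)
      rw [← hy] at hc1
      have : y * c i * star y = c' := by rw [hc1, mul_assoc, hy2, mul_one]
      rw [this]
      unfold com
      rw [hc2 _ (hbk j), sub_self]
    have dec : com (y * a i * star y) (a j) = com (y * a i * star y) (a j - b j)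
        + com (y * (a i - c i) * star y) (b j) := by
      have h4 : com (y * (a i - c i) * star y) (b j)
          = com (y * a i * star y) (b j) - com (y * c i * star y) (b j) := by
        unfold com; noncomm_ring
      rw [h4, h3, com_sub]
      abel
    have n1 : ‖y * a i * star y‖ ≤ 1 := by
      calc ‖y * a i * star y‖ ≤ ‖y‖ * ‖a i‖ * ‖star y‖ := by
            refine (norm_mul_le _ _).trans ?_
            gcongr
            exact norm_mul_le _ _
        _ ≤ 1 * 1 * 1 := by
            gcongr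
            exact ha i
        _ = 1 := by norm_num
    have p1 : nrm (com (y * a i * star y) (a j - b j)) ≤ δ / 2 := by
      refine (nrm_com_le _ _).trans ?_
      calc 2 * ‖y * a i * star y‖ * nrm (a j - b j) ≤ 2 * 1 * (δ / 4) :=
            mul_le_mul (by linarith) (hbn j).le (nrm_nonneg _) (by norm_num)
        _ = δ / 2 := by ring
    have p2 : nrm (com (y * (a i - c i) * star y) (b j)) ≤ δ / 2 := by
      refine (nrm_com_le' _ _).trans ?_
      have q1 : nrm (y * (a i - c i) * star y) ≤ δ / (4 * B) := by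
        calc nrm (y * (a i - c i) * star y) ≤ nrm (y * (a i - c i)) * ‖star y‖ :=
              nrm_mul_le_right _ _
          _ ≤ (‖y‖ * nrm (a i - c i)) * ‖star y‖ := by
              gcongr
              exact nrm_mul_le_left _ _
          _ ≤ (1 * (δ / (4 * B))) * 1 := by
              have := (hcn i).le
              gcongr
              exact nrm_nonneg _
          _ = δ / (4 * B) := by ring
      calc 2 * nrm (y * (a i - c i) * star y) * ‖b j‖ ≤ 2 * (δ / (4 * B)) * B :=
            mul_le_mul (by linarith) (hbB j) (norm_nonneg _) (by positivity)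
        _ = δ / 2 := by field_simp; ring
    rw [dec]
    refine (nrm_add_le _ _).trans ?_
    linarith
  unfold flipDefect
  rw [hy1, hy2, sub_self, nrm_zero]
  have : ∑ i, ∑ j, nrm (com (y * a i * star y) (a j)) ^ 2 ≤ (m : ℝ) ^ 2 * δ ^ 2 := by
    calc ∑ i, ∑ j, nrm (com (y * a i * star y) (a j)) ^ 2
        ≤ ∑ i : Fin m, ∑ j : Fin m, δ ^ 2 := by
          refine Finset.sum_le_sum fun i _ => Finset.sum_le_sum fun j _ => ?_
          exact pow_le_pow_left₀ (nrm_nonneg _) (main i j) 2
      _ = (m : ℝ) ^ 2 * δ ^ 2 := by simp; ring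
  rw [hδsq] at this
  have h5 : (m : ℝ) ^ 2 * (ε / ((m : ℝ) ^ 2 + 1)) < ε := by
    rw [mul_div_assoc', div_lt_iff₀ (by positivity)]
    nlinarith
  linarith

end Pool.Agent.McDuffR
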