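import Pool.Agent.MP_af2a1c_lc.Defect

/-! Task T10: the sentences `sup a_1 ... sup a_k inf y (flip defect)`. -/

namespace Pool.Agent.McDuffR

open Filter Topology ComplexConjugate

variable {M : Type*} [CStarAlgebra M] [TracialVNA M]

/-- Finite sums of terms. -/
def Term.sum {n : ℕ} : (k : ℕ) → (Fin k → Term n) → Term n
  | 0, _ => .smul 0 .one
  | (k + 1), f => .add (Term.sum k fun i => f i.castSucc) (f (Fin.last k))

lemma Term.eval_sum {n : ℕ} (k : ℕ) (f : Fin k → Term n) (v : Fin n → M) :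
    (Term.sum k f).eval M v = ∑ i, (f i).eval M v := by
  induction k with
  | zero => simp [Term.sum, Term.eval]
  | succ k ih => simp [Term.sum, Term.eval, ih, Fin.sum_univ_castSucc]

/-- Difference of terms. -/
def Term.sub {n : ℕ} (s t : Term n) : Term n := .add s (.smul (-1) t)

lemma Term.eval_sub {n : ℕ} (s t : Term n) (v : Fin n → M) :
    (Term.sub s t).eval M v = s.eval M v - t.eval M v := by
  simp [Term.sub, Term.eval, sub_eq_add_neg]

/-- The term `t* t`. -/
def Term.sqr {n : ℕ} (t : Term n) : Term n := .mul (.star t) t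

lemma Term.eval_sqr {n : ℕ} (t : Term n) (v : Fin n → M) :
    (Term.sqr t).eval M v = Star.star (t.eval M v) * t.eval M v := by
  simp [Term.sqr, Term.eval]

/-- The term whose trace is the flip defect of the first `k` variables and the last one. -/
def defectTerm (k : ℕ) : Term (k + 1) :=
  let y : Term (k + 1) := .var (Fin.last k)
  let a : Fin k → Term (k + 1) := fun i => .var i.castSucc
  let x : Fin k → Term (k + 1) := fun i => .mul (.mul y (a i)) (.star y)
  .add (.add (Term.sqr (Term.sub (.mul (.star y) y) .one))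
      (Term.sqr (Term.sub (.mul y (.star y)) .one)))
    (Term.sum k fun i => Term.sum k fun j =>
      Term.sqr (Term.sub (.mul (x i) (a j)) (.mul (a j) (x i))))

lemma rt_eval_defectTerm {k : ℕ} (a : Fin k → M) (y : M) :
    (tau ((defectTerm k).eval M (Fin.snoc a y : Fin (k + 1) → M))).re = flipDefect a y := by
  have h : (defectTerm k).eval M (Fin.snoc a y : Fin (k + 1) → M)
      = star (star y * y - 1) * (star y * y - 1) + star (y * star y - 1) * (y * star y - 1)
        + ∑ i, ∑ j, star (com (y * a i * star y) (a j)) * com (y * a i * star y) (a j) := by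
    simp only [defectTerm, Term.eval, Term.eval_sqr, Term.eval_sub, Term.eval_sum, Fin.snoc_last,
      Fin.snoc_castSucc, com]
  rw [h]
  change rt _ = _
  rw [rt_add, rt_add, rt_sum]
  simp only [rt_sum, ← nrm_sq_rt]
  rfl

/-- Quantify all free variables by suprema over the unit ball. -/
def supAll : (k : ℕ) → Formula k → Sentence
  | 0, φ => φ
  | (k + 1), φ => supAll k (.sup 1 φ)

lemma value_supAll_le {k : ℕ} (φ : Formula k) {c : ℝ}
    (h : ∀ a : Fin k → M, (∀ i, ‖a i‖ ≤ 1) → φ.eval M a ≤ c) :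
    Sentence.value M (supAll k φ) ≤ c := by
  induction k with
  | zero => exact h _ (fun i => i.elim0)
  | succ k ih =>
    apply ih
    intro a ha
    change (⨆ x : {x : M // ‖x‖ ≤ ((1 : ℕ) : ℝ)}, φ.eval M (Fin.snoc a (x : M))) ≤ c
    have : Nonempty {x : M // ‖x‖ ≤ ((1 : ℕ) : ℝ)} := ⟨⟨0, by simp⟩⟩
    apply ciSup_le
    intro x
    apply h
    intro i
    refine Fin.lastCases ?_ (fun i => ?_) i
    · rw [Fin.snoc_last]
      simpa using x.2
    · rw [Fin.snoc_castSucc]
      exact ha i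

lemma le_value_supAll {k : ℕ} (φ : Formula k) {c B : ℝ}
    (hB : ∀ a : Fin k → M, (∀ i, ‖a i‖ ≤ 1) → φ.eval M a ≤ B)
    (h : ∃ a : Fin k → M, (∀ i, ‖a i‖ ≤ 1) ∧ c ≤ φ.eval M a) :
    c ≤ Sentence.value M (supAll k φ) := by
  induction k with
  | zero =>
    obtain ⟨a, _, ha⟩ := h
    have : a = Fin.elim0 := funext fun i => i.elim0
    rw [this] at ha
    exact ha
  | succ k ih =>
    have hsn : ∀ (a : Fin k → M) (x : M), (∀ i, ‖a i‖ ≤ 1) → ‖x‖ ≤ 1 →
        ∀ i, ‖(Fin.snoc a x : Fin (k + 1) → M) i‖ ≤ 1 := by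
      intro a x ha hx i
      refine Fin.lastCases ?_ (fun i => ?_) i
      · rw [Fin.snoc_last]; exact hx
      · rw [Fin.snoc_castSucc]; exact ha i
    have hne : Nonempty {x : M // ‖x‖ ≤ ((1 : ℕ) : ℝ)} := ⟨⟨0, by simp⟩⟩
    apply ih
    · intro a ha
      change (⨆ x : {x : M // ‖x‖ ≤ ((1 : ℕ) : ℝ)}, φ.eval M (Fin.snoc a (x : M))) ≤ B
      apply ciSup_le
      intro x
      exact hB _ (hsn a x ha (by simpa using x.2))
    · obtain ⟨a, ha, hc⟩ := h
      refine ⟨Fin.init a, fun i => ha _, ?_⟩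
      change c ≤ (⨆ x : {x : M // ‖x‖ ≤ ((1 : ℕ) : ℝ)}, φ.eval M (Fin.snoc (Fin.init a) (x : M)))
      have hbdd : BddAbove (Set.range fun x : {x : M // ‖x‖ ≤ ((1 : ℕ) : ℝ)} =>
          φ.eval M (Fin.snoc (Fin.init a) (x : M))) := by
        refine ⟨B, ?_⟩
        rintro _ ⟨x, rfl⟩
        exact hB _ (hsn _ x (fun i => ha _) (by simpa using x.2))
      refine le_trans ?_ (le_ciSup hbdd ⟨a (Fin.last k), by simpa using ha (Fin.last k)⟩)
      simpa only [Fin.snoc_init_self] using hc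

/-- The sentence `sup a_1 ... sup a_k inf y (flip defect)`. -/
def flipSentence (k : ℕ) : Sentence := supAll k (.inf 1 (.trRe (defectTerm k)))

lemma eval_inf_defect {k : ℕ} (a : Fin k → M) :
    (Formula.inf 1 (.trRe (defectTerm k))).eval M a
      = ⨅ y : {y : M // ‖y‖ ≤ ((1 : ℕ) : ℝ)}, flipDefect a (y : M) := by
  change (⨅ y : {y : M // ‖y‖ ≤ ((1 : ℕ) : ℝ)},
    (tau ((defectTerm k).eval M (Fin.snoc a (y : M) : Fin (k + 1) → M))).re) = _
  simp only [rt_eval_defectTerm]

lemma bddBelow_defect {k : ℕ} (a : Fin k → M) :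
    BddBelow (Set.range fun y : {y : M // ‖y‖ ≤ ((1 : ℕ) : ℝ)} => flipDefect a (y : M)) := by
  refine ⟨0, ?_⟩
  rintro _ ⟨y, rfl⟩
  exact flipDefect_nonneg a _

/-- Upper bound for the value of the flip sentence. -/
lemma value_flipSentence_le {k : ℕ}
    (h : ∀ a : Fin k → M, (∀ i, ‖a i‖ ≤ 1) → ∀ ε : ℝ, 0 < ε →
      ∃ y : M, ‖y‖ ≤ 1 ∧ flipDefect a y < ε) : Sentence.value M (flipSentence k) ≤ 0 := by
  apply value_supAll_le
  intro a ha
  rw [eval_inf_defect]
  apply le_of_forall_pos_lt_add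
  intro ε hε
  obtain ⟨y, hy, hlt⟩ := h a ha ε hε
  rw [zero_add]
  exact lt_of_le_of_lt (ciInf_le (bddBelow_defect a) ⟨y, by simpa using hy⟩) hlt

/-- Lower bound for the value of the flip sentence. -/
lemma le_value_flipSentence {k : ℕ} {ε : ℝ}
    (h : ∃ a : Fin k → M, (∀ i, ‖a i‖ ≤ 1) ∧ ∀ y : M, ‖y‖ ≤ 1 → ε ≤ flipDefect a y) :
    ε ≤ Sentence.value M (flipSentence k) := by
  apply le_value_supAll (B := 2)
  · intro a ha
    rw [eval_inf_defect]
    refine (ciInf_le (bddBelow_defect a) ⟨0, by simp⟩).trans ?_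
    exact (flipDefect_zero a).le
  · obtain ⟨a, ha, hy⟩ := h
    refine ⟨a, ha, ?_⟩
    rw [eval_inf_defect]
    have : Nonempty {y : M // ‖y‖ ≤ ((1 : ℕ) : ℝ)} := ⟨⟨0, by simp⟩⟩
    apply le_ciInf
    intro y
    exact hy _ (by simpa using y.2)

end Pool.Agent.McDuffR
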