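import Pool.Agent.MP_af2a1c_lc.Ops

/-! Task T7a: tensor products, spectral gap. -/

namespace Pool.Agent.McDuffR

open Filter Topology ComplexConjugate

variable {N S M : Type*} [CStarAlgebra N] [TracialVNA N] [CStarAlgebra S] [TracialVNA S]
  [CStarAlgebra M] [TracialVNA M]

/-- Sketch: every element of the span is `∑_l i (n l) * j (f l)` with `f l` orthonormal in `L2 S`
(orthonormal basis of the finite-dimensional span of the second legs); then
`nrm (∑ i (n l) j (f l))^2 = ∑ nrm (n l)^2`. -/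
theorem exists_orthonormal_expansion (i : N →⋆ₐ[ℂ] M) (j : S →⋆ₐ[ℂ] M)
    (hcomm : ∀ (a : N) (b : S), i a * j b = j b * i a)
    (htau : ∀ (a : N) (b : S), tau (i a * j b) = tau a * tau b)
    {y : M} (hy : y ∈ Submodule.span ℂ {z : M | ∃ (a : N) (b : S), z = i a * j b}) :
    ∃ (m : ℕ) (n : Fin m → N) (f : Fin m → S),
      (∀ k l, tau (star (f k) * f l) = if k = l then 1 else 0) ∧ y = ∑ l, i (n l) * j (f l) := by
  classical
  obtain ⟨k, c, g, rfl⟩ := Submodule.mem_span_set'.1 hy
  have hg : ∀ t, ∃ (a : N) (b : S), (g t : M) = i a * j b := fun t => (g t).2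
  choose a b hab using hg
  let W : Submodule ℂ (L2 S) := Submodule.span ℂ (Set.range fun t => toL2 (b t))
  have hfin : FiniteDimensional ℂ W := FiniteDimensional.span_of_finite ℂ (Set.finite_range _)
  let e := stdOrthonormalBasis ℂ W
  have hmem : ∀ t, toL2 (b t) ∈ W := fun t => Submodule.subset_span ⟨t, rfl⟩
  let d : Fin k → Fin (Module.finrank ℂ W) → ℂ := fun t l =>
    inner ℂ (e l) (⟨toL2 (b t), hmem t⟩ : W)
  have hb : ∀ t, b t = ∑ l, d t l • toL2.symm ((e l : W) : L2 S) := by
    intro t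
    have h1 := e.sum_repr' (⟨toL2 (b t), hmem t⟩ : W)
    have h2 := congrArg (fun w : W => toL2.symm (w : L2 S)) h1
    simp only [Submodule.coe_sum, Submodule.coe_smul, map_sum, map_smul,
      LinearEquiv.symm_apply_apply] at h2
    exact h2.symm
  refine ⟨Module.finrank ℂ W, fun l => ∑ t, (c t * d t l) • a t,
    fun l => toL2.symm ((e l : W) : L2 S), ?_, ?_⟩
  · intro p q
    have h1 := orthonormal_iff_ite.1 e.orthonormal p q
    rw [← h1]
    rfl
  · have h1 : ∀ t, c t • (g t : M) = ∑ l, (c t * d t l) • (i (a t) * j (toL2.symm ((e l : W) : L2 S))) := by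
      intro t
      rw [hab t, hb t, map_sum, Finset.mul_sum, Finset.smul_sum]
      refine Finset.sum_congr rfl fun l _ => ?_
      rw [map_smul, mul_smul_comm, smul_smul]
    rw [Finset.sum_congr rfl fun t _ => h1 t, Finset.sum_comm]
    refine Finset.sum_congr rfl fun l _ => ?_
    rw [map_sum, Finset.sum_mul]
    refine Finset.sum_congr rfl fun t _ => ?_
    rw [map_smul, smul_mul_assoc]

/-- Pythagoras for orthonormal expansions. -/
theorem nrm_sq_expansion (i : N →⋆ₐ[ℂ] M) (j : S →⋆ₐ[ℂ] M)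
    (hcomm : ∀ (a : N) (b : S), i a * j b = j b * i a)
    (htau : ∀ (a : N) (b : S), tau (i a * j b) = tau a * tau b)
    {m : ℕ} (n : Fin m → N) (f : Fin m → S)
    (hf : ∀ k l, tau (star (f k) * f l) = if k = l then 1 else 0) :
    nrm (∑ l, i (n l) * j (f l)) ^ 2 = ∑ l, nrm (n l) ^ 2 := by
  have h1 : tau (star (∑ l, i (n l) * j (f l)) * ∑ l, i (n l) * j (f l)) =
      ((∑ l, nrm (n l) ^ 2 : ℝ) : ℂ) := by
    rw [star_sum, Finset.sum_mul_sum, tau_sum]
    push_cast
    refine Finset.sum_congr rfl fun k _ => ?_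
    rw [tau_sum]
    have h2 : ∀ l, tau (star (i (n k) * j (f k)) * (i (n l) * j (f l))) =
        if k = l then ((nrm (n k) : ℂ)) ^ 2 else 0 := by
      intro l
      have e : star (i (n k) * j (f k)) * (i (n l) * j (f l)) =
          i (star (n k) * n l) * j (star (f k) * f l) := by
        rw [star_mul, ← map_star, ← map_star, map_mul, map_mul]
        have := hcomm (star (n k) * n l) (star (f k))
        rw [map_mul] at this
        calc j (star (f k)) * i (star (n k)) * (i (n l) * j (f l))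
            = (j (star (f k)) * (i (star (n k)) * i (n l))) * j (f l) := by noncomm_ring
          _ = (i (star (n k)) * i (n l) * j (star (f k))) * j (f l) := by rw [this]
          _ = _ := by noncomm_ring
      rw [e, htau, hf]
      split_ifs with h
      · subst h
        rw [mul_one, ← nrm_sq']
        push_cast
        rfl
      · simp
    rw [Finset.sum_congr rfl fun l _ => h2 l]
    simp
  rw [nrm_sq, h1, Complex.ofReal_re]

/-- Spectral gap passes to tensor products. Sketch: for `y = ∑ i (n l) j (f l)` take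
`s = ∑ tau (n l) f l`; `nrm (y - j s)^2 = ∑ nrm (n l - tau (n l))^2` and
`nrm (com (i u) y)^2 = ∑ nrm (com u (n l))^2`; use Cauchy-Schwarz over `F` (constant
`C * F.card`). For general `x` approximate. -/
theorem gap_tensor (i : N →⋆ₐ[ℂ] M) (j : S →⋆ₐ[ℂ] M)
    (hcomm : ∀ (a : N) (b : S), i a * j b = j b * i a)
    (htau : ∀ (a : N) (b : S), tau (i a * j b) = tau a * tau b)
    (hdense : ∀ (x : M) (ε : ℝ), 0 < ε →
      ∃ y ∈ Submodule.span ℂ {z : M | ∃ (a : N) (b : S), z = i a * j b}, nrm (x - y) < ε)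
    (F : Finset N) {C : ℝ} (hC : 0 ≤ C)
    (hgap : ∀ ξ : N, nrm (ξ - (tau ξ) • (1 : N)) ≤ C * ∑ u ∈ F, nrm (com u ξ)) :
    ∃ C' : ℝ, 0 ≤ C' ∧ ∀ (x : M) (κ : ℝ), 0 < κ →
      ∃ s : S, nrm (x - j s) ≤ C' * ∑ u ∈ F, nrm (com (i u) x) + κ := by
  -- the estimate on the span
  have hspan : ∀ y ∈ Submodule.span ℂ {z : M | ∃ (a : N) (b : S), z = i a * j b},
      ∃ s : S, nrm (y - j s) ≤ (C * F.card) * ∑ u ∈ F, nrm (com (i u) y) := by
    intro y hy
    obtain ⟨m, n, f, hf, rfl⟩ := exists_orthonormal_expansion i j hcomm htau hy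
    refine ⟨∑ l, tau (n l) • f l, ?_⟩
    have e1 : (∑ l, i (n l) * j (f l)) - j (∑ l, tau (n l) • f l) =
        ∑ l, i (n l - tau (n l) • (1 : N)) * j (f l) := by
      rw [map_sum, ← Finset.sum_sub_distrib]
      refine Finset.sum_congr rfl fun l _ => ?_
      rw [map_sub, sub_mul, map_smul, map_smul, map_one, smul_mul_assoc, one_mul]
    have e2 : ∀ u : N, com (i u) (∑ l, i (n l) * j (f l)) = ∑ l, i (com u (n l)) * j (f l) := by
      intro u
      rw [com_sum]
      refine Finset.sum_congr rfl fun l _ => ?_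
      unfold com
      rw [map_sub, sub_mul, map_mul, map_mul]
      have := hcomm u (f l)
      calc i u * (i (n l) * j (f l)) - i (n l) * j (f l) * i u
          = i u * i (n l) * j (f l) - i (n l) * (j (f l) * i u) := by noncomm_ring
        _ = i u * i (n l) * j (f l) - i (n l) * (i u * j (f l)) := by rw [this]
        _ = _ := by noncomm_ring
    have h1 : nrm ((∑ l, i (n l) * j (f l)) - j (∑ l, tau (n l) • f l)) ^ 2 ≤
        C ^ 2 * (F.card * ∑ u ∈ F, nrm (com (i u) (∑ l, i (n l) * j (f l))) ^ 2) := by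
      rw [e1, nrm_sq_expansion i j hcomm htau _ f hf]
      have h2 : ∀ l, nrm (n l - tau (n l) • (1 : N)) ^ 2 ≤
          C ^ 2 * (F.card * ∑ u ∈ F, nrm (com u (n l)) ^ 2) := by
        intro l
        have h3 := hgap (n l)
        have h4 : (∑ u ∈ F, nrm (com u (n l))) ^ 2 ≤ F.card * ∑ u ∈ F, nrm (com u (n l)) ^ 2 :=
          sq_sum_le_card_mul_sum_sq
        calc nrm (n l - tau (n l) • (1 : N)) ^ 2 ≤ (C * ∑ u ∈ F, nrm (com u (n l))) ^ 2 :=
              pow_le_pow_left₀ (nrm_nonneg _) h3 2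
          _ = C ^ 2 * (∑ u ∈ F, nrm (com u (n l))) ^ 2 := by ring
          _ ≤ _ := by gcongr
      refine (Finset.sum_le_sum fun l _ => h2 l).trans (le_of_eq ?_)
      rw [← Finset.mul_sum, ← Finset.mul_sum, Finset.sum_comm]
      congr 2
      refine Finset.sum_congr rfl fun u _ => ?_
      rw [e2 u, nrm_sq_expansion i j hcomm htau _ f hf]
    set T := ∑ u ∈ F, nrm (com (i u) (∑ l, i (n l) * j (f l))) with hT
    have hT0 : 0 ≤ T := Finset.sum_nonneg fun u _ => nrm_nonneg _
    have h5 : ∑ u ∈ F, nrm (com (i u) (∑ l, i (n l) * j (f l))) ^ 2 ≤ T ^ 2 := by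
      calc ∑ u ∈ F, nrm (com (i u) (∑ l, i (n l) * j (f l))) ^ 2
          ≤ ∑ u ∈ F, nrm (com (i u) (∑ l, i (n l) * j (f l))) * T := by
            refine Finset.sum_le_sum fun u hu => ?_
            rw [sq]
            exact mul_le_mul_of_nonneg_left
              (Finset.single_le_sum (f := fun u => nrm (com (i u) (∑ l, i (n l) * j (f l))))
                (fun u _ => nrm_nonneg _) hu) (nrm_nonneg _)
        _ = T ^ 2 := by rw [← Finset.sum_mul, sq]
    have h6 : nrm ((∑ l, i (n l) * j (f l)) - j (∑ l, tau (n l) • f l)) ^ 2 ≤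
        ((C * F.card) * T) ^ 2 := by
      refine h1.trans ?_
      have h7 : (F.card : ℝ) ≤ (F.card : ℝ) ^ 2 := by
        have : F.card ≤ F.card ^ 2 := Nat.le_self_pow (by norm_num) _
        exact_mod_cast this
      calc C ^ 2 * (F.card * ∑ u ∈ F, nrm (com (i u) (∑ l, i (n l) * j (f l))) ^ 2)
          ≤ C ^ 2 * ((F.card : ℝ) ^ 2 * T ^ 2) := by gcongr
        _ = _ := by ring
    exact le_of_sq_le_sq h6 (by positivity)
  refine ⟨C * F.card, by positivity, fun x κ hκ => ?_⟩
  set K := C * (F.card : ℝ) with hK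
  have hK0 : 0 ≤ K := by positivity
  set B := ∑ u ∈ F, 2 * ‖i u‖ with hB
  have hB0 : 0 ≤ B := Finset.sum_nonneg fun u _ => by positivity
  set δ := κ / (1 + K * B) with hδ
  have hδ0 : 0 < δ := by positivity
  obtain ⟨y, hy, hxy⟩ := hdense x δ hδ0
  obtain ⟨s, hs⟩ := hspan y hy
  refine ⟨s, ?_⟩
  have h1 : ∑ u ∈ F, nrm (com (i u) y) ≤ ∑ u ∈ F, nrm (com (i u) x) + B * δ := by
    rw [hB, Finset.sum_mul, ← Finset.sum_add_distrib]
    refine Finset.sum_le_sum fun u _ => ?_
    have e : com (i u) y = com (i u) x - com (i u) (x - y) := by rw [com_sub]; abel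
    rw [e]
    refine (nrm_sub_le _ _).trans ?_
    gcongr
    exact (nrm_com_le _ _).trans (mul_le_mul_of_nonneg_left hxy.le (by positivity))
  have h2 : nrm (x - j s) ≤ nrm (x - y) + nrm (y - j s) := nrm_sub_le_add _ _ _
  have h3 : δ * (1 + K * B) = κ := by
    rw [hδ]; field_simp
  calc nrm (x - j s) ≤ δ + K * (∑ u ∈ F, nrm (com (i u) x) + B * δ) := by
        refine h2.trans (add_le_add hxy.le (hs.trans ?_))
        gcongr
    _ = K * ∑ u ∈ F, nrm (com (i u) x) + δ * (1 + K * B) := by ring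
    _ = _ := by rw [h3]

end Pool.Agent.McDuffR
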