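import Pool.Agent.MP_af2a1c_lc.Dyadic
import Pool.Agent.MP_af2a1c_lc.Tensor

/-! Task T7b: tensor products, small overlap. -/

namespace Pool.Agent.McDuffR

open Filter Topology ComplexConjugate

variable {N S M : Type*} [CStarAlgebra N] [TracialVNA N] [CStarAlgebra S] [TracialVNA S]
  [CStarAlgebra M] [TracialVNA M]

private lemma overlap_tau_j (i : N →⋆ₐ[ℂ] M) (j : S →⋆ₐ[ℂ] M)
    (htau : ∀ (a : N) (b : S), tau (i a * j b) = tau a * tau b) (b : S) :
    tau (j b) = tau b := by
  have h := htau 1 b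
  rwa [map_one, one_mul, tau_one, one_mul] at h

private lemma overlap_nrm_j (i : N →⋆ₐ[ℂ] M) (j : S →⋆ₐ[ℂ] M)
    (htau : ∀ (a : N) (b : S), tau (i a * j b) = tau a * tau b) (b : S) :
    nrm (j b) = nrm b := by
  have h : nrm (j b) ^ 2 = nrm b ^ 2 := by
    rw [nrm_sq, nrm_sq, ← map_star, ← map_mul, overlap_tau_j i j htau]
  exact (pow_left_inj₀ (nrm_nonneg _) (nrm_nonneg _) two_ne_zero).1 h

private lemma overlap_inner (i : N →⋆ₐ[ℂ] M) (j : S →⋆ₐ[ℂ] M)
    (hcomm : ∀ (a : N) (b : S), i a * j b = j b * i a)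
    (htau : ∀ (a : N) (b : S), tau (i a * j b) = tau a * tau b) (a a' : N) (b b' : S) :
    tau (star (i a * j b) * (i a' * j b')) = tau (star a * a') * tau (star b * b') := by
  rw [← htau, star_mul, ← map_star, ← map_star, map_mul, map_mul]
  congr 1
  calc j (star b) * i (star a) * (i a' * j b')
      = j (star b) * i (star a) * i a' * j b' := by noncomm_ring
    _ = i (star a) * (j (star b) * i a') * j b' := by
        rw [← hcomm]; noncomm_ring
    _ = i (star a) * (i a' * j (star b)) * j b' := by rw [← hcomm a']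
    _ = i (star a) * i a' * (j (star b) * j b') := by noncomm_ring

private lemma overlap_nrm_ij (i : N →⋆ₐ[ℂ] M) (j : S →⋆ₐ[ℂ] M)
    (hcomm : ∀ (a : N) (b : S), i a * j b = j b * i a)
    (htau : ∀ (a : N) (b : S), tau (i a * j b) = tau a * tau b) (a : N) (b : S) :
    nrm (i a * j b) = nrm a * nrm b := by
  have h : nrm (i a * j b) ^ 2 = (nrm a * nrm b) ^ 2 := by
    have h1 := overlap_inner i j hcomm htau a a b b
    rw [← nrm_sq', ← nrm_sq', ← nrm_sq'] at h1
    rw [mul_pow]
    exact_mod_cast h1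
  exact (pow_left_inj₀ (nrm_nonneg _) (mul_nonneg (nrm_nonneg _) (nrm_nonneg _)) two_ne_zero).1 h

/-- Sketch. `tau (star (j s) * (star y * i u * y)) = ⟪y * j s, i u * y⟫`. Replace the right `y` by a
finite sum `y' = ∑_l i (n l) * j (f l)` with `nrm (y - y') ≤ η/2` (error at most
`nrm (y * j s) * η/2 ≤ nrm s * η/2`). Each term is
`tau (star (j s) * star y * i u * i (n l) * j (f l)) = ⟪y, i (u * n l) * j (f l * star s)⟫`
with `nrm (f l * star s) ≤ ‖f l‖ nrm s`; replace `y` by another finite sum `y''` very close to `y`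
(`nrm (i a * j b) = nrm a * nrm b`), and then use `exists_weakly_small_unitary` for the finitely
many elements `n l * star (n'' k)`. -/
theorem exists_small_overlap (hN : IsII1Factor N) (i : N →⋆ₐ[ℂ] M) (j : S →⋆ₐ[ℂ] M)
    (hcomm : ∀ (a : N) (b : S), i a * j b = j b * i a)
    (htau : ∀ (a : N) (b : S), tau (i a * j b) = tau a * tau b)
    (hdense : ∀ (x : M) (ε : ℝ), 0 < ε →
      ∃ y ∈ Submodule.span ℂ {z : M | ∃ (a : N) (b : S), z = i a * j b}, nrm (x - y) < ε)
    (y : M) (hy : ‖y‖ ≤ 1) {η : ℝ} (hη : 0 < η) :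
    ∃ u ∈ unitary N, ∀ s : S, ‖tau (star (j s) * (star y * i u * y))‖ ≤ η * nrm s := by
  classical
  obtain ⟨y', hy'span, hy'⟩ := hdense y (η / 4) (by positivity)
  obtain ⟨m, n, f, -, hy'eq⟩ := exists_orthonormal_expansion i j hcomm htau hy'span
  set A : ℝ := ∑ l, nrm (n l) * ‖f l‖ with hA
  have hA0 : 0 ≤ A := Finset.sum_nonneg fun l _ => mul_nonneg (nrm_nonneg _) (norm_nonneg _)
  obtain ⟨y'', hy''span, hy''⟩ := hdense y (η / 4 / (1 + A)) (by positivity)
  obtain ⟨m', n', f', -, hy''eq⟩ := exists_orthonormal_expansion i j hcomm htau hy''span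
  set B : ℝ := ∑ l, ∑ k, ‖f' k‖ * nrm (f l) with hB
  have hB0 : 0 ≤ B := Finset.sum_nonneg fun l _ => Finset.sum_nonneg fun k _ =>
    mul_nonneg (norm_nonneg _) (nrm_nonneg _)
  obtain ⟨u, hu, hsmall⟩ := exists_weakly_small_unitary hN
    (Finset.image (fun q : Fin m × Fin m' => n q.1 * star (n' q.2)) Finset.univ)
    (η := η / 4 / (1 + B)) (by positivity)
  refine ⟨u, hu, fun s => ?_⟩
  have hiu : i u ∈ unitary M := by
    rw [Unitary.mem_iff]
    constructor
    · rw [← map_star, ← map_mul, Unitary.star_mul_self_of_mem hu, map_one]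
    · rw [← map_star, ← map_mul, Unitary.mul_star_self_of_mem hu, map_one]
  -- first replacement
  have e1 : tau (star (j s) * (star y * i u * y)) =
      tau (star (y * j s) * (i u * (y - y'))) + tau (star (y * j s) * (i u * y')) := by
    rw [← tau_add, star_mul]
    congr 1
    noncomm_ring
  have b1 : ‖tau (star (y * j s) * (i u * (y - y')))‖ ≤ η / 4 * nrm s := by
    refine (norm_tau_star_mul_le _ _).trans ?_
    rw [nrm_unitary_mul hiu]
    have h1 : nrm (y * j s) ≤ nrm s := by
      refine (nrm_mul_le_left _ _).trans ?_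
      rw [overlap_nrm_j i j htau]
      exact mul_le_of_le_one_left (nrm_nonneg _) hy
    calc nrm (y * j s) * nrm (y - y') ≤ nrm s * (η / 4) :=
          mul_le_mul h1 hy'.le (nrm_nonneg _) (nrm_nonneg _)
      _ = η / 4 * nrm s := by ring
  have e2 : tau (star (y * j s) * (i u * y')) =
      ∑ l, tau (star y * (i (u * n l) * j (f l * star s))) := by
    rw [hy'eq, Finset.mul_sum, Finset.mul_sum, tau_sum]
    refine Finset.sum_congr rfl fun l _ => ?_
    rw [star_mul, mul_assoc, tau_comm]
    congr 1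
    rw [map_mul, map_mul, map_star]
    noncomm_ring
  have e3 : ∀ l, tau (star y * (i (u * n l) * j (f l * star s))) =
      tau (star (y - y'') * (i (u * n l) * j (f l * star s))) +
        tau (star y'' * (i (u * n l) * j (f l * star s))) := by
    intro l
    rw [← tau_add, star_sub]
    congr 1
    noncomm_ring
  have b3 : ∀ l, ‖tau (star (y - y'') * (i (u * n l) * j (f l * star s)))‖ ≤
      η / 4 / (1 + A) * (nrm (n l) * ‖f l‖ * nrm s) := by
    intro l
    refine (norm_tau_star_mul_le _ _).trans ?_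
    refine mul_le_mul hy''.le ?_ (nrm_nonneg _) (by positivity)
    rw [overlap_nrm_ij i j hcomm htau, nrm_unitary_mul hu, mul_assoc]
    refine mul_le_mul_of_nonneg_left ?_ (nrm_nonneg _)
    refine (nrm_mul_le_left _ _).trans ?_
    rw [nrm_star]
  have e4 : ∀ l, tau (star y'' * (i (u * n l) * j (f l * star s))) =
      ∑ k, tau (u * (n l * star (n' k))) * tau (star (f' k) * (f l * star s)) := by
    intro l
    rw [hy''eq, star_sum, Finset.sum_mul, tau_sum]
    refine Finset.sum_congr rfl fun k _ => ?_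
    rw [overlap_inner i j hcomm htau, tau_comm (star (n' k)), mul_assoc]
  have b4 : ∀ l, ‖tau (star y'' * (i (u * n l) * j (f l * star s)))‖ ≤
      ∑ k, η / 4 / (1 + B) * (‖f' k‖ * nrm (f l) * nrm s) := by
    intro l
    rw [e4]
    refine (norm_sum_le _ _).trans (Finset.sum_le_sum fun k _ => ?_)
    rw [norm_mul]
    refine mul_le_mul (hsmall _ (Finset.mem_image.2 ⟨(l, k), Finset.mem_univ _, rfl⟩)) ?_
      (norm_nonneg _) (by positivity)
    rw [← mul_assoc]
    refine (norm_tau_mul_le _ _).trans ?_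
    rw [nrm_star]
    refine mul_le_mul_of_nonneg_right ?_ (nrm_nonneg _)
    refine (nrm_mul_le_left _ _).trans ?_
    rw [norm_star]
  have b34 : ‖tau (star (y * j s) * (i u * y'))‖ ≤ η / 4 * nrm s + η / 4 * nrm s := by
    rw [e2]
    refine (norm_sum_le _ _).trans ?_
    have h1 : ∀ l ∈ (Finset.univ : Finset (Fin m)),
        ‖tau (star y * (i (u * n l) * j (f l * star s)))‖ ≤
          η / 4 / (1 + A) * (nrm (n l) * ‖f l‖ * nrm s) +
            ∑ k, η / 4 / (1 + B) * (‖f' k‖ * nrm (f l) * nrm s) := by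
      intro l _
      rw [e3]
      exact (norm_add_le _ _).trans (add_le_add (b3 l) (b4 l))
    refine (Finset.sum_le_sum h1).trans ?_
    rw [Finset.sum_add_distrib]
    refine add_le_add ?_ ?_
    · rw [← Finset.mul_sum, ← Finset.sum_mul, ← hA]
      have h2 : η / 4 / (1 + A) * (A * nrm s) = η / 4 * nrm s * (A / (1 + A)) := by
        field_simp
      rw [h2]
      refine mul_le_of_le_one_right (mul_nonneg (by positivity) (nrm_nonneg _)) ?_
      rw [div_le_one (by positivity)]
      linarith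
    · have h3 : ∑ l, ∑ k, η / 4 / (1 + B) * (‖f' k‖ * nrm (f l) * nrm s) =
          η / 4 / (1 + B) * (B * nrm s) := by
        rw [hB, Finset.sum_mul, Finset.mul_sum]
        refine Finset.sum_congr rfl fun l _ => ?_
        rw [Finset.sum_mul, Finset.mul_sum]
      rw [h3]
      have h2 : η / 4 / (1 + B) * (B * nrm s) = η / 4 * nrm s * (B / (1 + B)) := by
        field_simp
      rw [h2]
      refine mul_le_of_le_one_right (mul_nonneg (by positivity) (nrm_nonneg _)) ?_
      rw [div_le_one (by positivity)]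
      linarith
  rw [e1]
  refine (norm_add_le _ _).trans ((add_le_add b1 b34).trans ?_)
  nlinarith [mul_nonneg hη.le (nrm_nonneg s)]

end Pool.Agent.McDuffR
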