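import Pool.Agent.MP_af2a1c_lc.Gap
import Pool.Agent.MP_af2a1c_lc.Overlap
import Pool.Agent.MP_af2a1c_lc.Defect

/-! Task T9: the flip defect is bounded below in `N ⊗ S` for some tuple. -/

namespace Pool.Agent.McDuffR

open Filter Topology ComplexConjugate

variable {N S M : Type*} [CStarAlgebra N] [TracialVNA N] [CStarAlgebra S] [TracialVNA S]
  [CStarAlgebra M] [TracialVNA M]

lemma nrm_leg {i : N →⋆ₐ[ℂ] M} {j : S →⋆ₐ[ℂ] M}
    (htau : ∀ (a : N) (b : S), tau (i a * j b) = tau a * tau b) (s : S) :
    nrm (j s) = nrm s := by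
  have h : tau (star (j s) * j s) = tau (star s * s) := by
    have := htau 1 (star s * s)
    simpa [map_mul, map_star] using this
  have h2 : nrm (j s) ^ 2 = nrm s ^ 2 := by rw [nrm_sq, nrm_sq, h]
  exact (pow_left_inj₀ (nrm_nonneg _) (nrm_nonneg _) two_ne_zero).mp h2

lemma nrm_le_of_sq {x : M} {c : ℝ} (hc : 0 ≤ c) (h : nrm x ^ 2 ≤ c ^ 2) : nrm x ≤ c :=
  (pow_le_pow_iff_left₀ (nrm_nonneg _) hc two_ne_zero).mp h

lemma norm_unitary_le {u : M} (hu : u ∈ unitary M) : ‖u‖ ≤ 1 := by
  have h : ‖u‖ ^ 2 ≤ 1 := by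
    rw [sq, ← CStarRing.norm_star_mul_self, (Unitary.mem_iff.mp hu).1]
    rcases subsingleton_or_nontrivial M with h | h
    · simp [Subsingleton.elim (1 : M) 0]
    · simp
  nlinarith [norm_nonneg u]

/-- If `y` almost flips the tuple then a contradiction arises. Purely metric part. -/
lemma key_estimate {y U z js : M} {δ η δ₂ : ℝ} (hy : ‖y‖ ≤ 1) (hU : U ∈ unitary M)
    (hz : z = star y * U * y) (h1 : nrm (star y * y - 1) ≤ δ) (h2 : nrm (y * star y - 1) ≤ δ)
    (h3 : nrm (z - js) ≤ δ₂) (h4 : ‖tau (star js * z)‖ ≤ η * nrm js) (hη : 0 ≤ η)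
    (hδ₂ : 0 ≤ δ₂) :
    1 - 2 * δ ≤ δ₂ + η * (1 + δ₂) := by
  have hU1 := norm_unitary_le hU
  have hys : ‖star y‖ ≤ 1 := by rw [norm_star]; exact hy
  -- norm of z
  have hzn : ‖z‖ ≤ 1 := by
    rw [hz]
    calc ‖star y * U * y‖ ≤ ‖star y * U‖ * ‖y‖ := norm_mul_le _ _
      _ ≤ (‖star y‖ * ‖U‖) * ‖y‖ := by gcongr; exact norm_mul_le _ _
      _ ≤ (1 * 1) * 1 := by gcongr
      _ = 1 := by norm_num
  have hz1 : nrm z ≤ 1 := (nrm_le_norm z).trans hzn
  -- lower bound for the square
  have hsq : 1 - 2 * δ ≤ nrm z ^ 2 := by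
    have e1 : star z * z = star y * star U * (y * star y - 1) * U * y + star y * y := by
      rw [hz]
      have hUU : star U * U = 1 := (Unitary.mem_iff.mp hU).1
      simp only [star_mul, star_star]
      have : star y * star U * (y * star y - 1) * U * y + star y * y
        = star y * star U * y * star y * U * y - star y * (star U * U) * y + star y * y := by
          noncomm_ring
      rw [this, hUU]
      noncomm_ring
    have e2 : rt (star z * z) = rt (star y * star U * (y * star y - 1) * U * y)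
        + rt (star y * y) := by rw [e1, rt_add]
    have e3 : |rt (star y * star U * (y * star y - 1) * U * y)| ≤ δ := by
      have : star y * star U * (y * star y - 1) * U * y
          = (star y * star U * (y * star y - 1)) * (U * y) := by noncomm_ring
      rw [this]
      refine (abs_rt_mul_le _ _).trans ?_
      have a1 : nrm (star y * star U * (y * star y - 1)) ≤ δ := by
        refine (nrm_mul_le_left _ _).trans ?_
        have : ‖star y * star U‖ ≤ 1 := by
          calc ‖star y * star U‖ ≤ ‖star y‖ * ‖star U‖ := norm_mul_le _ _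
            _ ≤ 1 * 1 := by rw [norm_star U]; gcongr
            _ = 1 := by norm_num
        calc ‖star y * star U‖ * nrm (y * star y - 1) ≤ 1 * δ :=
              mul_le_mul this h2 (nrm_nonneg _) zero_le_one
          _ = δ := one_mul _
      have a2 : nrm (U * y) ≤ 1 := by
        rw [nrm_unitary_mul hU]
        exact (nrm_le_norm y).trans hy
      calc nrm (star y * star U * (y * star y - 1)) * nrm (U * y) ≤ δ * 1 := by
            apply mul_le_mul a1 a2 (nrm_nonneg _) ((nrm_nonneg _).trans a1)
        _ = δ := mul_one _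
    have e4 : |rt (star y * y) - 1| ≤ δ := by
      have : rt (star y * y) - 1 = rt (star y * y - 1) := by simp
      rw [this]
      exact (abs_rt_le _).trans h1
    rw [nrm_sq_rt, e2]
    have := abs_le.mp e3
    have := abs_le.mp e4
    linarith
  have hsplit : star z * z = star (z - js) * z + star js * z := by
    rw [star_sub]; noncomm_ring
  have hjs : nrm js ≤ 1 + δ₂ := by
    have : js = z - (z - js) := by abel
    rw [this]
    refine (nrm_sub_le _ _).trans ?_
    linarith
  have hb : nrm z ^ 2 ≤ δ₂ + η * (1 + δ₂) := by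
    rw [nrm_sq_rt, hsplit, rt_add]
    have b1 : rt (star (z - js) * z) ≤ δ₂ := by
      refine (le_abs_self _).trans ((abs_rt_mul_le _ _).trans ?_)
      rw [nrm_star]
      calc nrm (z - js) * nrm z ≤ δ₂ * 1 := mul_le_mul h3 hz1 (nrm_nonneg _) hδ₂
        _ = δ₂ := mul_one _
    have b2 : rt (star js * z) ≤ η * (1 + δ₂) := by
      refine (le_abs_self _).trans ((Complex.abs_re_le_norm _).trans (h4.trans ?_))
      gcongr
    linarith
  linarith

theorem lower_bound (hN : IsII1Factor N) (hG : ¬ HasGamma N) (hT : IsTensorProduct N S M) :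
    ∃ (k : ℕ) (a : Fin k → M), (∀ i, ‖a i‖ ≤ 1) ∧ ∃ ε : ℝ, 0 < ε ∧
      ∀ y : M, ‖y‖ ≤ 1 → ε ≤ flipDefect a y := by
  obtain ⟨i, j, hcomm, htau, hdense⟩ := hT
  obtain ⟨F, C, hC, hF, hgap⟩ := spectral_gap hN hG
  obtain ⟨C', hC', hgap'⟩ := gap_tensor i j hcomm htau hdense F hC hgap
  set k := F.card with hk
  let enum : Fin k ≃ F := (F.equivFin).symm
  let a : Fin k → M := fun t => i (enum t : N)
  have hsum : ∀ f : N → ℝ, ∑ u ∈ F, f u = ∑ t : Fin k, f (enum t : N) := by
    intro f
    rw [← Finset.sum_coe_sort F f]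
    exact (Equiv.sum_comp enum (fun u : F => f (u : N))).symm
  have hiu : ∀ u ∈ unitary N, i u ∈ unitary M := by
    intro u hu
    rw [Unitary.mem_iff] at hu ⊢
    rw [← map_star, ← map_mul, ← map_mul, hu.1, hu.2, map_one]
    exact ⟨rfl, rfl⟩
  have haU : ∀ t, a t ∈ unitary M := fun t => hiu _ (hF _ (enum t).2)
  have ha1 : ∀ t, ‖a t‖ ≤ 1 := fun t => norm_unitary_le (haU t)
  refine ⟨k, a, ha1, ?_⟩
  set K : ℝ := C' * k * (4 + 2 * (C' * k)) + 1 with hK
  have hK1 : 1 ≤ K := by
    have : 0 ≤ C' * k * (4 + 2 * (C' * k)) := by positivity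
    linarith
  set δ : ℝ := 1 / (8 * K) with hδ
  have hδ0 : 0 < δ := by positivity
  have hδK : δ * K = 1 / 8 := by
    rw [hδ]; field_simp
  have hδ8 : δ ≤ 1 / 8 := by nlinarith
  refine ⟨δ ^ 2, by positivity, fun y hy => ?_⟩
  by_contra hlt
  have hlt' : flipDefect a y < δ ^ 2 := not_le.mp hlt
  have hsn : ∀ p q : Fin k, 0 ≤ nrm (com (y * a p * star y) (a q)) ^ 2 := fun _ _ => sq_nonneg _
  have hSS : 0 ≤ ∑ p, ∑ q, nrm (com (y * a p * star y) (a q)) ^ 2 :=
    Finset.sum_nonneg fun p _ => Finset.sum_nonneg fun q _ => sq_nonneg _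
  have h1 : nrm (star y * y - 1) ≤ δ := by
    apply nrm_le_of_sq hδ0.le
    unfold flipDefect at hlt'
    nlinarith [sq_nonneg (nrm (y * star y - 1))]
  have h2 : nrm (y * star y - 1) ≤ δ := by
    apply nrm_le_of_sq hδ0.le
    unfold flipDefect at hlt'
    nlinarith [sq_nonneg (nrm (star y * y - 1))]
  have h3 : ∀ p q, nrm (com (y * a p * star y) (a q)) ≤ δ := by
    intro p q
    apply nrm_le_of_sq hδ0.le
    have hle : nrm (com (y * a p * star y) (a q)) ^ 2
        ≤ ∑ p, ∑ q, nrm (com (y * a p * star y) (a q)) ^ 2 := by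
      refine le_trans ?_ (Finset.single_le_sum (f := fun p => ∑ q, nrm (com (y * a p * star y)
        (a q)) ^ 2) (fun p _ => Finset.sum_nonneg fun q _ => hsn p q) (Finset.mem_univ p))
      exact Finset.single_le_sum (f := fun q => nrm (com (y * a p * star y) (a q)) ^ 2)
        (fun q _ => hsn p q) (Finset.mem_univ q)
    unfold flipDefect at hlt'
    nlinarith [sq_nonneg (nrm (star y * y - 1)), sq_nonneg (nrm (y * star y - 1))]
  have hys : ‖star y‖ ≤ 1 := by rw [norm_star]; exact hy
  -- step 1: each `y a_p y*` is near `j S`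
  set δ₁ : ℝ := C' * (k * δ) + δ with hδ₁
  have hδ₁0 : 0 ≤ δ₁ := by positivity
  have step1 : ∀ p, ∃ s : S, nrm (y * a p * star y - j s) ≤ δ₁ := by
    intro p
    obtain ⟨s, hs⟩ := hgap' (y * a p * star y) δ hδ0
    refine ⟨s, hs.trans ?_⟩
    have : ∑ u ∈ F, nrm (com (i u) (y * a p * star y)) ≤ k * δ := by
      rw [hsum (fun u => nrm (com (i u) (y * a p * star y)))]
      calc ∑ t : Fin k, nrm (com (i (enum t : N)) (y * a p * star y))
          ≤ ∑ t : Fin k, δ := by
            apply Finset.sum_le_sum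
            intro t _
            have := h3 p t
            rw [com_swap, nrm_neg] at this
            exact this
        _ = k * δ := by simp
    rw [hδ₁]
    gcongr
  -- the unitary
  obtain ⟨u, hu, hov⟩ := exists_small_overlap hN i j hcomm htau hdense y hy
    (show (0 : ℝ) < 1 / 4 by norm_num)
  have hU : i u ∈ unitary M := hiu u hu
  have hU1 := norm_unitary_le hU
  set z : M := star y * i u * y with hz
  -- step 2
  have step2 : ∀ p, nrm (com (a p) z) ≤ 2 * δ + 2 * δ₁ := by
    intro p
    obtain ⟨s, hs⟩ := step1 p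
    have c1 : nrm (com (i u) (y * a p * star y)) ≤ 2 * δ₁ := by
      have : com (i u) (y * a p * star y) = com (i u) (y * a p * star y - j s) := by
        rw [com_sub]
        have : com (i u) (j s) = 0 := by
          unfold com; rw [hcomm u s, sub_self]
        rw [this, sub_zero]
      rw [this]
      refine (nrm_com_le _ _).trans ?_
      calc 2 * ‖i u‖ * nrm (y * a p * star y - j s) ≤ 2 * 1 * δ₁ :=
            mul_le_mul (by linarith) hs (nrm_nonneg _) (by norm_num)
        _ = 2 * δ₁ := by ring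
    have dec : com (a p) z = -((star y * y - 1) * (a p * star y * i u * y))
        + (star y * i u * y * a p) * (star y * y - 1)
        - star y * com (i u) (y * a p * star y) * y := by
      rw [hz]
      unfold com
      noncomm_ring
    have n1 : ‖a p * star y * i u * y‖ ≤ 1 := by
      calc ‖a p * star y * i u * y‖ ≤ ‖a p‖ * ‖star y‖ * ‖i u‖ * ‖y‖ := by
            refine (norm_mul_le _ _).trans ?_
            gcongr
            refine (norm_mul_le _ _).trans ?_
            gcongr
            exact norm_mul_le _ _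
        _ ≤ 1 * 1 * 1 * 1 := by
            gcongr
            exact ha1 p
        _ = 1 := by norm_num
    have n2 : ‖star y * i u * y * a p‖ ≤ 1 := by
      calc ‖star y * i u * y * a p‖ ≤ ‖star y‖ * ‖i u‖ * ‖y‖ * ‖a p‖ := by
            refine (norm_mul_le _ _).trans ?_
            gcongr
            refine (norm_mul_le _ _).trans ?_
            gcongr
            exact norm_mul_le _ _
        _ ≤ 1 * 1 * 1 * 1 := by
            gcongr
            exact ha1 p
        _ = 1 := by norm_num
    have m1 : nrm ((star y * y - 1) * (a p * star y * i u * y)) ≤ δ := by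
      refine (nrm_mul_le_right _ _).trans ?_
      calc nrm (star y * y - 1) * ‖a p * star y * i u * y‖ ≤ δ * 1 :=
            mul_le_mul h1 n1 (norm_nonneg _) hδ0.le
        _ = δ := mul_one _
    have m2 : nrm ((star y * i u * y * a p) * (star y * y - 1)) ≤ δ := by
      refine (nrm_mul_le_left _ _).trans ?_
      calc ‖star y * i u * y * a p‖ * nrm (star y * y - 1) ≤ 1 * δ :=
            mul_le_mul n2 h1 (nrm_nonneg _) zero_le_one
        _ = δ := one_mul _
    have m3 : nrm (star y * com (i u) (y * a p * star y) * y) ≤ 2 * δ₁ := by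
      refine (nrm_mul_le_right _ _).trans ?_
      calc nrm (star y * com (i u) (y * a p * star y)) * ‖y‖
          ≤ (‖star y‖ * nrm (com (i u) (y * a p * star y))) * ‖y‖ := by
            gcongr
            exact nrm_mul_le_left _ _
        _ ≤ (1 * (2 * δ₁)) * 1 := by
            have := nrm_nonneg (com (i u) (y * a p * star y))
            gcongr
        _ = 2 * δ₁ := by ring
    rw [dec]
    refine (nrm_sub_le _ _).trans ?_
    have := nrm_add_le (-((star y * y - 1) * (a p * star y * i u * y)))
      ((star y * i u * y * a p) * (star y * y - 1))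
    rw [nrm_neg] at this
    linarith
  -- step 3
  obtain ⟨s, hs⟩ := hgap' z δ hδ0
  set δ₂ : ℝ := C' * (k * (2 * δ + 2 * δ₁)) + δ with hδ₂
  have hδ₂0 : 0 ≤ δ₂ := by positivity
  have hs' : nrm (z - j s) ≤ δ₂ := by
    refine hs.trans ?_
    have : ∑ u ∈ F, nrm (com (i u) z) ≤ k * (2 * δ + 2 * δ₁) := by
      rw [hsum (fun u => nrm (com (i u) z))]
      calc ∑ t : Fin k, nrm (com (i (enum t : N)) z)
          ≤ ∑ t : Fin k, (2 * δ + 2 * δ₁) := Finset.sum_le_sum fun t _ => step2 t
        _ = k * (2 * δ + 2 * δ₁) := by simp [mul_add]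
    rw [hδ₂]
    gcongr
  have hδ₂v : δ₂ = δ * K := by
    rw [hδ₂, hδ₁, hK]; ring
  have hov' : ‖tau (star (j s) * z)‖ ≤ 1 / 4 * nrm (j s) := by
    rw [nrm_leg htau]
    exact hov s
  have := key_estimate hy hU hz h1 h2 hs' hov' (by norm_num) hδ₂0
  rw [hδ₂v, hδK] at this
  linarith

end Pool.Agent.McDuffR
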