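import Pool.Agent.MP_af2a1c_lc.Dyadic

/-! Task T3: relatively almost central projections are independent of fixed elements. -/

namespace Pool.Agent.McDuffR

open Filter Topology ComplexConjugate

variable {M : Type*} [CStarAlgebra M] [TracialVNA M]

/-- `x` is nearly tracial: for every `η > 0` there are finitely many unitaries `W` and `δ > 0` such
that `|tau (x e) - tau x tau e| ≤ η tau e` for all projections `e` with
`∑_{w ∈ W} ‖[w,e]‖_2^2 ≤ δ tau e`. -/
def NearTr (x : M) : Prop :=
  ∀ η : ℝ, 0 < η → ∃ (W : Finset M) (δ : ℝ), 0 < δ ∧ (∀ w ∈ W, w ∈ unitary M) ∧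
    ∀ e : M, IsStarProjection e → ∑ w ∈ W, nrm (com w e) ^ 2 ≤ δ * rt e →
      ‖tau (x * e) - tau x * tau e‖ ≤ η * rt e

/-- Near trace up to a constant `κ`. -/
def NearTrUpTo (κ : ℝ) (x : M) : Prop :=
  ∀ η : ℝ, 0 < η → ∃ (W : Finset M) (δ : ℝ), 0 < δ ∧ (∀ w ∈ W, w ∈ unitary M) ∧
    ∀ e : M, IsStarProjection e → ∑ w ∈ W, nrm (com w e) ^ 2 ≤ δ * rt e →
      ‖tau (x * e) - tau x * tau e‖ ≤ (κ + η) * rt e

lemma NearTr.upTo {x : M} (h : NearTr x) : NearTrUpTo 0 x := by
  intro η hη
  obtain ⟨W, δ, hδ, hW, hb⟩ := h η hη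
  exact ⟨W, δ, hδ, hW, fun e he hc => by simpa using hb e he hc⟩

lemma NearTrUpTo.nearTr {x : M} (h : NearTrUpTo 0 x) : NearTr x := by
  intro η hη
  obtain ⟨W, δ, hδ, hW, hb⟩ := h η hη
  exact ⟨W, δ, hδ, hW, fun e he hc => by simpa using hb e he hc⟩

lemma NearTrUpTo.mono {κ κ' : ℝ} (hk : κ ≤ κ') {x : M} (h : NearTrUpTo κ x) :
    NearTrUpTo κ' x := by
  intro η hη
  obtain ⟨W, δ, hδ, hW, hb⟩ := h η hη
  refine ⟨W, δ, hδ, hW, fun e he hc => (hb e he hc).trans ?_⟩
  have := rt_proj_nonneg he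
  nlinarith

lemma NearTrUpTo.add {κ κ' : ℝ} {x y : M} (hx : NearTrUpTo κ x) (hy : NearTrUpTo κ' y) :
    NearTrUpTo (κ + κ') (x + y) := by
  classical
  intro η hη
  obtain ⟨W, δ, hδ, hW, hb⟩ := hx (η / 2) (by positivity)
  obtain ⟨W', δ', hδ', hW', hb'⟩ := hy (η / 2) (by positivity)
  refine ⟨W ∪ W', min δ δ', lt_min hδ hδ', ?_, ?_⟩
  · intro w hw
    rcases Finset.mem_union.1 hw with h | h
    · exact hW w h
    · exact hW' w h
  · intro e he hc
    have he0 := rt_proj_nonneg he
    have h1 : ∑ w ∈ W, nrm (com w e) ^ 2 ≤ δ * rt e := by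
      calc ∑ w ∈ W, nrm (com w e) ^ 2 ≤ ∑ w ∈ W ∪ W', nrm (com w e) ^ 2 :=
            Finset.sum_le_sum_of_subset_of_nonneg Finset.subset_union_left
              (fun _ _ _ => by positivity)
        _ ≤ min δ δ' * rt e := hc
        _ ≤ δ * rt e := mul_le_mul_of_nonneg_right (min_le_left _ _) he0
    have h2 : ∑ w ∈ W', nrm (com w e) ^ 2 ≤ δ' * rt e := by
      calc ∑ w ∈ W', nrm (com w e) ^ 2 ≤ ∑ w ∈ W ∪ W', nrm (com w e) ^ 2 :=
            Finset.sum_le_sum_of_subset_of_nonneg Finset.subset_union_right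
              (fun _ _ _ => by positivity)
        _ ≤ min δ δ' * rt e := hc
        _ ≤ δ' * rt e := mul_le_mul_of_nonneg_right (min_le_right _ _) he0
    have h3 := hb e he h1
    have h4 := hb' e he h2
    have e1 : tau ((x + y) * e) - tau (x + y) * tau e =
        (tau (x * e) - tau x * tau e) + (tau (y * e) - tau y * tau e) := by
      rw [add_mul, tau_add, tau_add]; ring
    rw [e1]
    calc _ ≤ _ := norm_add_le _ _
      _ ≤ (κ + η / 2) * rt e + (κ' + η / 2) * rt e := add_le_add h3 h4
      _ = _ := by ring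

lemma NearTr.add {x y : M} (hx : NearTr x) (hy : NearTr y) : NearTr (x + y) := by
  have := hx.upTo.add hy.upTo
  rw [add_zero] at this
  exact this.nearTr

lemma NearTr.zero : NearTr (0 : M) := by
  intro η hη
  refine ⟨∅, 1, one_pos, by simp, fun e he _ => ?_⟩
  have := rt_proj_nonneg he
  simp only [zero_mul]
  have h0 : tau (0 : M) = 0 := by simp [tau_def]
  rw [h0]
  simp only [zero_mul, sub_zero, norm_zero]
  positivity

lemma NearTr.one : NearTr (1 : M) := by
  intro η hη
  refine ⟨∅, 1, one_pos, by simp, fun e he _ => ?_⟩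
  have := rt_proj_nonneg he
  simp only [one_mul]
  have h0 : tau (1 : M) = 1 := by simp
  rw [h0]
  simp only [one_mul, sub_self, norm_zero]
  positivity

lemma NearTr.smul {x : M} (hx : NearTr x) (c : ℂ) : NearTr (c • x) := by
  intro η hη
  obtain ⟨W, δ, hδ, hW, hb⟩ := hx (η / (‖c‖ + 1)) (by positivity)
  refine ⟨W, δ, hδ, hW, fun e he hc => ?_⟩
  have h1 := hb e he hc
  have e1 : tau (c • x * e) - tau (c • x) * tau e = c * (tau (x * e) - tau x * tau e) := by
    rw [smul_mul_assoc, tau_smul, tau_smul]; ring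
  rw [e1, norm_mul]
  have he0 := rt_proj_nonneg he
  calc ‖c‖ * ‖tau (x * e) - tau x * tau e‖ ≤ (‖c‖ + 1) * (η / (‖c‖ + 1) * rt e) := by
        gcongr
        linarith
    _ = η * rt e := by
        field_simp

lemma NearTr.sub {x y : M} (hx : NearTr x) (hy : NearTr y) : NearTr (x - y) := by
  have h := hx.add (hy.smul (-1))
  have e1 : x + (-1 : ℂ) • y = x - y := by
    rw [neg_smul, one_smul, sub_eq_add_neg]
  rwa [e1] at h

lemma NearTr.sum {ι : Type*} (s : Finset ι) (f : ι → M) (h : ∀ i ∈ s, NearTr (f i)) :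
    NearTr (∑ i ∈ s, f i) := by
  classical
  induction s using Finset.induction_on with
  | empty => simpa using NearTr.zero
  | insert a s ha ih =>
    rw [Finset.sum_insert ha]
    exact (h a (Finset.mem_insert_self _ _)).add
      (ih (fun i hi => h i (Finset.mem_insert_of_mem hi)))

/-- basic estimate. -/
lemma norm_tau_com_mul_le (b c : M) {e : M} (he : IsStarProjection e) :
    ‖tau (com b c * e)‖ ≤ 2 * ‖b‖ * nrm e * nrm (com c e) := by
  have e1 : tau (com b c * e) = tau (e * b * com c e) + tau (b * e * com c e) := by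
    have h1 : tau (com b c * e) = tau (b * com c e) := by
      unfold com
      rw [sub_mul, mul_sub, tau_sub, tau_sub]
      have : tau (c * b * e) = tau (b * (e * c)) := by
        rw [mul_assoc, tau_comm, mul_assoc]
      rw [this, mul_assoc]
    have h2 : com c e = com c e * e + e * com c e := by
      rw [← com_mul, proj_sq he]
    rw [h1]
    conv_lhs => rw [h2]
    rw [mul_add, tau_add]
    congr 1
    · rw [← mul_assoc, tau_comm, ← mul_assoc]
    · rw [← mul_assoc]
  rw [e1]
  have he1 := norm_proj_le he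
  have hn : nrm (e * b) ≤ nrm e * ‖b‖ := nrm_mul_le_right e b
  have hn' : nrm (b * e) ≤ ‖b‖ * nrm e := nrm_mul_le_left b e
  calc ‖tau (e * b * com c e) + tau (b * e * com c e)‖
      ≤ ‖tau (e * b * com c e)‖ + ‖tau (b * e * com c e)‖ := norm_add_le _ _
    _ ≤ nrm (e * b) * nrm (com c e) + nrm (b * e) * nrm (com c e) :=
        add_le_add (norm_tau_mul_le _ _) (norm_tau_mul_le _ _)
    _ ≤ (nrm e * ‖b‖) * nrm (com c e) + (‖b‖ * nrm e) * nrm (com c e) := by
        have := nrm_nonneg (com c e)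
        gcongr
    _ = _ := by ring

lemma nearTr_com_unitary (b : M) {c : M} (hc : c ∈ unitary M) : NearTr (com b c) := by
  intro η hη
  refine ⟨{c}, (η / (2 * ‖b‖ + 1)) ^ 2, by positivity, by simpa using hc, fun e he h => ?_⟩
  rw [Finset.sum_singleton] at h
  have he0 := rt_proj_nonneg he
  have h1 : nrm (com c e) ≤ η / (2 * ‖b‖ + 1) * nrm e := by
    rw [← nrm_proj_sq he, ← mul_pow] at h
    exact le_of_sq_le_sq h (by have := nrm_nonneg e; positivity)
  have h2 : tau (com b c) = 0 := by
    unfold com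
    rw [tau_sub, tau_comm, sub_self]
  rw [h2, zero_mul, sub_zero]
  refine (norm_tau_com_mul_le b c he).trans ?_
  have hne := nrm_nonneg e
  calc 2 * ‖b‖ * nrm e * nrm (com c e) ≤ (2 * ‖b‖ + 1) * nrm e * (η / (2 * ‖b‖ + 1) * nrm e) := by
        have := nrm_nonneg (com c e)
        gcongr
        linarith
    _ = η * (nrm e ^ 2) := by
        field_simp
    _ = η * rt e := by rw [nrm_proj_sq he]

lemma nearTr_com (b c : M) : NearTr (com b c) := by
  have hc : c ∈ Submodule.span ℂ (unitary M : Set M) := by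
    rw [CStarAlgebra.span_unitary]; trivial
  induction hc using Submodule.span_induction with
  | mem x hx => exact nearTr_com_unitary b hx
  | zero => simpa using NearTr.zero
  | add x y _ _ hx hy => rw [com_add]; exact hx.add hy
  | smul a x _ hx => rw [com_smul]; exact hx.smul a

/-- closure under operator norm limits -/
lemma NearTrUpTo.of_close {κ : ℝ} {x y : M} (hy : NearTrUpTo κ y) {ε : ℝ} (h : ‖x - y‖ ≤ ε) :
    NearTrUpTo (κ + 2 * ε) x := by
  intro η hη
  obtain ⟨W, δ, hδ, hW, hb⟩ := hy η hη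
  refine ⟨W, δ, hδ, hW, fun e he hc => ?_⟩
  have he0 := rt_proj_nonneg he
  have h1 := hb e he hc
  have e1 : tau (x * e) - tau x * tau e =
      (tau (y * e) - tau y * tau e) + tau ((x - y) * e) - tau (x - y) * tau e := by
    rw [sub_mul, tau_sub, tau_sub]; ring
  have h2 : ‖tau ((x - y) * e)‖ ≤ ε * rt e := by
    have e2 : tau ((x - y) * e) = tau ((x - y) * e * e) := by
      rw [mul_assoc, proj_sq he]
    rw [e2]
    calc ‖tau ((x - y) * e * e)‖ ≤ nrm ((x - y) * e) * nrm e := norm_tau_mul_le _ _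
      _ ≤ (‖x - y‖ * nrm e) * nrm e := by
          have := nrm_nonneg e
          gcongr
          exact nrm_mul_le_left _ _
      _ = ‖x - y‖ * nrm e ^ 2 := by ring
      _ ≤ ε * rt e := by
          rw [nrm_proj_sq he]
          gcongr
  have h3 : ‖tau (x - y) * tau e‖ ≤ ε * rt e := by
    rw [norm_mul, tau_proj he, Complex.norm_real, Real.norm_eq_abs, abs_of_nonneg he0]
    have := (norm_tau_le (x - y)).trans (nrm_le_norm (x - y))
    gcongr
    exact this.trans h
  rw [e1]
  calc _ ≤ ‖(tau (y * e) - tau y * tau e) + tau ((x - y) * e)‖ + ‖tau (x - y) * tau e‖ :=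
        norm_sub_le _ _
    _ ≤ (‖tau (y * e) - tau y * tau e‖ + ‖tau ((x - y) * e)‖) + ‖tau (x - y) * tau e‖ := by
        gcongr
        exact norm_add_le _ _
    _ ≤ ((κ + η) * rt e + ε * rt e) + ε * rt e := by gcongr
    _ = _ := by ring

lemma NearTr.of_forall_upTo {x : M} (h : ∀ κ : ℝ, 0 < κ → NearTrUpTo κ x) : NearTr x := by
  intro η hη
  obtain ⟨W, δ, hδ, hW, hb⟩ := h (η / 2) (by positivity) (η / 2) (by positivity)
  refine ⟨W, δ, hδ, hW, fun e he hc => ?_⟩
  have := hb e he hc
  rwa [add_halves] at this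

omit [TracialVNA M] in
lemma proj_sub_of_mul {p q : M} (hp : IsStarProjection p) (hq : IsStarProjection q)
    (h : q * p = p) : IsStarProjection (q - p) := by
  have h' : p * q = p := by
    have := congrArg star h
    rwa [star_mul, proj_star hp, proj_star hq] at this
  refine ⟨?_, ?_⟩
  · change (q - p) * (q - p) = q - p
    have : (q - p) * (q - p) = q * q - q * p - p * q + p * p := by noncomm_ring
    rw [this, proj_sq hq, proj_sq hp, h, h']; noncomm_ring
  · rw [IsSelfAdjoint, star_sub, proj_star hp, proj_star hq]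

lemma tau_proj_mul_proj {p q : M} (hp : IsStarProjection p) (hq : IsStarProjection q) :
    tau (p * q) = (rt (p * q) : ℂ) := by
  apply Complex.ext
  · simp [rt]
  · have h1 : tau (star (p * q)) = conj (tau (p * q)) := tau_star _
    rw [star_mul, proj_star hp, proj_star hq, tau_comm] at h1
    simpa using Complex.conj_eq_iff_im.1 h1.symm

/-- Projections subequivalent to a nearly tracial projection `e₀`. -/
lemma nearTrUpTo_of_subeq {r e₀ : M} (hr : IsStarProjection r) (he₀ : IsStarProjection e₀)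
    (h0 : NearTr e₀) (h : Subeq r e₀) : NearTrUpTo (2 * rt e₀) r := by
  obtain ⟨v, hv, hv'⟩ := h
  have hs : IsStarProjection (v * star v) := proj_mul_star_of_proj (by rw [hv]; exact hr)
  have hes : e₀ * (v * star v) = v * star v := by rw [← mul_assoc, hv']
  have e1 : r = v * star v + com (star v) v := by
    unfold com; rw [hv]; abel
  have key : NearTrUpTo (2 * rt e₀) (v * star v) := by
    intro η hη
    obtain ⟨W, δ, hδ, hW, hb⟩ := h0 η hη
    refine ⟨W, δ, hδ, hW, fun e he hc => ?_⟩
    have he0 := rt_proj_nonneg he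
    have h1 := hb e he hc
    have h2 : 0 ≤ rt ((e₀ - v * star v) * e) :=
      rt_proj_mul_proj_nonneg (proj_sub_of_mul hs he₀ hes) he
    have h3 : 0 ≤ rt (v * star v * e) := rt_proj_mul_proj_nonneg hs he
    rw [sub_mul, rt_sub] at h2
    have h4 : rt (e₀ * e) ≤ rt e₀ * rt e + η * rt e := by
      have h5 : (tau (e₀ * e) - tau e₀ * tau e).re ≤ η * rt e :=
        (Complex.re_le_norm _).trans h1
      rw [tau_proj he₀, tau_proj he] at h5
      simp only [Complex.sub_re, Complex.mul_re, Complex.ofReal_re, Complex.ofReal_im, mul_zero,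
        sub_zero] at h5
      change rt (e₀ * e) - _ ≤ _ at h5
      linarith
    have h6 : rt (v * star v) ≤ rt e₀ := rt_mono_proj hs he₀ hes
    have h7 : 0 ≤ rt (v * star v) := rt_proj_nonneg hs
    rw [tau_proj_mul_proj hs he, tau_proj hs, tau_proj he, ← Complex.ofReal_mul,
      ← Complex.ofReal_sub, Complex.norm_real, Real.norm_eq_abs, abs_le]
    constructor <;> nlinarith
  rw [e1]
  have := key.add (nearTr_com (star v) v).upTo
  rwa [add_zero] at this

lemma nearTrUpTo_of_trace_le (hM : IsII1Factor M) {e₀ : M} (he₀ : IsStarProjection e₀)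
    (h0 : NearTr e₀) : ∀ (n : ℕ) (p : M), IsStarProjection p → rt p ≤ n * rt e₀ →
      NearTrUpTo (2 * rt e₀) p := by
  intro n
  induction n with
  | zero =>
    intro p hp h
    have : p = 0 := by
      rw [← rt_proj_eq_zero hp]
      have := rt_proj_nonneg hp
      simp at h
      linarith
    rw [this]
    exact (NearTr.zero).upTo.mono (by have := rt_proj_nonneg he₀; linarith)
  | succ n ih =>
    intro p hp h
    rcases comparison hM hp he₀ with h1 | h1
    · exact nearTrUpTo_of_subeq hp he₀ h0 h1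
    · obtain ⟨v, hv, hv'⟩ := h1
      have hs : IsStarProjection (v * star v) := proj_mul_star_of_proj (by rw [hv]; exact he₀)
      have hes : p * (v * star v) = v * star v := by rw [← mul_assoc, hv']
      have hp' := proj_sub_of_mul hs hp hes
      have hrt : rt (v * star v) = rt e₀ := by rw [rt_comm, hv]
      have h2 := ih (p - v * star v) hp' (by
        rw [rt_sub, hrt]; push_cast at h; linarith)
      have h3 : NearTr (v * star v) := by
        have e1 : v * star v = e₀ + com v (star v) := by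
          unfold com; rw [hv]; abel
        rw [e1]
        exact h0.add (nearTr_com _ _)
      have h4 := h2.add h3.upTo
      rw [add_zero, sub_add_cancel] at h4
      exact h4

lemma nearTr_proj (hM : IsII1Factor M) {p : M} (hp : IsStarProjection p) : NearTr p := by
  apply NearTr.of_forall_upTo
  intro κ hκ
  obtain ⟨m, hm⟩ : ∃ m : ℕ, 2 * (2 ^ m : ℝ)⁻¹ ≤ κ := by
    obtain ⟨m, hm⟩ := exists_pow_lt_of_lt_one (show (0 : ℝ) < κ / 2 by positivity)
      (show (1 / 2 : ℝ) < 1 by norm_num)
    refine ⟨m, ?_⟩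
    rw [one_div, inv_pow] at hm
    linarith
  obtain ⟨e₀, w, he₀, hrt, hw1, hw2, hw3⟩ := exists_dyadic hM m
  have h0 : NearTr e₀ := by
    have e1 : ((2 ^ m : ℕ) : ℂ) • e₀ = 1 - ∑ i, com (w i) (star (w i)) := by
      rw [← hw3, ← Finset.sum_sub_distrib]
      have : ∀ i, w i * star (w i) - com (w i) (star (w i)) = e₀ := by
        intro i
        unfold com
        rw [hw1]
        abel
      simp only [this]
      rw [Finset.sum_const, Finset.card_univ, Fintype.card_fin, Nat.cast_smul_eq_nsmul]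
    have h1 : NearTr (((2 ^ m : ℕ) : ℂ) • e₀) := by
      rw [e1]
      exact NearTr.one.sub (NearTr.sum _ _ (fun i _ => nearTr_com _ _))
    have h2 := h1.smul ((((2 ^ m : ℕ) : ℂ))⁻¹)
    have hne : (((2 ^ m : ℕ) : ℂ)) ≠ 0 := by
      exact_mod_cast (pow_ne_zero m (two_ne_zero : (2 : ℕ) ≠ 0))
    rwa [smul_smul, inv_mul_cancel₀ hne, one_smul] at h2
  have h3 := nearTrUpTo_of_trace_le hM he₀ h0 (2 ^ m) p hp (by
    rw [hrt]
    push_cast
    rw [mul_inv_cancel₀ (by positivity)]
    exact rt_proj_le_one hp)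
  rw [hrt] at h3
  exact h3.mono hm

lemma nearTr_selfAdjoint (hM : IsII1Factor M) {h : M} (hh : IsSelfAdjoint h) : NearTr h := by
  apply NearTr.of_forall_upTo
  intro κ hκ
  set T : ℝ := 2 / κ with hT
  have hTpos : 0 < T := by positivity
  have hTh : IsSelfAdjoint (((T : ℝ) : ℂ) • h) := by
    rw [IsSelfAdjoint, star_smul, hh.star_eq]
    simp
  obtain ⟨n, p, k, hp, -, -, hk⟩ := exists_int_spectral hTh
  have h1 : NearTr (((T⁻¹ : ℝ) : ℂ) • ∑ i, ((k i : ℂ)) • p i) :=
    (NearTr.sum _ _ (fun i _ => (nearTr_proj hM (hp i)).smul _)).smul _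
  have h2 : ‖h - ((T⁻¹ : ℝ) : ℂ) • ∑ i, ((k i : ℂ)) • p i‖ ≤ T⁻¹ := by
    have e1 : h - ((T⁻¹ : ℝ) : ℂ) • ∑ i, ((k i : ℂ)) • p i =
        ((T⁻¹ : ℝ) : ℂ) • (((T : ℝ) : ℂ) • h - ∑ i, ((k i : ℂ)) • p i) := by
      rw [smul_sub, smul_smul, ← Complex.ofReal_mul, inv_mul_cancel₀ hTpos.ne']
      simp
    rw [e1, norm_smul, Complex.norm_real, Real.norm_eq_abs, abs_of_pos (by positivity)]
    calc T⁻¹ * _ ≤ T⁻¹ * 1 := by gcongr
      _ = T⁻¹ := mul_one _
  have h3 := h1.upTo.of_close h2
  refine h3.mono ?_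
  rw [hT, inv_div]
  linarith

/-- Sketch: `tau ([b,c] e) = tau (b [c,e])` and for a projection `e`
`[c,e] = (1-e) c e - e c (1-e)`, so `|tau (b [c,e])| ≤ 2 ‖b‖ nrm e nrm (com c e)`
for unitary `c`; in general expand `c` in unitaries (`CStarAlgebra.span_unitary`).
Then NearTr is closed under sums, scalars, operator norm limits and contains `1`. For a projection
`p` and `m` large take `e₀, w` from `exists_dyadic`; by `comparison` (greedy packing with copies of
`e₀` inside `p`) `p = ∑_{i<k} v_i v_i* + r`, `v_i* v_i = e₀`, `Subeq r e₀`. Note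
`w w* - w* w = [w, w*]` is a commutator. The error is at most about `2^(-m)`. Self-adjoint elements
are norm limits of combinations of projections by `exists_int_spectral`. -/
theorem nearTr (hM : IsII1Factor M) (x : M) : NearTr x := by
  have h1 := nearTr_selfAdjoint hM (realPart x).2
  have h2 := nearTr_selfAdjoint hM (imaginaryPart x).2
  have h3 := h1.add (h2.smul Complex.I)
  rwa [realPart_add_I_smul_imaginaryPart] at h3

end Pool.Agent.McDuffR
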