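import Pool.Agent.MP_af2a1c_lc.Basic

/-! Commutators, real traces, projections. -/

namespace Pool.Agent.McDuffR

open Filter Topology ComplexConjugate

variable {M : Type*} [CStarAlgebra M]

/-- The commutator. -/
def com (a x : M) : M := a * x - x * a

lemma com_add (a x y : M) : com a (x + y) = com a x + com a y := by unfold com; noncomm_ring
lemma com_sub (a x y : M) : com a (x - y) = com a x - com a y := by unfold com; noncomm_ring
lemma add_com (a b x : M) : com (a + b) x = com a x + com b x := by unfold com; noncomm_ring
lemma sub_com (a b x : M) : com (a - b) x = com a x - com b x := by unfold com; noncomm_ring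
lemma com_neg (a x : M) : com a (-x) = -com a x := by unfold com; noncomm_ring
lemma com_smul (c : ℂ) (a x : M) : com a (c • x) = c • com a x := by
  unfold com; rw [mul_smul_comm, smul_mul_assoc, smul_sub]
lemma smul_com (c : ℂ) (a x : M) : com (c • a) x = c • com a x := by
  unfold com; rw [mul_smul_comm, smul_mul_assoc, smul_sub]
lemma com_swap (a x : M) : com a x = -com x a := by unfold com; noncomm_ring
@[simp] lemma com_one (a : M) : com a 1 = 0 := by simp [com]
@[simp] lemma one_com (a : M) : com 1 a = 0 := by simp [com]
@[simp] lemma com_zero (a : M) : com a 0 = 0 := by simp [com]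
@[simp] lemma zero_com (a : M) : com 0 a = 0 := by simp [com]
lemma com_mul (a x y : M) : com a (x * y) = com a x * y + x * com a y := by
  unfold com; noncomm_ring
lemma com_sum {ι : Type*} (a : M) (s : Finset ι) (f : ι → M) :
    com a (∑ i ∈ s, f i) = ∑ i ∈ s, com a (f i) := by
  simp [com, Finset.mul_sum, Finset.sum_mul, Finset.sum_sub_distrib]
lemma sum_com {ι : Type*} (x : M) (s : Finset ι) (f : ι → M) :
    com (∑ i ∈ s, f i) x = ∑ i ∈ s, com (f i) x := by
  simp [com, Finset.mul_sum, Finset.sum_mul, Finset.sum_sub_distrib]
lemma star_com (a x : M) : star (com a x) = -com (star a) (star x) := by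
  unfold com; rw [star_sub, star_mul, star_mul]; noncomm_ring

lemma proj_sq {p : M} (hp : IsStarProjection p) : p * p = p := hp.isIdempotentElem
lemma proj_star {p : M} (hp : IsStarProjection p) : star p = p := hp.isSelfAdjoint

variable [TracialVNA M]

/-- The real part of the trace. -/
noncomputable def rt (x : M) : ℝ := (tau x).re

/-- Murray-von Neumann subequivalence of projections. -/
def Subeq (p q : M) : Prop := ∃ v : M, star v * v = p ∧ q * v = v

@[simp] lemma rt_add (x y : M) : rt (x + y) = rt x + rt y := by simp [rt]
@[simp] lemma rt_sub (x y : M) : rt (x - y) = rt x - rt y := by simp [rt]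
@[simp] lemma rt_neg (x : M) : rt (-x) = -rt x := by simp [rt]
@[simp] lemma rt_zero : rt (0 : M) = 0 := by simp [rt]
@[simp] lemma rt_one : rt (1 : M) = 1 := by simp [rt]
lemma rt_rsmul (c : ℝ) (x : M) : rt (c • x) = c * rt x := by
  rw [rt, rt, tau_rsmul]; simp
lemma rt_csmul (c : ℝ) (x : M) : rt ((c : ℂ) • x) = c * rt x := by
  rw [Complex.coe_smul, rt_rsmul]
lemma rt_sum {ι : Type*} (s : Finset ι) (f : ι → M) :
    rt (∑ i ∈ s, f i) = ∑ i ∈ s, rt (f i) := by simp [rt, tau_sum]
lemma rt_comm (x y : M) : rt (x * y) = rt (y * x) := by rw [rt, rt, tau_comm]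
lemma rt_star (x : M) : rt (star x) = rt x := by simp [rt, tau_star]
lemma nrm_sq_rt (x : M) : nrm x ^ 2 = rt (star x * x) := nrm_sq x
lemma rt_star_mul_self_nonneg (x : M) : 0 ≤ rt (star x * x) := tau_star_mul_self_re x
lemma rt_mul_star_self_nonneg (x : M) : 0 ≤ rt (x * star x) := by
  rw [rt_comm]; exact rt_star_mul_self_nonneg x
lemma abs_rt_mul_le (x y : M) : |rt (x * y)| ≤ nrm x * nrm y :=
  (Complex.abs_re_le_norm _).trans (norm_tau_mul_le x y)
lemma abs_rt_le (x : M) : |rt x| ≤ nrm x := (Complex.abs_re_le_norm _).trans (norm_tau_le x)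

lemma nrm_com_le (a x : M) : nrm (com a x) ≤ 2 * ‖a‖ * nrm x := by
  unfold com
  have h1 := nrm_sub_le (a * x) (x * a)
  have h2 := nrm_mul_le_left a x
  have h3 := nrm_mul_le_right x a
  nlinarith

lemma nrm_com_le' (a x : M) : nrm (com a x) ≤ 2 * nrm a * ‖x‖ := by
  rw [com_swap, nrm_neg]
  have := nrm_com_le x a
  nlinarith

/-- For unitary `u`, the commutators with `x` and `star x` have the same 2-norm. -/
lemma nrm_com_star {u : M} (hu : u ∈ unitary M) (x : M) :
    nrm (com u (star x)) = nrm (com u x) := by
  have e : com u (star x) = u * star (u * x - x * u) * u := by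
    unfold com
    rw [star_sub, star_mul, star_mul]
    have h1 : star u * u = 1 := Unitary.star_mul_self_of_mem hu
    have h2 : u * star u = 1 := Unitary.mul_star_self_of_mem hu
    calc u * star x - star x * u
        = u * star x * (star u * u) - (u * star u) * star x * u := by rw [h1, h2]; noncomm_ring
      _ = _ := by noncomm_ring
  rw [e, nrm_mul_unitary hu, nrm_unitary_mul hu, nrm_star]
  rfl

lemma nrm_com_unitary_eq {u : M} (hu : u ∈ unitary M) (x : M) :
    nrm (com u x) = nrm (u * x * star u - x) := by
  have e : (u * x * star u - x) * u = com u x := by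
    have h1 : star u * u = 1 := Unitary.star_mul_self_of_mem hu
    unfold com
    calc (u * x * star u - x) * u = u * x * (star u * u) - x * u := by noncomm_ring
      _ = _ := by rw [h1, mul_one]
  rw [← e, nrm_mul_unitary hu]

section proj

variable {p q : M}

lemma nrm_proj_sq (hp : IsStarProjection p) : nrm p ^ 2 = rt p := by
  rw [nrm_sq_rt, proj_star hp, proj_sq hp]

lemma rt_proj_nonneg (hp : IsStarProjection p) : 0 ≤ rt p := by
  rw [← nrm_proj_sq hp]; positivity

lemma rt_proj_eq_zero (hp : IsStarProjection p) : rt p = 0 ↔ p = 0 := by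
  rw [← nrm_proj_sq hp]
  constructor
  · intro h; exact nrm_eq_zero.1 (by simpa using h)
  · rintro rfl; simp

lemma rt_proj_pos (hp : IsStarProjection p) (h : p ≠ 0) : 0 < rt p :=
  lt_of_le_of_ne (rt_proj_nonneg hp) (fun h' => h ((rt_proj_eq_zero hp).1 h'.symm))

lemma rt_proj_le_one (hp : IsStarProjection p) : rt p ≤ 1 := by
  have := rt_proj_nonneg hp.one_sub
  simp at this; exact this

lemma tau_proj (hp : IsStarProjection p) : tau p = (rt p : ℂ) := by
  apply Complex.ext
  · simp [rt]
  · simpa using tau_isSelfAdjoint_im hp.isSelfAdjoint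

omit [TracialVNA M] in
lemma norm_proj_le (hp : IsStarProjection p) : ‖p‖ ≤ 1 := by
  have h : ‖p‖ * ‖p‖ = ‖p‖ := by
    rw [← CStarRing.norm_star_mul_self, proj_star hp, proj_sq hp]
  nlinarith [norm_nonneg p]

/-- `p ≤ q` for projections, in the form `q * p = p`, gives monotonicity of the trace. -/
lemma rt_mono_proj (hp : IsStarProjection p) (hq : IsStarProjection q) (h : q * p = p) :
    rt p ≤ rt q := by
  have h' : p * q = p := by
    have := congrArg star h
    rwa [star_mul, proj_star hp, proj_star hq] at this
  have h2 : IsStarProjection (q - p) := by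
    refine ⟨?_, ?_⟩
    · change (q - p) * (q - p) = q - p
      have : (q - p) * (q - p) = q * q - q * p - p * q + p * p := by noncomm_ring
      rw [this, proj_sq hq, proj_sq hp, h, h']; noncomm_ring
    · rw [IsSelfAdjoint, star_sub, proj_star hp, proj_star hq]
  have := rt_proj_nonneg h2
  simp at this; exact this

/-- Products of projections have nonnegative trace. -/
lemma rt_proj_mul_proj (hp : IsStarProjection p) (hq : IsStarProjection q) :
    rt (p * q) = nrm (q * p) ^ 2 := by
  rw [nrm_sq_rt, star_mul, proj_star hp, proj_star hq]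
  have : p * q * (q * p) = p * q * p := by
    calc p * q * (q * p) = p * (q * q) * p := by noncomm_ring
      _ = _ := by rw [proj_sq hq]
  rw [this, rt_comm (p * q) p, ← mul_assoc, proj_sq hp]

lemma rt_proj_mul_proj_nonneg (hp : IsStarProjection p) (hq : IsStarProjection q) :
    0 ≤ rt (p * q) := by
  rw [rt_proj_mul_proj hp hq]; positivity

omit [TracialVNA M] in
lemma conj_proj {u : M} (hu : u ∈ unitary M) (hp : IsStarProjection p) :
    IsStarProjection (u * p * star u) := by
  have h1 : star u * u = 1 := Unitary.star_mul_self_of_mem hu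
  refine ⟨?_, ?_⟩
  · change u * p * star u * (u * p * star u) = u * p * star u
    calc u * p * star u * (u * p * star u) = u * p * (star u * u) * p * star u := by noncomm_ring
      _ = u * (p * p) * star u := by rw [h1]; noncomm_ring
      _ = _ := by rw [proj_sq hp]
  · rw [IsSelfAdjoint]; simp [star_mul, proj_star hp, mul_assoc]

end proj

omit [TracialVNA M] in
/-- If `star v * v` is a projection then `v * star v * v = v`. -/
lemma mul_star_mul_self_of_proj {v : M} (h : IsStarProjection (star v * v)) :
    v * (star v * v) = v := by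
  have e : star (v - v * (star v * v)) * (v - v * (star v * v)) = 0 := by
    have h2 := proj_sq h
    rw [star_sub, star_mul, star_mul, star_star]
    calc (star v - star v * v * star v) * (v - v * (star v * v))
        = star v * v - star v * v * (star v * v) - (star v * v * (star v * v))
          + (star v * v * (star v * v)) * (star v * v) := by noncomm_ring
      _ = 0 := by rw [h2, h2]; noncomm_ring
  have h3 : v - v * (star v * v) = 0 := by
    have := CStarRing.norm_star_mul_self (x := v - v * (star v * v))
    rw [e, norm_zero] at this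
    exact norm_eq_zero.1 (by nlinarith [norm_nonneg (v - v * (star v * v))])
  exact (sub_eq_zero.1 h3).symm

omit [TracialVNA M] in
lemma proj_mul_star_of_proj {v : M} (h : IsStarProjection (star v * v)) :
    IsStarProjection (v * star v) := by
  refine ⟨?_, ?_⟩
  · change v * star v * (v * star v) = v * star v
    calc v * star v * (v * star v) = v * (star v * v) * star v := by noncomm_ring
      _ = _ := by rw [mul_star_mul_self_of_proj h]
  · rw [IsSelfAdjoint, star_mul, star_star]

lemma Subeq.rt_le {p q : M} (hp : IsStarProjection p) (hq : IsStarProjection q)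
    (h : Subeq p q) : rt p ≤ rt q := by
  obtain ⟨v, rfl, hv⟩ := h
  rw [rt_comm]
  refine rt_mono_proj (proj_mul_star_of_proj hp) hq ?_
  rw [← mul_assoc, hv]

end Pool.Agent.McDuffR
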