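import Pool.Agent.MP_af2a1c_lc.Cut

/-! Task T4: from almost central vectors to relatively almost central projections. -/

namespace Pool.Agent.McDuffR

open Filter Topology ComplexConjugate

namespace PSaux

/-! ### Real combinatorics -/

theorem sum_odd (a N : ℕ) (h : a ≤ N) :
    ∑ t ∈ Finset.range N, (2 * (t:ℝ) + 1) * (if t < a then 1 else 0) = (a:ℝ) ^ 2 := by
  have h1 : ∑ t ∈ Finset.range N, (2 * (t:ℝ) + 1) * (if t < a then 1 else 0)
      = ∑ t ∈ Finset.range a, (2 * (t:ℝ) + 1) := by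
    simp only [mul_ite, mul_one, mul_zero]
    rw [← Finset.sum_filter]
    congr 1
    ext t
    simp only [Finset.mem_filter, Finset.mem_range]
    omega
  rw [h1]
  clear h1 h
  induction a with
  | zero => simp
  | succ a ih =>
    rw [Finset.sum_range_succ, ih]
    push_cast
    ring

theorem sum_odd_diff (a b N : ℕ) (ha : a ≤ N) (hb : b ≤ N) :
    ∑ t ∈ Finset.range N, (2 * (t:ℝ) + 1) *
      ((if t < a then (1:ℝ) else 0) - (if t < b then 1 else 0)) ^ 2 = |(a:ℝ) ^ 2 - (b:ℝ) ^ 2| := by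
  wlog hab : b ≤ a generalizing a b
  · have := this b a hb ha (by omega)
    rw [abs_sub_comm, ← this]
    apply Finset.sum_congr rfl
    intro t _
    ring
  have h1 : ∀ t : ℕ, ((if t < a then (1:ℝ) else 0) - (if t < b then 1 else 0)) ^ 2 =
      (if t < a then (1:ℝ) else 0) - (if t < b then 1 else 0) := by
    intro t
    split_ifs with h1 h2 h2 <;> first | (exfalso; omega) | norm_num
  simp only [h1, mul_sub, Finset.sum_sub_distrib]
  rw [sum_odd a N ha, sum_odd b N hb, abs_of_nonneg]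
  have : (b:ℝ) ≤ a := by exact_mod_cast hab
  have hb0 : (0:ℝ) ≤ b := by positivity
  nlinarith

theorem cs_bound {n : ℕ} (w : Fin n → Fin n → ℝ) (r : Fin n → ℝ) (hw : ∀ i j, 0 ≤ w i j)
    (h1 : ∀ i, ∑ j, w i j = r i) (h2 : ∀ j, ∑ i, w i j = r j) (l : Fin n → ℕ) (N : ℕ)
    (hN : ∀ i, l i ≤ N) :
    ∑ t ∈ Finset.range N, (2 * (t:ℝ) + 1) * ∑ i, ∑ j, ((if t < l i then (1:ℝ) else 0) -
      (if t < l j then 1 else 0)) ^ 2 * w i j ≤
    2 * Real.sqrt (∑ i, ∑ j, ((l i : ℝ) - l j) ^ 2 * w i j) *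
      Real.sqrt (∑ i, (l i : ℝ) ^ 2 * r i) := by
  have e1 : ∑ t ∈ Finset.range N, (2 * (t:ℝ) + 1) * ∑ i, ∑ j, ((if t < l i then (1:ℝ) else 0) -
      (if t < l j then 1 else 0)) ^ 2 * w i j =
      ∑ i, ∑ j, |(l i:ℝ) ^ 2 - (l j:ℝ) ^ 2| * w i j := by
    simp only [Finset.mul_sum]
    rw [Finset.sum_comm]
    apply Finset.sum_congr rfl
    intro i _
    rw [Finset.sum_comm]
    apply Finset.sum_congr rfl
    intro j _
    rw [← sum_odd_diff (l i) (l j) N (hN i) (hN j), Finset.sum_mul]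
    apply Finset.sum_congr rfl
    intro t _
    ring
  rw [e1]
  set A := ∑ i, ∑ j, ((l i : ℝ) - l j) ^ 2 * w i j with hA
  set B := ∑ i, (l i : ℝ) ^ 2 * r i with hB
  set C := ∑ i, ∑ j, |(l i:ℝ) ^ 2 - (l j:ℝ) ^ 2| * w i j with hC
  have hA0 : 0 ≤ A := Finset.sum_nonneg fun i _ => Finset.sum_nonneg fun j _ =>
    mul_nonneg (sq_nonneg _) (hw i j)
  have hr0 : ∀ i, 0 ≤ r i := fun i => by rw [← h1 i]; exact Finset.sum_nonneg fun j _ => hw i j
  have hB0 : 0 ≤ B := Finset.sum_nonneg fun i _ => mul_nonneg (sq_nonneg _) (hr0 i)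
  have hC0 : 0 ≤ C := Finset.sum_nonneg fun i _ => Finset.sum_nonneg fun j _ =>
    mul_nonneg (abs_nonneg _) (hw i j)
  have e2 : ∑ i, ∑ j, ((l i : ℝ) + l j) ^ 2 * w i j ≤ 4 * B := by
    have e3 : ∑ i, ∑ j, (2 * (l i : ℝ) ^ 2 + 2 * (l j : ℝ) ^ 2) * w i j = 4 * B := by
      have e4 : ∑ i, ∑ j, (2 * (l i : ℝ) ^ 2) * w i j = 2 * B := by
        rw [hB, Finset.mul_sum]
        apply Finset.sum_congr rfl
        intro i _
        rw [← Finset.mul_sum, h1 i]
        ring
      have e5 : ∑ i, ∑ j, (2 * (l j : ℝ) ^ 2) * w i j = 2 * B := by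
        rw [Finset.sum_comm, hB, Finset.mul_sum]
        apply Finset.sum_congr rfl
        intro j _
        rw [← Finset.mul_sum, h2 j]
        ring
      simp only [add_mul, Finset.sum_add_distrib]
      rw [e4, e5]
      ring
    rw [← e3]
    apply Finset.sum_le_sum
    intro i _
    apply Finset.sum_le_sum
    intro j _
    apply mul_le_mul_of_nonneg_right _ (hw i j)
    nlinarith [sq_nonneg ((l i : ℝ) - l j)]
  have e6 : C ^ 2 ≤ A * (4 * B) := by
    have cs := Finset.sum_mul_sq_le_sq_mul_sq (Finset.univ : Finset (Fin n × Fin n))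
      (fun x => |(l x.1 : ℝ) - l x.2| * Real.sqrt (w x.1 x.2))
      (fun x => ((l x.1 : ℝ) + l x.2) * Real.sqrt (w x.1 x.2))
    have f1 : ∑ x : Fin n × Fin n, |(l x.1 : ℝ) - l x.2| * Real.sqrt (w x.1 x.2) *
        (((l x.1 : ℝ) + l x.2) * Real.sqrt (w x.1 x.2)) = C := by
      rw [Fintype.sum_prod_type, hC]
      apply Finset.sum_congr rfl
      intro i _
      apply Finset.sum_congr rfl
      intro j _
      have h3 : Real.sqrt (w i j) * Real.sqrt (w i j) = w i j := Real.mul_self_sqrt (hw i j)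
      have h4 : |(l i:ℝ) ^ 2 - (l j:ℝ) ^ 2| = |(l i : ℝ) - l j| * ((l i : ℝ) + l j) := by
        rw [sq_sub_sq, abs_mul, mul_comm, abs_of_nonneg (a := (l i : ℝ) + l j) (by positivity)]
      rw [h4]
      calc |(l i : ℝ) - l j| * Real.sqrt (w i j) * (((l i : ℝ) + l j) * Real.sqrt (w i j))
          = |(l i : ℝ) - l j| * ((l i : ℝ) + l j) * (Real.sqrt (w i j) * Real.sqrt (w i j)) := by
            ring
        _ = _ := by rw [h3]
    have f2 : ∑ x : Fin n × Fin n, (|(l x.1 : ℝ) - l x.2| * Real.sqrt (w x.1 x.2)) ^ 2 = A := by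
      rw [Fintype.sum_prod_type, hA]
      apply Finset.sum_congr rfl
      intro i _
      apply Finset.sum_congr rfl
      intro j _
      rw [mul_pow, Real.sq_sqrt (hw i j), sq_abs]
    have f3 : ∑ x : Fin n × Fin n, (((l x.1 : ℝ) + l x.2) * Real.sqrt (w x.1 x.2)) ^ 2 ≤ 4 * B := by
      refine le_trans (le_of_eq ?_) e2
      rw [Fintype.sum_prod_type]
      apply Finset.sum_congr rfl
      intro i _
      apply Finset.sum_congr rfl
      intro j _
      rw [mul_pow, Real.sq_sqrt (hw i j)]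
    rw [f1, f2] at cs
    exact cs.trans (mul_le_mul_of_nonneg_left f3 hA0)
  apply le_of_sq_le_sq _ (by positivity)
  rw [mul_pow, mul_pow, Real.sq_sqrt hA0, Real.sq_sqrt hB0]
  nlinarith

theorem exists_median {n : ℕ} (r : Fin n → ℝ) (hr1 : ∑ i, r i = 1)
    (k : Fin n → ℤ) :
    ∃ m : ℤ, (∑ i, if m < k i then r i else 0) ≤ 1 / 2 ∧
      (∑ i, if k i < m then r i else 0) ≤ 1 / 2 := by
  classical
  obtain ⟨K, hK⟩ : ∃ K : ℤ, ∀ i, |k i| ≤ K := by
    refine ⟨∑ i, |k i|, fun i => ?_⟩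
    exact Finset.single_le_sum (f := fun i => |k i|) (fun i _ => abs_nonneg _) (Finset.mem_univ i)
  have hbdd : ∃ b : ℤ, ∀ z : ℤ, (∑ i, if z < k i then r i else 0) ≤ 1 / 2 → b ≤ z := by
    refine ⟨-K - 1, fun z hz => ?_⟩
    by_contra hlt
    rw [not_le] at hlt
    have h1 : (∑ i, if z < k i then r i else 0) = 1 := by
      rw [← hr1]
      apply Finset.sum_congr rfl
      intro i _
      rw [if_pos]
      have := neg_abs_le (k i)
      have := hK i
      omega
    rw [h1] at hz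
    norm_num at hz
  have hinh : ∃ z : ℤ, (∑ i, if z < k i then r i else 0) ≤ 1 / 2 := by
    refine ⟨K, ?_⟩
    have h1 : (∑ i, if K < k i then r i else 0) = 0 := by
      apply Finset.sum_eq_zero
      intro i _
      rw [if_neg]
      have := le_abs_self (k i)
      have := hK i
      omega
    rw [h1]
    norm_num
  obtain ⟨m, hm, hmin⟩ := Int.exists_least_of_bdd hbdd hinh
  refine ⟨m, hm, ?_⟩
  by_contra hcon
  rw [not_le] at hcon
  have h2 : (∑ i, if m - 1 < k i then r i else 0) ≤ 1 / 2 := by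
    have h3 : (∑ i, if m - 1 < k i then r i else 0) + (∑ i, if k i < m then r i else 0) = 1 := by
      rw [← Finset.sum_add_distrib, ← hr1]
      apply Finset.sum_congr rfl
      intro i _
      by_cases h : k i < m
      · rw [if_pos h, if_neg (by omega), zero_add]
      · rw [if_neg h, if_pos (by omega), add_zero]
    linarith
  have := hmin _ h2
  omega

/-! ### Spectral sums -/

variable {M : Type*} [CStarAlgebra M] [TracialVNA M]

/-- `∑ f i • p i`. -/
noncomputable def X {n : ℕ} (p : Fin n → M) (f : Fin n → ℝ) : M := ∑ i, ((f i : ℝ) : ℂ) • p i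

omit [TracialVNA M] in
theorem X_sub {n : ℕ} (p : Fin n → M) (f g : Fin n → ℝ) : X p (fun i => f i - g i) = X p f - X p g := by
  unfold X
  rw [← Finset.sum_sub_distrib]
  apply Finset.sum_congr rfl
  intro i _
  rw [← sub_smul]
  push_cast
  rfl

omit [TracialVNA M] in
theorem X_star {n : ℕ} (p : Fin n → M) (hp : ∀ i, IsStarProjection (p i)) (f : Fin n → ℝ) :
    star (X p f) = X p f := by
  unfold X
  rw [star_sum]
  apply Finset.sum_congr rfl
  intro i _
  rw [star_smul, proj_star (hp i)]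
  congr 1
  exact Complex.conj_ofReal _

omit [TracialVNA M] in
theorem X_mul {n : ℕ} (p : Fin n → M) (hp : ∀ i, IsStarProjection (p i))
    (ho : ∀ i j, i ≠ j → p i * p j = 0) (f g : Fin n → ℝ) :
    X p f * X p g = X p (fun i => f i * g i) := by
  classical
  unfold X
  rw [Finset.sum_mul]
  apply Finset.sum_congr rfl
  intro i _
  rw [Finset.mul_sum, Finset.sum_eq_single i]
  · rw [smul_mul_smul_comm, proj_sq (hp i)]
    push_cast
    rfl
  · intro j _ hj
    rw [smul_mul_smul_comm, ho i j (Ne.symm hj), smul_zero]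
  · intro h
    exact absurd (Finset.mem_univ i) h

theorem rt_X {n : ℕ} (p : Fin n → M) (f : Fin n → ℝ) : rt (X p f) = ∑ i, f i * rt (p i) := by
  unfold X
  rw [rt_sum]
  apply Finset.sum_congr rfl
  intro i _
  rw [rt_csmul]

theorem nrm_X_sq {n : ℕ} (p : Fin n → M) (hp : ∀ i, IsStarProjection (p i))
    (ho : ∀ i j, i ≠ j → p i * p j = 0) (f : Fin n → ℝ) :
    nrm (X p f) ^ 2 = ∑ i, f i ^ 2 * rt (p i) := by
  rw [nrm_sq_rt, X_star p hp, X_mul p hp ho, rt_X]
  apply Finset.sum_congr rfl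
  intro i _
  ring

omit [TracialVNA M] in
theorem X_indicator_proj {n : ℕ} (p : Fin n → M) (hp : ∀ i, IsStarProjection (p i))
    (ho : ∀ i j, i ≠ j → p i * p j = 0) (P : Fin n → Prop) [DecidablePred P] :
    IsStarProjection (X p (fun i => if P i then 1 else 0)) := by
  refine ⟨?_, X_star p hp _⟩
  change X p _ * X p _ = X p _
  rw [X_mul p hp ho]
  congr 1
  ext i
  split_ifs <;> simp

theorem nrm_com_X_sq {n : ℕ} (p : Fin n → M) (hp : ∀ i, IsStarProjection (p i))
    (ho : ∀ i j, i ≠ j → p i * p j = 0) (hs : ∑ i, p i = 1) {u : M} (hu : u ∈ unitary M)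
    (f : Fin n → ℝ) :
    nrm (com u (X p f)) ^ 2 = ∑ i, ∑ j, (f i - f j) ^ 2 * rt (p i * (u * p j * star u)) := by
  have h1 : star u * u = 1 := Unitary.star_mul_self_of_mem hu
  have h2 : u * star u = 1 := Unitary.mul_star_self_of_mem hu
  have hw1 : ∀ i, ∑ j, rt (p i * (u * p j * star u)) = rt (p i) := by
    intro i
    rw [← rt_sum, ← Finset.mul_sum, ← Finset.sum_mul, ← Finset.mul_sum, hs, mul_one, h2, mul_one]
  have hw2 : ∀ j, ∑ i, rt (p i * (u * p j * star u)) = rt (p j) := by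
    intro j
    rw [← rt_sum, ← Finset.sum_mul, hs, one_mul, rt_comm, ← mul_assoc, h1, one_mul]
  rw [nrm_com_unitary_eq hu, nrm_sq_rt]
  have e1 : star (u * X p f * star u - X p f) = u * X p f * star u - X p f := by
    rw [star_sub, star_mul, star_mul, star_star, X_star p hp, mul_assoc]
  rw [e1]
  have e2 : (u * X p f * star u - X p f) * (u * X p f * star u - X p f)
      = u * (X p f * X p f) * star u - u * X p f * star u * X p f - X p f * (u * X p f * star u)
        + X p f * X p f := by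
    calc (u * X p f * star u - X p f) * (u * X p f * star u - X p f)
        = u * X p f * (star u * u) * X p f * star u - u * X p f * star u * X p f
          - X p f * (u * X p f * star u) + X p f * X p f := by noncomm_ring
      _ = _ := by rw [h1]; noncomm_ring
  rw [e2, rt_add, rt_sub, rt_sub, rt_comm (u * X p f * star u) (X p f)]
  have e3 : rt (u * (X p f * X p f) * star u) = rt (X p f * X p f) := by
    rw [rt_comm, ← mul_assoc, h1, one_mul]
  have e4 : rt (X p f * X p f) = ∑ i, f i ^ 2 * rt (p i) := by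
    rw [X_mul p hp ho, rt_X]
    apply Finset.sum_congr rfl
    intro i _
    ring
  have e5 : rt (X p f * (u * X p f * star u)) =
      ∑ i, ∑ j, f i * f j * rt (p i * (u * p j * star u)) := by
    unfold X
    rw [Finset.sum_mul, rt_sum]
    apply Finset.sum_congr rfl
    intro i _
    rw [Finset.mul_sum, Finset.sum_mul, Finset.mul_sum, rt_sum]
    apply Finset.sum_congr rfl
    intro j _
    rw [mul_smul_comm, smul_mul_assoc, smul_mul_assoc, mul_smul_comm, rt_csmul, rt_csmul]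
    ring
  rw [e3, e4, e5]
  have e6 : ∑ i, ∑ j, (f i - f j) ^ 2 * rt (p i * (u * p j * star u)) =
      ∑ i, ∑ j, f i ^ 2 * rt (p i * (u * p j * star u)) +
      ∑ i, ∑ j, f j ^ 2 * rt (p i * (u * p j * star u)) -
      2 * ∑ i, ∑ j, f i * f j * rt (p i * (u * p j * star u)) := by
    rw [Finset.mul_sum, ← Finset.sum_add_distrib, ← Finset.sum_sub_distrib]
    apply Finset.sum_congr rfl
    intro i _
    rw [Finset.mul_sum, ← Finset.sum_add_distrib, ← Finset.sum_sub_distrib]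
    apply Finset.sum_congr rfl
    intro j _
    ring
  have e7 : ∑ i, ∑ j, f i ^ 2 * rt (p i * (u * p j * star u)) = ∑ i, f i ^ 2 * rt (p i) := by
    apply Finset.sum_congr rfl
    intro i _
    rw [← Finset.mul_sum, hw1]
  have e8 : ∑ i, ∑ j, f j ^ 2 * rt (p i * (u * p j * star u)) = ∑ i, f i ^ 2 * rt (p i) := by
    rw [Finset.sum_comm]
    apply Finset.sum_congr rfl
    intro i _
    rw [← Finset.mul_sum, hw2]
  rw [e6, e7, e8]
  ring

theorem main_step (F : Finset M) (hF : ∀ u ∈ F, u ∈ unitary M) {δ R : ℝ} (hδ : 0 < δ)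
    (hR1 : 1 < R) (hR : 4 * (F.card : ℝ) + δ / 2 < 3 / 8 * δ * R)
    {n : ℕ} (p : Fin n → M) (hp : ∀ i, IsStarProjection (p i))
    (ho : ∀ i j, i ≠ j → p i * p j = 0) (hs : ∑ i, p i = 1) (k : Fin n → ℤ) (l : Fin n → ℕ)
    (hl1 : ∀ i j, ((l i : ℝ) - l j) ^ 2 ≤ ((k i : ℝ) - k j) ^ 2)
    (hl2 : (∑ i, if 0 < l i then rt (p i) else 0) ≤ 1 / 2)
    (hl3 : (R - 1) ^ 2 / 2 ≤ ∑ i, (l i : ℝ) ^ 2 * rt (p i))
    (hc : ∑ u ∈ F, nrm (com u (X p (fun i => (k i : ℝ)))) ≤ δ * R / 16 + 2 * F.card) :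
    ∃ e : M, IsStarProjection e ∧ e ≠ 0 ∧ rt e ≤ 1 / 2 ∧
        ∑ u ∈ F, nrm (com u e) ^ 2 ≤ δ * rt e := by
  classical
  by_contra hcon
  push Not at hcon
  set N : ℕ := ∑ i, l i with hN
  have hlN : ∀ i, l i ≤ N := fun i =>
    Finset.single_le_sum (f := l) (fun i _ => Nat.zero_le _) (Finset.mem_univ i)
  set B := ∑ i, (l i : ℝ) ^ 2 * rt (p i) with hB
  have hr0 : ∀ i, 0 ≤ rt (p i) := fun i => rt_proj_nonneg (hp i)
  have hBpos : 0 < B := lt_of_lt_of_le (by nlinarith) hl3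
  let E : ℕ → M := fun t => X p (fun i => if t < l i then 1 else 0)
  have hE : ∀ t, IsStarProjection (E t) := fun t =>
    X_indicator_proj p hp ho (fun i => t < l i)
  have hrtE : ∀ t, rt (E t) = ∑ i, (if t < l i then 1 else 0) * rt (p i) := fun t => rt_X p _
  have hE2 : ∀ t, rt (E t) ≤ 1 / 2 := by
    intro t
    rw [hrtE]
    refine le_trans (Finset.sum_le_sum ?_) hl2
    intro i _
    by_cases h : t < l i
    · rw [if_pos h, if_pos (by omega), one_mul]
    · rw [if_neg h, zero_mul]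
      split_ifs
      · exact hr0 i
      · exact le_rfl
  have hlow : ∀ t, δ * rt (E t) ≤ ∑ u ∈ F, nrm (com u (E t)) ^ 2 := by
    intro t
    by_cases h0 : E t = 0
    · rw [h0, rt_zero, mul_zero]
      exact Finset.sum_nonneg fun u _ => sq_nonneg _
    · exact (hcon (E t) (hE t) h0 (hE2 t)).le
  have hsumE : ∑ t ∈ Finset.range N, (2 * (t:ℝ) + 1) * rt (E t) = B := by
    simp only [hrtE, Finset.mul_sum]
    rw [Finset.sum_comm, hB]
    apply Finset.sum_congr rfl
    intro i _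
    rw [← sum_odd (l i) N (hlN i), Finset.sum_mul]
    apply Finset.sum_congr rfl
    intro t _
    ring
  have hup : ∀ u ∈ F, ∑ t ∈ Finset.range N, (2 * (t:ℝ) + 1) * nrm (com u (E t)) ^ 2 ≤
      2 * nrm (com u (X p (fun i => (k i : ℝ)))) * Real.sqrt B := by
    intro u hu
    have huu := hF u hu
    have hw0 : ∀ i j, 0 ≤ rt (p i * (u * p j * star u)) := fun i j =>
      rt_proj_mul_proj_nonneg (hp i) (conj_proj huu (hp j))
    have h1 : star u * u = 1 := Unitary.star_mul_self_of_mem huu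
    have h2 : u * star u = 1 := Unitary.mul_star_self_of_mem huu
    have hw1 : ∀ i, ∑ j, rt (p i * (u * p j * star u)) = rt (p i) := by
      intro i
      rw [← rt_sum, ← Finset.mul_sum, ← Finset.sum_mul, ← Finset.mul_sum, hs, mul_one, h2, mul_one]
    have hw2 : ∀ j, ∑ i, rt (p i * (u * p j * star u)) = rt (p j) := by
      intro j
      rw [← rt_sum, ← Finset.sum_mul, hs, one_mul, rt_comm, ← mul_assoc, h1, one_mul]
    have hcs := cs_bound (fun i j => rt (p i * (u * p j * star u))) (fun i => rt (p i)) hw0 hw1 hw2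
      l N hlN
    have h3 : ∑ t ∈ Finset.range N, (2 * (t:ℝ) + 1) * nrm (com u (E t)) ^ 2 =
        ∑ t ∈ Finset.range N, (2 * (t:ℝ) + 1) * ∑ i, ∑ j, ((if t < l i then (1:ℝ) else 0) -
      (if t < l j then 1 else 0)) ^ 2 * rt (p i * (u * p j * star u)) := by
      apply Finset.sum_congr rfl
      intro t _
      congr 1
      exact nrm_com_X_sq p hp ho hs huu _
    rw [h3]
    refine hcs.trans ?_
    have h4 : Real.sqrt (∑ i, ∑ j, ((l i : ℝ) - l j) ^ 2 * rt (p i * (u * p j * star u))) ≤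
        nrm (com u (X p (fun i => (k i : ℝ)))) := by
      rw [Real.sqrt_le_left (nrm_nonneg _), nrm_com_X_sq p hp ho hs huu]
      apply Finset.sum_le_sum
      intro i _
      apply Finset.sum_le_sum
      intro j _
      exact mul_le_mul_of_nonneg_right (hl1 i j) (hw0 i j)
    have h5 : 0 ≤ Real.sqrt B := Real.sqrt_nonneg _
    nlinarith
  have htot : δ * B ≤ 2 * Real.sqrt B * (δ * R / 16 + 2 * F.card) := by
    calc δ * B = ∑ t ∈ Finset.range N, (2 * (t:ℝ) + 1) * (δ * rt (E t)) := by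
          rw [← hsumE, Finset.mul_sum]
          apply Finset.sum_congr rfl
          intro t _
          ring
      _ ≤ ∑ t ∈ Finset.range N, (2 * (t:ℝ) + 1) * ∑ u ∈ F, nrm (com u (E t)) ^ 2 := by
          apply Finset.sum_le_sum
          intro t _
          exact mul_le_mul_of_nonneg_left (hlow t) (by positivity)
      _ = ∑ u ∈ F, ∑ t ∈ Finset.range N, (2 * (t:ℝ) + 1) * nrm (com u (E t)) ^ 2 := by
          simp only [Finset.mul_sum]
          rw [Finset.sum_comm]
      _ ≤ ∑ u ∈ F, 2 * nrm (com u (X p (fun i => (k i : ℝ)))) * Real.sqrt B :=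
          Finset.sum_le_sum hup
      _ = 2 * Real.sqrt B * ∑ u ∈ F, nrm (com u (X p (fun i => (k i : ℝ)))) := by
          rw [Finset.mul_sum]
          apply Finset.sum_congr rfl
          intro u _
          ring
      _ ≤ 2 * Real.sqrt B * (δ * R / 16 + 2 * F.card) := by
          apply mul_le_mul_of_nonneg_left hc (by positivity)
  have hsB : 0 < Real.sqrt B := Real.sqrt_pos.mpr hBpos
  have hsq : Real.sqrt B * Real.sqrt B = B := Real.mul_self_sqrt hBpos.le
  have h6 : δ * Real.sqrt B ≤ 2 * (δ * R / 16 + 2 * F.card) := by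
    have : Real.sqrt B * (δ * Real.sqrt B) ≤ Real.sqrt B * (2 * (δ * R / 16 + 2 * F.card)) := by
      calc Real.sqrt B * (δ * Real.sqrt B) = δ * (Real.sqrt B * Real.sqrt B) := by ring
        _ = δ * B := by rw [hsq]
        _ ≤ 2 * Real.sqrt B * (δ * R / 16 + 2 * F.card) := htot
        _ = _ := by ring
    exact le_of_mul_le_mul_left this hsB
  have h7 : (R - 1) / 2 ≤ Real.sqrt B := by
    apply Real.le_sqrt_of_sq_le
    refine le_trans ?_ hl3
    nlinarith [sq_nonneg (R - 1)]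
  nlinarith

end PSaux

variable {M : Type*} [CStarAlgebra M] [TracialVNA M]

/-- Sketch. WLOG `ξ = h` self-adjoint (real or imaginary part; `nrm_com_star`). Multiply by a huge
`T > 0` and approximate `T h` by `H = ∑ k_i p_i` (`exists_int_spectral`). Let `m` be an integer median:
`∑_{k_i > m} rt p_i ≤ 1/2` and `∑_{k_i < m} rt p_i ≤ 1/2`. One of the two elements
`g = ∑ (k_i - m)_± p_i` has `nrm g ^ 2 ≥ nrm (H - m) ^ 2 / 2 ≥ (T nrm h - 1)^2 / 2`.
For functions `f` on ℤ, a unitary `u`, with `q_j = u p_j u*`: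
`nrm (∑ f(k_i) p_i - ∑ f(k_j) q_j)^2 = ∑_{i,j} |f(k_i) - f(k_j)|^2 rt (p_i q_j)` and
`rt (p_i q_j) ≥ 0`. With `l_i = (k_i - m)_±` and `E_l = ∑_{l_i ≥ l} p_i` (`l ≥ 1`):
`∑_{l ≥ 1} (2l-1) nrm(com u E_l)^2 = ∑_{i,j} |l_i^2 - l_j^2| rt (p_i q_j)
 ≤ nrm (com u g) * (2 nrm g)` (Cauchy-Schwarz), `∑_{l ≥ 1} (2l-1) rt E_l = nrm g ^ 2`,
`nrm (com u g) ≤ nrm (com u H) ≤ T nrm (com u h) + 2`. So some `E_l ≠ 0`, `l ≥ 1`, has
`∑_u nrm (com u E_l)^2 ≤ δ rt E_l`, and `rt E_l ≤ 1/2` for all `l ≥ 1`. -/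
theorem exists_almost_central_proj (F : Finset M) (hF : ∀ u ∈ F, u ∈ unitary M) {δ : ℝ}
    (hδ : 0 < δ) :
    ∃ κ : ℝ, 0 < κ ∧ ∀ ξ : M, ξ ≠ 0 → tau ξ = 0 → ∑ u ∈ F, nrm (com u ξ) ≤ κ * nrm ξ →
      ∃ e : M, IsStarProjection e ∧ e ≠ 0 ∧ rt e ≤ 1 / 2 ∧
        ∑ u ∈ F, nrm (com u e) ^ 2 ≤ δ * rt e := by
  classical
  refine ⟨δ / 32, by positivity, fun ξ hξ0 hξt hξ => ?_⟩
  have hξpos : 0 < nrm ξ := lt_of_le_of_ne (nrm_nonneg _) (fun h => hξ0 (nrm_eq_zero.1 h.symm))
  -- the self-adjoint part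
  obtain ⟨h, hsa, hh0, hht, hhc⟩ : ∃ h : M, IsSelfAdjoint h ∧ 0 < nrm h ∧ tau h = 0 ∧
      ∑ u ∈ F, nrm (com u h) ≤ δ / 16 * nrm h := by
    set a : M := (2⁻¹ : ℂ) • (ξ + star ξ) with ha
    set b : M := (2⁻¹ : ℂ) • (ξ - star ξ) with hb
    have hab : ξ = a + b := by
      rw [ha, hb, ← smul_add]
      have : ξ + star ξ + (ξ - star ξ) = (2:ℂ) • ξ := by
        rw [two_smul]; abel
      rw [this, smul_smul]
      norm_num
    have hnab : nrm ξ ≤ nrm a + nrm b := by
      conv_lhs => rw [hab]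
      exact nrm_add_le _ _
    have hst : tau (star ξ) = 0 := by rw [tau_star, hξt]; simp
    have hca : ∀ u ∈ F, nrm (com u a) ≤ nrm (com u ξ) := by
      intro u hu
      rw [ha, com_smul, com_add, nrm_smul]
      have h1 := nrm_add_le (com u ξ) (com u (star ξ))
      rw [nrm_com_star (hF u hu)] at h1
      have h2 : ‖(2⁻¹ : ℂ)‖ = 2⁻¹ := by norm_num
      rw [h2]
      linarith
    have hcb : ∀ u ∈ F, nrm (com u b) ≤ nrm (com u ξ) := by
      intro u hu
      rw [hb, com_smul, com_sub, nrm_smul]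
      have h1 := nrm_sub_le (com u ξ) (com u (star ξ))
      rw [nrm_com_star (hF u hu)] at h1
      have h2 : ‖(2⁻¹ : ℂ)‖ = 2⁻¹ := by norm_num
      rw [h2]
      linarith
    rcases le_or_gt (nrm ξ / 2) (nrm a) with h | h
    · refine ⟨a, ?_, by linarith, ?_, ?_⟩
      · rw [IsSelfAdjoint, ha, star_smul, star_add, star_star, add_comm]
        congr 1
        simp
      · rw [ha, tau_smul, tau_add, hξt, hst]; simp
      · calc ∑ u ∈ F, nrm (com u a) ≤ ∑ u ∈ F, nrm (com u ξ) := Finset.sum_le_sum hca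
          _ ≤ δ / 32 * nrm ξ := hξ
          _ ≤ δ / 16 * nrm a := by nlinarith
    · have hbb : nrm ξ / 2 ≤ nrm b := by linarith
      have hnI : nrm (Complex.I • b) = nrm b := by rw [nrm_smul]; simp
      refine ⟨Complex.I • b, ?_, ?_, ?_, ?_⟩
      · rw [IsSelfAdjoint, hb, star_smul, star_smul, star_sub, star_star, smul_smul, smul_smul,
          ← neg_sub ξ (star ξ), smul_neg, ← neg_smul]
        congr 1
        simp
      · rw [hnI]; linarith
      · rw [hb, tau_smul, tau_smul, tau_sub, hξt, hst]; simp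
      · calc ∑ u ∈ F, nrm (com u (Complex.I • b)) = ∑ u ∈ F, nrm (com u b) := by
              apply Finset.sum_congr rfl
              intro u _
              rw [com_smul, nrm_smul]; simp
          _ ≤ ∑ u ∈ F, nrm (com u ξ) := Finset.sum_le_sum hcb
          _ ≤ δ / 32 * nrm ξ := hξ
          _ ≤ δ / 16 * nrm (Complex.I • b) := by rw [hnI]; nlinarith
  -- scaling
  set R : ℝ := 8 / (3 * δ) * (4 * (F.card : ℝ) + δ) with hRd
  have hR1 : 1 < R := by
    rw [hRd, div_mul_eq_mul_div, lt_div_iff₀ (by positivity)]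
    have : (0:ℝ) ≤ F.card := by positivity
    nlinarith
  have hR : 4 * (F.card : ℝ) + δ / 2 < 3 / 8 * δ * R := by
    have : 3 / 8 * δ * R = 4 * (F.card : ℝ) + δ := by
      rw [hRd]; field_simp
    rw [this]; linarith
  set T : ℝ := R / nrm h with hT
  have hTpos : 0 < T := by positivity
  have hTR : T * nrm h = R := by rw [hT]; field_simp
  have hsaT : IsSelfAdjoint ((T : ℂ) • h) := by
    rw [IsSelfAdjoint, star_smul, hsa.star_eq]
    congr 1
    exact Complex.conj_ofReal _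
  obtain ⟨n, p, k, hp, ho, hs, hk⟩ := exists_int_spectral hsaT
  have hH : ∑ i, ((k i : ℂ)) • p i = PSaux.X p (fun i => (k i : ℝ)) := by
    unfold PSaux.X
    apply Finset.sum_congr rfl
    intro i _
    push_cast
    rfl
  rw [hH] at hk
  have hr0 : ∀ i, 0 ≤ rt (p i) := fun i => rt_proj_nonneg (hp i)
  have hr1 : ∑ i, rt (p i) = 1 := by rw [← rt_sum, hs, rt_one]
  obtain ⟨m, hm1, hm2⟩ := PSaux.exists_median (fun i => rt (p i)) hr1 k
  -- norm of H - m
  have hconst : PSaux.X p (fun _ => (m : ℝ)) = ((m : ℝ) : ℂ) • (1 : M) := by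
    unfold PSaux.X
    rw [← Finset.smul_sum, hs]
  have hbig : (R - 1) ^ 2 ≤ ∑ i, ((k i : ℝ) - m) ^ 2 * rt (p i) := by
    rw [← PSaux.nrm_X_sq p hp ho (fun i => (k i : ℝ) - m), PSaux.X_sub, hconst]
    have e1 : nrm ((T : ℂ) • h - ((m : ℝ) : ℂ) • (1 : M)) ^ 2 = R ^ 2 + (m : ℝ) ^ 2 := by
      rw [nrm_sq_rt]
      have e2 : star ((T : ℂ) • h - ((m : ℝ) : ℂ) • (1 : M)) * ((T : ℂ) • h - ((m : ℝ) : ℂ) • (1 : M))
          = star ((T : ℂ) • h) * ((T : ℂ) • h) - ((2 * m * T : ℝ) : ℂ) • h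
            + (((m : ℝ) ^ 2 : ℝ) : ℂ) • (1 : M) := by
        rw [star_sub, hsaT.star_eq, star_smul, star_one,
          show star (((m : ℝ) : ℂ)) = ((m : ℝ) : ℂ) from Complex.conj_ofReal _]
        simp only [sub_mul, mul_sub, smul_mul_assoc, mul_smul_comm, one_mul, mul_one, smul_sub,
          smul_smul]
        rw [show ((2 * m * T : ℝ) : ℂ) = (m : ℝ) * (T : ℂ) + (m : ℝ) * (T : ℂ) by push_cast; ring,
          add_smul, show (((m : ℝ) ^ 2 : ℝ) : ℂ) = ((m : ℝ) : ℂ) * ((m : ℝ) : ℂ) by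
            push_cast; ring]
        rw [mul_comm (T : ℂ) ((m : ℝ) : ℂ)]
        abel
      rw [e2, rt_add, rt_sub, rt_csmul, rt_csmul, ← nrm_sq_rt, nrm_smul, rt_one]
      have e3 : rt h = 0 := by rw [rt, hht]; simp
      rw [e3, Complex.norm_real, Real.norm_eq_abs, abs_of_pos hTpos, hTR]
      ring
    have e4 : R ≤ nrm ((T : ℂ) • h - ((m : ℝ) : ℂ) • (1 : M)) := by
      apply le_of_sq_le_sq _ (nrm_nonneg _)
      rw [e1]
      nlinarith [sq_nonneg (m : ℝ)]
    have e5 := nrm_sub_le_add ((T : ℂ) • h) (PSaux.X p (fun i => (k i : ℝ)))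
      (((m : ℝ) : ℂ) • (1 : M))
    have e6 : nrm ((T : ℂ) • h - PSaux.X p (fun i => (k i : ℝ))) ≤ 1 := (nrm_le_norm _).trans hk
    have e7 : R - 1 ≤ nrm (PSaux.X p (fun i => (k i : ℝ)) - ((m : ℝ) : ℂ) • (1 : M)) := by
      linarith
    exact pow_le_pow_left₀ (by linarith) e7 2
  have hsplit : ∑ i, ((k i : ℝ) - m) ^ 2 * rt (p i) =
      ∑ i, (((k i - m).toNat : ℕ) : ℝ) ^ 2 * rt (p i) +
      ∑ i, (((m - k i).toNat : ℕ) : ℝ) ^ 2 * rt (p i) := by
    rw [← Finset.sum_add_distrib]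
    apply Finset.sum_congr rfl
    intro i _
    rw [← add_mul]
    congr 1
    rcases le_total m (k i) with h1 | h1
    · have e1 : (((k i - m).toNat : ℕ) : ℝ) = (k i : ℝ) - m := by
        have : (((k i - m).toNat : ℕ) : ℤ) = k i - m := Int.toNat_of_nonneg (by omega)
        exact_mod_cast this
      have e2 : (m - k i).toNat = 0 := Int.toNat_of_nonpos (by omega)
      rw [e1, e2]
      simp
    · have e1 : (((m - k i).toNat : ℕ) : ℝ) = (m : ℝ) - k i := by
        have : (((m - k i).toNat : ℕ) : ℤ) = m - k i := Int.toNat_of_nonneg (by omega)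
        exact_mod_cast this
      have e2 : (k i - m).toNat = 0 := Int.toNat_of_nonpos (by omega)
      rw [e1, e2]
      simp
      ring
  -- commutators of H
  have hcH : ∑ u ∈ F, nrm (com u (PSaux.X p (fun i => (k i : ℝ)))) ≤ δ * R / 16 + 2 * F.card := by
    have h1 : ∀ u ∈ F, nrm (com u (PSaux.X p (fun i => (k i : ℝ)))) ≤ T * nrm (com u h) + 2 := by
      intro u hu
      have e1 : com u (PSaux.X p (fun i => (k i : ℝ))) =
          com u ((T : ℂ) • h) - com u ((T : ℂ) • h - PSaux.X p (fun i => (k i : ℝ))) := by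
        rw [com_sub]; abel
      have e2 : nrm (com u ((T : ℂ) • h)) = T * nrm (com u h) := by
        rw [com_smul, nrm_smul, Complex.norm_real, Real.norm_eq_abs, abs_of_pos hTpos]
      have e3 : nrm (com u ((T : ℂ) • h - PSaux.X p (fun i => (k i : ℝ)))) ≤ 2 := by
        set y := (T : ℂ) • h - PSaux.X p (fun i => (k i : ℝ)) with hy
        have h4 : nrm y ≤ 1 := (nrm_le_norm _).trans hk
        have h5 : nrm (com u y) ≤ nrm (u * y) + nrm (y * u) := nrm_sub_le _ _
        rw [nrm_unitary_mul (hF u hu), nrm_mul_unitary (hF u hu)] at h5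
        linarith
      rw [e1]
      have := nrm_sub_le (com u ((T : ℂ) • h)) (com u ((T : ℂ) • h - PSaux.X p (fun i => (k i : ℝ))))
      linarith
    calc ∑ u ∈ F, nrm (com u (PSaux.X p (fun i => (k i : ℝ))))
        ≤ ∑ u ∈ F, (T * nrm (com u h) + 2) := Finset.sum_le_sum h1
      _ = T * ∑ u ∈ F, nrm (com u h) + 2 * F.card := by
          rw [Finset.sum_add_distrib, ← Finset.mul_sum, Finset.sum_const, nsmul_eq_mul]
          ring
      _ ≤ T * (δ / 16 * nrm h) + 2 * F.card := by gcongr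
      _ = δ * R / 16 + 2 * F.card := by rw [← hTR]; ring
  -- choose the sign
  rcases le_or_gt ((R - 1) ^ 2 / 2) (∑ i, (((k i - m).toNat : ℕ) : ℝ) ^ 2 * rt (p i)) with h1 | h1
  · refine PSaux.main_step F hF hδ hR1 hR p hp ho hs k (fun i => (k i - m).toNat) ?_ ?_ h1 hcH
    · intro i j
      rw [sq_le_sq]
      have : |(((k i - m).toNat : ℕ) : ℤ) - (((k j - m).toNat : ℕ) : ℤ)| ≤ |k i - k j| := by
        rw [abs_le]
        have := le_abs_self (k i - k j)
        have := neg_abs_le (k i - k j)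
        constructor <;> omega
      exact_mod_cast this
    · refine le_trans (le_of_eq ?_) hm1
      apply Finset.sum_congr rfl
      intro i _
      by_cases h2 : m < k i
      · rw [if_pos h2, if_pos (by omega)]
      · rw [if_neg h2, if_neg (by omega)]
  · have h2 : (R - 1) ^ 2 / 2 ≤ ∑ i, (((m - k i).toNat : ℕ) : ℝ) ^ 2 * rt (p i) := by linarith
    refine PSaux.main_step F hF hδ hR1 hR p hp ho hs k (fun i => (m - k i).toNat) ?_ ?_ h2 hcH
    · intro i j
      rw [sq_le_sq]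
      have : |(((m - k i).toNat : ℕ) : ℤ) - (((m - k j).toNat : ℕ) : ℤ)| ≤ |k i - k j| := by
        rw [abs_le]
        have := le_abs_self (k i - k j)
        have := neg_abs_le (k i - k j)
        constructor <;> omega
      exact_mod_cast this
    · refine le_trans (le_of_eq ?_) hm2
      apply Finset.sum_congr rfl
      intro i _
      by_cases h3 : k i < m
      · rw [if_pos h3, if_pos (by omega)]
      · rw [if_neg h3, if_neg (by omega)]

end Pool.Agent.McDuffR
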