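import Pool.Agent.MP_af2a1c_lc.Ops

/-! Task T1a: supports and polar decomposition. -/

namespace Pool.Agent.McDuffR

open Filter Topology ComplexConjugate

section auxfun

/-- the truncated inverse square root -/
private noncomputable def gg (n : ℕ) (s : ℝ) : ℝ := (max ((n + 1 : ℝ)⁻¹) (√s))⁻¹

private lemma gg_den_pos (n : ℕ) (s : ℝ) : 0 < max ((n + 1 : ℝ)⁻¹) (√s) :=
  lt_max_of_lt_left (by positivity)

private lemma gg_pos (n : ℕ) (s : ℝ) : 0 < gg n s := inv_pos.2 (gg_den_pos n s)

private lemma gg_cont (n : ℕ) : Continuous (gg n) := by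
  unfold gg
  exact (continuous_const.max Real.continuous_sqrt).inv₀ (fun s => (gg_den_pos n s).ne')

private lemma gg_le (n : ℕ) (s : ℝ) : gg n s ≤ n + 1 := by
  unfold gg
  have h : ((n + 1 : ℝ)⁻¹) ≤ max ((n + 1 : ℝ)⁻¹) (√s) := le_max_left _ _
  have := inv_anti₀ (by positivity : (0 : ℝ) < (n + 1 : ℝ)⁻¹) h
  rwa [inv_inv] at this

private lemma gg_sqrt_le (n : ℕ) (s : ℝ) : √s * gg n s ≤ 1 := by
  unfold gg
  rw [← div_eq_mul_inv, div_le_one (gg_den_pos n s)]
  exact le_max_right _ _

private lemma gg_mono {n m : ℕ} (h : n ≤ m) (s : ℝ) : gg n s ≤ gg m s := by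
  unfold gg
  apply inv_anti₀ (gg_den_pos m s)
  apply max_le_max _ le_rfl
  apply inv_anti₀ (by positivity)
  have : (n : ℝ) ≤ m := by exact_mod_cast h
  linarith

private lemma phi_nonneg (n : ℕ) {s : ℝ} (hs : 0 ≤ s) : 0 ≤ gg n s * (s * gg n s) := by
  have := gg_pos n s
  positivity

private lemma phi_le_one (n : ℕ) {s : ℝ} (hs : 0 ≤ s) : gg n s * (s * gg n s) ≤ 1 := by
  have h1 := gg_sqrt_le n s
  have h2 : 0 ≤ √s * gg n s := mul_nonneg (Real.sqrt_nonneg _) (gg_pos n s).le
  have h3 : gg n s * (s * gg n s) = (√s * gg n s) * (√s * gg n s) := by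
    nth_rewrite 2 [← Real.mul_self_sqrt hs]
    ring
  rw [h3]
  nlinarith

private lemma phi_eq_or (m : ℕ) {s : ℝ} (hs : 0 ≤ s) :
    gg m s * (s * gg m s) = 1 ∨ s ≤ ((m + 1 : ℝ)⁻¹) ^ 2 := by
  rcases le_or_gt (√s) ((m + 1 : ℝ)⁻¹) with h | h
  · right
    have := Real.sq_sqrt hs
    rw [← this]
    exact pow_le_pow_left₀ (Real.sqrt_nonneg _) h 2
  · left
    have h0 : 0 < √s := lt_trans (by positivity) h
    unfold gg
    rw [max_eq_right h.le]
    nth_rewrite 2 [← Real.mul_self_sqrt hs]
    field_simp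

private lemma tendsto_inv_succ_sq : Tendsto (fun m : ℕ => ((m + 1 : ℝ)⁻¹) ^ 2) atTop (𝓝 0) := by
  have h : Tendsto (fun m : ℕ => ((m + 1 : ℝ)⁻¹)) atTop (𝓝 0) := by
    simpa [one_div] using tendsto_one_div_add_atTop_nhds_zero_nat (𝕜 := ℝ)
  simpa using h.pow 2

end auxfun

variable {M : Type*} [CStarAlgebra M] [TracialVNA M]

/-- Common construction. -/
private theorem exists_polar_aux (x : M) : ∃ v : M, IsStarProjection (star v * v) ∧
    x * (star v * v) = x ∧
    (∀ b, x * b = 0 → (star v * v) * b = 0) ∧ (∀ c, c * x = 0 → c * v = 0) ∧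
    (∀ b, Commute b x → Commute b (star x) → Commute b (star v * v)) := by
  let _ := CStarAlgebra.spectralOrder M
  have := CStarAlgebra.spectralOrderedRing M
  set h : M := star x * x with hh
  have hsa : IsSelfAdjoint h := IsSelfAdjoint.star_mul_self x
  have hspec : ∀ s ∈ spectrum ℝ h, 0 ≤ s := fun s hs => spectrum_star_mul_self_nonneg s hs
  have hc : ∀ n, ContinuousOn (gg n) (spectrum ℝ h) := fun n => (gg_cont n).continuousOn
  have hci : ContinuousOn (fun s : ℝ => s) (spectrum ℝ h) := continuousOn_id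
  -- the sequence
  let v : ℕ → M := fun n => x * cfc (gg n) h
  have hgstar : ∀ f : ℝ → ℝ, star (cfc f h) = cfc f h := fun f =>
    (IsSelfAdjoint.cfc (f := f) (a := h)).star_eq
  have hid : cfc (fun s : ℝ => s) h = h := cfc_id' ℝ h
  -- products `f(h) h g(h)`
  have hprod : ∀ f g : ℝ → ℝ, ContinuousOn f (spectrum ℝ h) → ContinuousOn g (spectrum ℝ h) →
      star (x * cfc f h) * (x * cfc g h) = cfc (fun s => f s * (s * g s)) h := by
    intro f g hf hg
    rw [cfc_mul f (fun s => s * g s) h hf (hci.mul hg), cfc_mul (fun s => s) g h hci hg, hid,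
      star_mul, hgstar, hh]
    noncomm_ring
  have hvv : ∀ n, star (v n) * v n = cfc (fun s => gg n s * (s * gg n s)) h := fun n =>
    hprod _ _ (hc n) (hc n)
  have hphic : ∀ n, ContinuousOn (fun s => gg n s * (s * gg n s)) (spectrum ℝ h) := fun n =>
    (hc n).mul (hci.mul (hc n))
  have hvnorm : ∀ n, ‖v n‖ ≤ 1 := by
    intro n
    have h1 : ‖v n‖ * ‖v n‖ ≤ 1 := by
      rw [← CStarRing.norm_star_mul_self, hvv]
      refine norm_cfc_le zero_le_one (fun s hs => ?_)
      rw [Real.norm_eq_abs, abs_of_nonneg (phi_nonneg n (hspec s hs))]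
      exact phi_le_one n (hspec s hs)
    nlinarith [norm_nonneg (v n)]
  -- monotone bounded traces
  let t : ℕ → ℝ := fun n => rt (cfc (fun s => gg n s * (s * gg n s)) h)
  have htmono : Monotone t := by
    intro n m hnm
    refine tau_re_mono (cfc_mono (fun s hs => ?_) (hphic n) (hphic m))
    have h0 := hspec s hs
    have h1 := gg_mono hnm s
    have h2 := gg_pos n s
    have h3 := gg_pos m s
    gcongr
  have htbd : ∀ n, t n ≤ 1 := by
    intro n
    have h1 : t n ≤ ‖v n‖ := by
      have : t n ≤ |t n| := le_abs_self _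
      refine this.trans ?_
      have h2 : t n = rt (star (v n) * v n) := by rw [hvv]
      rw [h2, ← nrm_sq_rt, abs_of_nonneg (by positivity)]
      have h3 := nrm_le_norm (v n)
      have h4 := nrm_nonneg (v n)
      have h5 := hvnorm n
      nlinarith
    exact h1.trans (hvnorm n)
  have htconv : CauchySeq t := by
    have : Tendsto t atTop (𝓝 (⨆ n, t n)) :=
      tendsto_atTop_ciSup htmono ⟨1, by rintro _ ⟨n, rfl⟩; exact htbd n⟩
    exact this.cauchySeq
  -- the key estimate
  have hkey : ∀ n m, n ≤ m → nrm (v m - v n) ^ 2 ≤ t m - t n := by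
    intro n m hnm
    have e1 : v m - v n = x * cfc (fun s => gg m s - gg n s) h := by
      rw [cfc_sub (gg m) (gg n) h (hc m) (hc n)]
      change x * _ - x * _ = _
      rw [mul_sub]
    have hcs : ContinuousOn (fun s => gg m s - gg n s) (spectrum ℝ h) := (hc m).sub (hc n)
    rw [nrm_sq_rt, e1, hprod _ _ hcs hcs]
    have e2 : t m - t n = rt (cfc (fun s => gg m s * (s * gg m s) - gg n s * (s * gg n s)) h) := by
      rw [cfc_sub _ _ h (hphic m) (hphic n), rt_sub]
    rw [e2]
    refine tau_re_mono (cfc_mono (fun s hs => ?_) (hcs.mul (hci.mul hcs))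
      ((hphic m).sub (hphic n)))
    have h0 := hspec s hs
    have h1 := gg_mono hnm s
    have h2 := gg_pos n s
    have h3 : 0 ≤ s * gg n s * (gg m s - gg n s) :=
      mul_nonneg (mul_nonneg h0 h2.le) (by linarith)
    nlinarith
  obtain ⟨w, hwnorm, hw⟩ := exists_lim2 hvnorm (fun ε hε => by
    obtain ⟨K, hK⟩ := Metric.cauchySeq_iff.1 htconv (ε ^ 2) (by positivity)
    refine ⟨K, fun m hm n hn => ?_⟩
    rcases le_total n m with hnm | hnm
    · have h1 := hkey n m hnm
      have h2 := hK m hm n hn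
      rw [Real.dist_eq] at h2
      have h3 := lt_of_le_of_lt (le_abs_self _) h2
      exact lt_of_pow_lt_pow_left₀ 2 hε.le (lt_of_le_of_lt h1 h3)
    · rw [nrm_sub_comm]
      have h1 := hkey m n hnm
      have h2 := hK n hn m hm
      rw [Real.dist_eq] at h2
      have h3 := lt_of_le_of_lt (le_abs_self _) h2
      exact lt_of_pow_lt_pow_left₀ 2 hε.le (lt_of_le_of_lt h1 h3))
  -- `e n = star (v n) * v n → star w * w`
  have hsnorm : ∀ n, ‖star (v n)‖ ≤ 1 := fun n => by rw [norm_star]; exact hvnorm n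
  have he : Lim2 (fun n => star (v n) * v n) (star w * w) := Lim2.mul hsnorm hw.star hw
  set e : M := star w * w with hedef
  have henorm : ∀ n, ‖star (v n) * v n‖ ≤ 1 := fun n => by
    rw [CStarRing.norm_star_mul_self]
    nlinarith [norm_nonneg (v n), hvnorm n]
  -- norm estimates
  have hn1 : ∀ n m, ‖(star (v n) * v n) * (star (v m) * v m) - star (v n) * v n‖ ≤
      ((n + 1 : ℝ)) ^ 2 * ((m + 1 : ℝ)⁻¹) ^ 2 := by
    intro n m
    have hcc : ContinuousOn (fun s => gg n s * (s * gg n s) * (gg m s * (s * gg m s)))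
        (spectrum ℝ h) := (hphic n).mul (hphic m)
    rw [hvv, hvv, ← cfc_mul _ _ h (hphic n) (hphic m), ← cfc_sub _ _ h hcc (hphic n)]
    refine norm_cfc_le (by positivity) (fun s hs => ?_)
    have h0 := hspec s hs
    rcases phi_eq_or m h0 with h1 | h1
    · rw [h1, mul_one, sub_self, norm_zero]
      positivity
    · have h2 := phi_nonneg m h0
      have h3 := phi_le_one m h0
      have h4 := phi_nonneg n h0
      have h5 : gg n s * (s * gg n s) ≤ ((n + 1 : ℝ)) ^ 2 * ((m + 1 : ℝ)⁻¹) ^ 2 := by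
        have h6 := gg_le n s
        have h7 := gg_pos n s
        calc gg n s * (s * gg n s) = gg n s ^ 2 * s := by ring
          _ ≤ (n + 1 : ℝ) ^ 2 * ((m + 1 : ℝ)⁻¹) ^ 2 := by gcongr
      rw [Real.norm_eq_abs, abs_le]
      constructor
      · nlinarith [mul_nonneg h4 h2]
      · nlinarith [mul_nonneg h4 (sub_nonneg.2 h3),
          (by positivity : (0 : ℝ) ≤ ((n + 1 : ℝ)) ^ 2 * ((m + 1 : ℝ)⁻¹) ^ 2)]
  have hene : ∀ n, (star (v n) * v n) * e = star (v n) * v n := by
    intro n
    have h1 : Lim2 (fun m => (star (v n) * v n) * (star (v m) * v m))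
        ((star (v n) * v n) * e) := Lim2.const_mul _ he
    have h2 : Lim2 (fun m => (star (v n) * v n) * (star (v m) * v m))
        (star (v n) * v n) := by
      refine Lim2.of_norm (squeeze_zero (fun _ => norm_nonneg _) (fun m => hn1 n m) ?_)
      simpa using (tendsto_inv_succ_sq).const_mul (((n + 1 : ℝ)) ^ 2)
    exact h1.unique h2
  have hee : e * e = e := by
    have h1 : Lim2 (fun n => (star (v n) * v n) * e) (e * e) := he.mul_const e
    exact h1.unique (he.congr (fun n => (hene n).symm))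
  have hesa : IsSelfAdjoint e := IsSelfAdjoint.star_mul_self w
  have hep : IsStarProjection e := ⟨hee, hesa⟩
  -- `x e = x`
  have hn2 : ∀ m, ‖x * (star (v m) * v m) - x‖ ≤ (m + 1 : ℝ)⁻¹ := by
    intro m
    have h1 : ‖x * (star (v m) * v m) - x‖ * ‖x * (star (v m) * v m) - x‖ ≤
        ((m + 1 : ℝ)⁻¹) ^ 2 := by
      rw [← CStarRing.norm_star_mul_self, hvv]
      have hcc : ContinuousOn (fun s : ℝ => gg m s * (s * gg m s) - 1) (spectrum ℝ h) :=
        (hphic m).sub continuousOn_const
      have e1 : x * cfc (fun s => gg m s * (s * gg m s)) h - x =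
          x * cfc (fun s => gg m s * (s * gg m s) - 1) h := by
        rw [cfc_sub _ _ h (hphic m) continuousOn_const, cfc_const (1 : ℝ) h, map_one, mul_sub,
          mul_one]
      rw [e1, hprod _ _ hcc hcc]
      refine norm_cfc_le (by positivity) (fun s hs => ?_)
      have h0 := hspec s hs
      rcases phi_eq_or m h0 with h1 | h1
      · rw [h1, sub_self, zero_mul, norm_zero]
        positivity
      · have h2 := phi_nonneg m h0
        have h3 := phi_le_one m h0
        have h4 : 0 ≤ (1 - gg m s * (s * gg m s)) := by linarith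
        have h5 : (1 - gg m s * (s * gg m s)) ≤ 1 := by linarith
        have e2 : (gg m s * (s * gg m s) - 1) * (s * (gg m s * (s * gg m s) - 1)) =
            s * ((1 - gg m s * (s * gg m s)) * (1 - gg m s * (s * gg m s))) := by ring
        rw [e2, Real.norm_eq_abs, abs_of_nonneg (by positivity)]
        have h6 : (1 - gg m s * (s * gg m s)) * (1 - gg m s * (s * gg m s)) ≤ 1 := by
          nlinarith
        calc s * ((1 - gg m s * (s * gg m s)) * (1 - gg m s * (s * gg m s))) ≤ s * 1 := by gcongr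
          _ = s := mul_one s
          _ ≤ _ := h1
    have h2 : (0 : ℝ) < (m + 1 : ℝ)⁻¹ := by positivity
    have h3 := norm_nonneg (x * (star (v m) * v m) - x)
    nlinarith
  have hxe : x * e = x := by
    have h1 : Lim2 (fun m => x * (star (v m) * v m)) (x * e) := he.const_mul x
    have h2 : Lim2 (fun m => x * (star (v m) * v m)) x := by
      refine Lim2.of_norm (squeeze_zero (fun _ => norm_nonneg _) hn2 ?_)
      simpa [one_div] using tendsto_one_div_add_atTop_nhds_zero_nat (𝕜 := ℝ)
    exact h1.unique h2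
  refine ⟨w, hep, hxe, ?_, ?_, ?_⟩
  · intro b hb
    have h1 : ∀ n, (star (v n) * v n) * b = 0 := by
      intro n
      have e1 : star (v n) * v n = cfc (fun s => gg n s * gg n s) h * h := by
        rw [hvv]
        have : (fun s => gg n s * (s * gg n s)) = (fun s => (gg n s * gg n s) * s) := by
          funext s; ring
        have hcc : ContinuousOn (fun s => gg n s * gg n s) (spectrum ℝ h) := (hc n).mul (hc n)
        rw [this, cfc_mul _ _ h hcc hci, hid]
      rw [e1, mul_assoc, hh, mul_assoc, hb, mul_zero, mul_zero]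
    have h2 : Lim2 (fun n => (star (v n) * v n) * b) (e * b) := he.mul_const b
    exact h2.unique ((Lim2.const (0 : M)).congr (fun n => (h1 n).symm))
  · intro c hc'
    have h1 : ∀ n, c * v n = 0 := by
      intro n
      change c * (x * _) = 0
      rw [← mul_assoc, hc', zero_mul]
    have h2 : Lim2 (fun n => c * v n) (c * w) := hw.const_mul c
    exact h2.unique ((Lim2.const (0 : M)).congr (fun n => (h1 n).symm))
  · intro b hb hb'
    have hbh : Commute h b := (hb'.mul_right hb).symm
    have h1 : ∀ n, b * (star (v n) * v n) = (star (v n) * v n) * b := by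
      intro n
      rw [hvv]
      exact (hbh.cfc_real _).symm.eq
    have h2 : Lim2 (fun n => b * (star (v n) * v n)) (b * e) := he.const_mul b
    have h3 : Lim2 (fun n => (star (v n) * v n) * b) (e * b) := he.mul_const b
    exact h2.unique (h3.congr (fun n => (h1 n).symm))

/-- Right support of `x`.
Sketch: `a := star x * x`, `a_n := a * cfc (fun t : ℝ => (max ((n+1:ℝ)⁻¹) t)⁻¹) a`; `0 ≤ a_n ≤ 1`,
increasing, `‖a_m - a_n‖_2^2 ≤ |rt a_m - rt a_n|`, so `exists_lim2` gives `e`; for fixed `n`
`a_n * a_m → a_n` and `a * a_m → a` in norm. -/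
theorem exists_support (x : M) : ∃ e : M, IsStarProjection e ∧ x * e = x ∧
    (∀ b, x * b = 0 → e * b = 0) ∧
    (∀ b, Commute b x → Commute b (star x) → Commute b e) := by
  obtain ⟨v, h1, h2, h3, -, h5⟩ := exists_polar_aux x
  exact ⟨star v * v, h1, h2, h3, h5⟩

/-- Polar decomposition.
Sketch: `a := CFC.abs x` or `(star x * x)^(1/2)`, `v_n := x * cfc (fun t => (max (1/(n+1)) t)⁻¹) a`
is a bounded 2-norm Cauchy sequence, `star v_n * v_n → ` support of `x`. -/
theorem exists_polar (x : M) : ∃ v : M, IsStarProjection (star v * v) ∧ x * (star v * v) = x ∧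
    (∀ b, x * b = 0 → v * b = 0) ∧ (∀ c, c * x = 0 → c * v = 0) := by
  obtain ⟨v, h1, h2, h3, h4, -⟩ := exists_polar_aux x
  refine ⟨v, h1, h2, fun b hb => ?_, h4⟩
  rw [← mul_star_mul_self_of_proj h1, mul_assoc, h3 b hb, mul_zero]

end Pool.Agent.McDuffR
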